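import Pool.Agent.Helper93.ZF.Truth

set_option autoImplicit false
set_option linter.unusedSectionVars false

/-!
# The symmetric Cohen model attached to a permutation group

Given a group `𝒢` of permutations of a set `At` of atoms, we add for every atom `m` a set
`{x_{m,n} : n ∈ ω}` of Cohen reals, and use the group of all permutations of `At × ℕ` which
permute the fibres over `At` by an element of `𝒢`, with finite supports.
-/

namespace Pool.Agent.Helper93.ZF

open Name HSN SymSys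

/-- Finite partial functions `J → {+,-}`. -/
structure Cond (J : Type) where
  pos : Finset J
  neg : Finset J
  disj : Disjoint pos neg

namespace Cond

variable {J : Type}

@[ext] lemma ext' {p q : Cond J} (h1 : p.pos = q.pos) (h2 : p.neg = q.neg) : p = q := by
  cases p; cases q; simp_all

instance : PartialOrder (Cond J) where
  le p q := q.pos ⊆ p.pos ∧ q.neg ⊆ p.neg
  le_refl p := ⟨subset_rfl, subset_rfl⟩
  le_trans p q r h1 h2 := ⟨h2.1.trans h1.1, h2.2.trans h1.2⟩
  le_antisymm p q h1 h2 := ext' (h2.1.antisymm h1.1) (h2.2.antisymm h1.2)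

lemma le_def {p q : Cond J} : p ≤ q ↔ q.pos ⊆ p.pos ∧ q.neg ⊆ p.neg := Iff.rfl

instance : OrderTop (Cond J) where
  top := ⟨∅, ∅, by simp⟩
  le_top p := ⟨Finset.empty_subset _, Finset.empty_subset _⟩

instance [Countable J] : Countable (Cond J) := by
  have h : Function.Injective (fun p : Cond J => (p.pos, p.neg)) := by
    intro p q h
    simp only [Prod.mk.injEq] at h
    exact ext' h.1 h.2
  exact h.countable

/-- Transport of conditions along a permutation of the index set. -/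
def map (g : Equiv.Perm J) (p : Cond J) : Cond J :=
  ⟨p.pos.map g.toEmbedding, p.neg.map g.toEmbedding, (Finset.disjoint_map _).2 p.disj⟩

lemma map_mono (g : Equiv.Perm J) {p q : Cond J} (h : p ≤ q) : map g p ≤ map g q :=
  ⟨Finset.map_subset_map.2 h.1, Finset.map_subset_map.2 h.2⟩

/-- The condition saying that the bit at `j` is positive. -/
def single (j : J) : Cond J := ⟨{j}, ∅, by simp⟩

lemma le_single_iff {p : Cond J} {j : J} : p ≤ single j ↔ j ∈ p.pos := by
  simp [le_def, single]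

end Cond

variable {At : Type}

/-- The index set of the Cohen reals. -/
abbrev CI (At : Type) : Type := At × ℕ

/-- The group of permutations of `At × ℕ` over elements of `𝒢`. -/
def LG (𝒢 : Subgroup (Equiv.Perm At)) : Subgroup (Equiv.Perm (CI At)) where
  carrier := {g | ∃ γ ∈ 𝒢, ∀ x, (g x).1 = γ x.1}
  mul_mem' := by
    rintro g h ⟨γ, hγ, h1⟩ ⟨δ, hδ, h2⟩
    exact ⟨γ * δ, 𝒢.mul_mem hγ hδ, fun x => by simp [h1, h2]⟩
  one_mem' := ⟨1, 𝒢.one_mem, fun x => rfl⟩
  inv_mem' := by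
    rintro g ⟨γ, hγ, h1⟩
    refine ⟨γ⁻¹, 𝒢.inv_mem hγ, fun x => ?_⟩
    rw [Equiv.Perm.eq_inv_iff_eq, ← h1]
    simp

/-- The conditions. -/
abbrev CP (At : Type) : Type := Cond (CI At × ℕ)

/-- The induced permutation on bit positions. -/
def jmap (g : Equiv.Perm (CI At)) : Equiv.Perm (CI At × ℕ) := Equiv.prodCongr g (Equiv.refl ℕ)

@[simp] lemma jmap_apply (g : Equiv.Perm (CI At)) (j : CI At × ℕ) : jmap g j = (g j.1, j.2) := rfl

variable {𝒢 : Subgroup (Equiv.Perm At)}

instance instActC : MulAction (LG 𝒢) (CP At) where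
  smul g p := p.map (jmap g.1)
  one_smul p := by
    have h1 : (jmap (1 : LG 𝒢).1).toEmbedding = Function.Embedding.refl _ := by
      ext j <;> rfl
    apply Cond.ext'
    · change p.pos.map _ = p.pos
      rw [h1, Finset.map_refl]
    · change p.neg.map _ = p.neg
      rw [h1, Finset.map_refl]
  mul_smul g h p := by
    apply Cond.ext'
    · change p.pos.map _ = (p.pos.map _).map _
      rw [Finset.map_map]; rfl
    · change p.neg.map _ = (p.neg.map _).map _
      rw [Finset.map_map]; rfl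

lemma smul_pos (g : LG 𝒢) (p : CP At) : (g • p).pos = p.pos.map (jmap g.1).toEmbedding := rfl
lemma smul_neg (g : LG 𝒢) (p : CP At) : (g • p).neg = p.neg.map (jmap g.1).toEmbedding := rfl

instance instSymC : SymSys (CP At) (LG 𝒢) where
  smul_le' g _ _ h := Cond.map_mono _ h
  Big K := ∃ e : Finset (CI At), ∀ g : LG 𝒢, (∀ i ∈ e, g.1 i = i) → g ∈ K
  big_top := ⟨∅, fun _ _ => Subgroup.mem_top _⟩
  big_inf := by
    classical
    rintro K L ⟨e, he⟩ ⟨e', he'⟩
    exact ⟨e ∪ e', fun g hg => ⟨he g (fun i hi => hg i (Finset.mem_union_left _ hi)),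
      he' g (fun i hi => hg i (Finset.mem_union_right _ hi))⟩⟩
  big_mono := by
    rintro K L h ⟨e, he⟩
    exact ⟨e, fun g hg => h (he g hg)⟩
  big_conj := by
    classical
    rintro K g ⟨e, he⟩
    refine ⟨K.comap (MulAut.conj g⁻¹).toMonoidHom, ⟨e.map g.1.toEmbedding, ?_⟩, ?_⟩
    · intro h hh
      rw [Subgroup.mem_comap]
      apply he
      intro i hi
      have := hh (g.1 i) (by simp [hi])
      change (MulAut.conj g⁻¹ h).1 i = i
      simp only [MulAut.conj_apply, inv_inv, Subgroup.coe_mul, Subgroup.coe_inv,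
        Equiv.Perm.coe_mul, Function.comp_apply]
      rw [this]; simp
    · intro h hh
      rw [Subgroup.mem_comap] at hh
      simpa [MulAut.conj_apply] using hh

lemma big_iff {K : Subgroup (LG 𝒢)} : Big (CP At) K ↔
    ∃ e : Finset (CI At), ∀ g : LG 𝒢, (∀ i ∈ e, g.1 i = i) → g ∈ K := Iff.rfl

/-- The subgroup of elements fixing a finite set of indices. -/
def fixG (e : Finset (CI At)) : Subgroup (LG 𝒢) where
  carrier := {g | ∀ i ∈ e, g.1 i = i}
  mul_mem' := by
    intro g h hg hh i hi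
    rw [Subgroup.coe_mul, Equiv.Perm.mul_apply, hh i hi, hg i hi]
  one_mem' := fun i _ => rfl
  inv_mem' := by
    intro g hg i hi
    rw [Subgroup.coe_inv, Equiv.Perm.inv_eq_iff_eq]
    exact (hg i hi).symm

lemma mem_fixG {e : Finset (CI At)} {g : LG 𝒢} : g ∈ fixG e ↔ ∀ i ∈ e, g.1 i = i := Iff.rfl

lemma big_fixG (e : Finset (CI At)) : Big (CP At) (fixG (𝒢 := 𝒢) e) := ⟨e, fun _ h => h⟩

/-! ### Families -/

section fam

variable {P : Type} {Γ : Type} [PartialOrder P] [OrderTop P] [Group Γ] [MulAction Γ P]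
  [SymSys P Γ]

/-- A family of names is symmetric. -/
def SymFam (Γ : Type) {P : Type} [PartialOrder P] [OrderTop P] [Group Γ] [MulAction Γ P]
    [SymSys P Γ] {α : Type} (A : α → HSN P Γ) : Prop :=
  ∃ K : Subgroup Γ, Big P K ∧ ∀ g ∈ K, ∀ a, ∃ b, ∀ p, eqv (g • A a) (A b) p

/-- The name for the set of values of a symmetric family. -/
def famN {α : Type} (A : α → HSN P Γ) (h : SymFam Γ A) : HSN P Γ :=
  ⟨Name.mk α (fun a => (A a).1) (fun _ => ⊤), by
    apply HS.of
    · obtain ⟨K, hK, hA⟩ := h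
      refine ⟨K, hK, ?_⟩
      intro g hg p
      constructor
      · intro a q _ _
        obtain ⟨b, hb⟩ := hA g hg a
        exact ⟨q, le_rfl, b, le_top, hb q⟩
      · intro a q _ _
        obtain ⟨b, hb⟩ := hA g⁻¹ (K.inv_mem hg) a
        refine ⟨q, le_rfl, b, ?_, ?_⟩
        · change q ≤ g • (⊤ : P)
          rw [smul_top]; exact le_top
        · have h2 := hb (g⁻¹ • q)
          rw [← eqv_smul g, smul_inv_smul, smul_inv_smul] at h2
          exact eqv_symm h2
    · intro a; exact (A a).2⟩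

lemma famN_el {α : Type} (A : α → HSN P Γ) (h : SymFam Γ A) (a : α) :
    (famN A h).el a = A a := rfl

lemma memv_famN {α : Type} (A : α → HSN P Γ) (h : SymFam Γ A) (a : α) (p : P) :
    memv (A a) (famN A h) p := memv_el (y := famN A h) a (p := p) le_top

lemma eqv_famN {α β : Type} {A : α → HSN P Γ} {B : β → HSN P Γ} (h : SymFam Γ A)
    (h' : SymFam Γ B) {p : P} (h1 : ∀ a, ∃ b, ∀ q, eqv (A a) (B b) q)
    (h2 : ∀ b, ∃ a, ∀ q, eqv (A a) (B b) q) : eqv (famN A h) (famN B h') p := by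
  constructor
  · intro a q _ _
    obtain ⟨b, hb⟩ := h1 a
    exact ⟨q, le_rfl, b, le_top, hb q⟩
  · intro b q _ _
    obtain ⟨a, ha⟩ := h2 b
    exact ⟨q, le_rfl, a, le_top, ha q⟩

lemma eqv_smul_famN (g : Γ) {α β : Type} {A : α → HSN P Γ} {B : β → HSN P Γ} (h : SymFam Γ A)
    (h' : SymFam Γ B) {p : P} (h1 : ∀ a, ∃ b, ∀ q, eqv (g • A a) (B b) q)
    (h2 : ∀ b, ∃ a, ∀ q, eqv (g • A a) (B b) q) : eqv (g • famN A h) (famN B h') p := by
  constructor
  · intro a q _ _
    obtain ⟨b, hb⟩ := h1 a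
    exact ⟨q, le_rfl, b, le_top, hb q⟩
  · intro b q _ _
    obtain ⟨a, ha⟩ := h2 b
    refine ⟨q, le_rfl, a, ?_, ha q⟩
    change q ≤ g • (⊤ : P)
    rw [smul_top]; exact le_top

/-- Membership in a family, in the model. -/
lemma Mod.mk_fam_iff {f : ℕ → HSN P Γ} {G : Set P} (hG : GenSet f G) {α : Type}
    {A : α → HSN P Γ} {h : SymFam Γ A} {n : ℕ} (hn : f n = famN A h) {ι : α → ℕ}
    (hι : ∀ a, f (ι a) = A a) (z : Mod hG) :
    Mod.E hG z (Mod.mk hG n) ↔ ∃ a, z = Mod.mk hG (ι a) := by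
  constructor
  · intro hz
    obtain ⟨k, rfl⟩ := Mod.exists_rep z
    obtain ⟨m, b, h1, h2, _⟩ := Mod.std hG hz
    have hs : ∀ (y : HSN P Γ) (b : y.Idx), y = famN A h → ∃ a : α, y.el b = A a := by
      intro y b hy; subst hy; exact ⟨b, rfl⟩
    obtain ⟨a, ha⟩ := hs (f n) b hn
    refine ⟨a, ?_⟩
    rw [h2]
    apply Mod.mk_eq_iff.2
    obtain ⟨p, hp⟩ := hG.ne
    refine ⟨p, hp, ?_⟩
    rw [h1, ha, hι]
    exact eqv_refl _ _
  · rintro ⟨a, rfl⟩
    obtain ⟨p, hp⟩ := hG.ne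
    refine Mod.E_mk.2 ⟨p, hp, ?_⟩
    rw [hι, hn]
    exact memv_famN A h a p

/-! ### Natural numbers are distinct -/

lemma memv_natN_of_lt {k k' : ℕ} (h : k < k') (p : P) :
    memv (natN k : HSN P Γ) (natN k') p := by
  induction k' with
  | zero => omega
  | succ n ih =>
    apply memv_succN.2
    intro q _
    refine ⟨q, le_rfl, ?_⟩
    rcases Nat.lt_succ_iff_lt_or_eq.1 h with h1 | h1
    · left
      exact memv_mono (ih h1) (by assumption)
    · right
      subst h1; exact eqv_refl _ _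

lemma exists_of_memv_natN {k : ℕ} : ∀ {z : HSN P Γ} {p : P}, memv z (natN k) p →
    ∃ q, q ≤ p ∧ ∃ j < k, eqv z (natN j) q := by
  induction k with
  | zero => intro z p h; exact absurd h (not_memv_emp _ _)
  | succ n ih =>
    intro z p h
    obtain ⟨r, hr, h1⟩ := memv_succN.1 h p le_rfl
    rcases h1 with h1 | h1
    · obtain ⟨q, hq, j, hj, h2⟩ := ih h1
      exact ⟨q, hq.trans hr, j, hj.trans (Nat.lt_succ_self n), h2⟩
    · exact ⟨r, hr, n, Nat.lt_succ_self n, h1⟩

lemma not_memv_natN_self (k : ℕ) : ∀ p : P, ¬ memv (natN k : HSN P Γ) (natN k) p := by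
  induction k using Nat.strong_induction_on with
  | _ k ih =>
    intro p h
    obtain ⟨q, _, j, hj, h2⟩ := exists_of_memv_natN h
    have h3 : memv (natN j : HSN P Γ) (natN k) q := memv_natN_of_lt hj q
    exact ih j hj q (memv_congr_right h2 h3)

lemma natN_inj {k k' : ℕ} {p : P} (h : eqv (natN k : HSN P Γ) (natN k') p) : k = k' := by
  rcases lt_trichotomy k k' with h1 | h1 | h1
  · exact absurd (memv_congr_right (eqv_symm h) (memv_natN_of_lt h1 p)) (not_memv_natN_self k p)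
  · exact h1
  · exact absurd (memv_congr_right h (memv_natN_of_lt h1 p)) (not_memv_natN_self k' p)

end fam

/-! ### The Cohen reals and the atoms -/

/-- The name of the Cohen real with index `i`. -/
def realName (i : CI At) : Name (CP At) :=
  Name.mk ℕ (fun k => (natN k : HSN (CP At) (LG 𝒢)).1) (fun k => Cond.single (i, k))

lemma smul_realName (g : LG 𝒢) (i : CI At) :
    g • realName (𝒢 := 𝒢) i = realName (𝒢 := 𝒢) (g.1 i) := by
  change Name.mk ℕ _ _ = Name.mk ℕ _ _
  congr 1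
  funext k
  exact congrArg Subtype.val (smul_natN g k)

/-- The Cohen real with index `i`. -/
def realN (i : CI At) : HSN (CP At) (LG 𝒢) :=
  ⟨realName (𝒢 := 𝒢) i, by
    apply HS.of
    · refine ⟨fixG {i}, big_fixG _, ?_⟩
      intro g hg p
      rw [smul_realName, hg i (by simp)]
      exact eqF_refl _ _
    · intro k; exact (natN k).2⟩

lemma smul_realN (g : LG 𝒢) (i : CI At) : g • realN (𝒢 := 𝒢) i = realN (g.1 i) :=
  Subtype.ext (smul_realName g i)

lemma symFam_atom (m : At) : SymFam (LG 𝒢) (fun n : ℕ => realN (𝒢 := 𝒢) (m, n)) := by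
  refine ⟨fixG {(m, 0)}, big_fixG _, ?_⟩
  intro g hg n
  obtain ⟨γ, _, hγ⟩ := g.2
  have h1 : γ m = m := by
    have := hγ (m, 0)
    rw [hg (m, 0) (by simp)] at this
    exact this.symm
  refine ⟨(g.1 (m, n)).2, fun p => ?_⟩
  rw [smul_realN]
  have : g.1 (m, n) = (m, (g.1 (m, n)).2) := by
    apply Prod.ext
    · rw [hγ]; exact h1
    · rfl
  change eqv (realN (g.1 (m, n))) (realN (m, (g.1 (m, n)).2)) p
  rw [← this]
  exact eqv_refl _ _

/-- The name of the set replacing the atom `m`. -/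
def atomN (m : At) : HSN (CP At) (LG 𝒢) := famN (fun n : ℕ => realN (m, n)) (symFam_atom m)

lemma smul_atomN (g : LG 𝒢) (γ : Equiv.Perm At) (hγ : ∀ x, (g.1 x).1 = γ x.1) (m : At)
    (p : CP At) : eqv (g • atomN (𝒢 := 𝒢) m) (atomN (γ m)) p := by
  apply eqv_smul_famN
  · intro n
    refine ⟨(g.1 (m, n)).2, fun q => ?_⟩
    rw [smul_realN]
    have : g.1 (m, n) = (γ m, (g.1 (m, n)).2) := by
      apply Prod.ext
      · rw [hγ]
      · rfl
    rw [← this]
    exact eqv_refl _ _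
  · intro n
    refine ⟨(g.1.symm (γ m, n)).2, fun q => ?_⟩
    rw [smul_realN]
    have h1 : (g.1.symm (γ m, n)).1 = m := by
      apply γ.injective
      rw [← hγ]; simp
    have : (m, (g.1.symm (γ m, n)).2) = g.1.symm (γ m, n) := by
      apply Prod.ext
      · exact h1.symm
      · rfl
    rw [this]
    simp only [Equiv.apply_symm_apply]
    exact eqv_refl _ _

lemma realN_ne {i i' : CI At} (h : i ≠ i') (p : CP At) :
    ¬ eqv (realN (𝒢 := 𝒢) i) (realN i') p := by
  classical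
  intro he
  -- a fresh bit
  obtain ⟨k, hk⟩ : ∃ k : ℕ, ∀ j ∈ p.pos ∪ p.neg, j.2 ≠ k := by
    obtain ⟨k, hk⟩ := Infinite.exists_notMem_finset ((p.pos ∪ p.neg).image Prod.snd)
    refine ⟨k, fun j hj hjk => hk ?_⟩
    rw [Finset.mem_image]
    exact ⟨j, hj, hjk⟩
  let q : CP At := ⟨insert (i, k) p.pos, insert (i', k) p.neg, by
    rw [Finset.disjoint_left]
    intro j hj hj'
    rw [Finset.mem_insert] at hj hj'
    rcases hj with rfl | hj
    · rcases hj' with h1 | h1
      · exact h (by simpa using h1)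
      · exact hk _ (Finset.mem_union_right _ h1) rfl
    · rcases hj' with rfl | h1
      · exact hk _ (Finset.mem_union_left _ hj) rfl
      · exact (Finset.disjoint_left.1 p.disj) hj h1⟩
  have hq : q ≤ p := ⟨Finset.subset_insert _ _, Finset.subset_insert _ _⟩
  have h1 : memv (natN k) (realN (𝒢 := 𝒢) i) q := by
    apply memv_el (y := realN (𝒢 := 𝒢) i) k
    change q ≤ Cond.single (i, k)
    rw [Cond.le_single_iff]
    exact Finset.mem_insert_self _ _
  have h2 := memv_congr_right (eqv_mono he hq) h1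
  obtain ⟨r, hr, k', hk', he'⟩ := memv_def.1 h2 q le_rfl
  have hkk : k = k' := natN_inj he'
  subst hkk
  have h3 : (i', k) ∈ r.pos := by
    rw [← Cond.le_single_iff]; exact hk'
  have h4 : (i', k) ∈ r.neg := hr.2 (Finset.mem_insert_self _ _)
  exact (Finset.disjoint_left.1 r.disj) h3 h4

lemma atomN_ne {m m' : At} (h : m ≠ m') (p : CP At) :
    ¬ eqv (atomN (𝒢 := 𝒢) m) (atomN m') p := by
  intro he
  have h1 : memv (realN (m, 0)) (atomN (𝒢 := 𝒢) m) p := memv_famN _ _ 0 p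
  have h2 := memv_congr_right he h1
  obtain ⟨r, _, n, _, he'⟩ := memv_def.1 h2 p le_rfl
  exact realN_ne (by intro h'; exact h (congrArg Prod.fst h')) r he'

/-! ### Homogeneity -/

/-- A permutation of `ℕ` moving all `n < N` not satisfying `fix` to `[N, 2N)`. -/
def shiftPerm (N : ℕ) (fix : ℕ → Prop) [DecidablePred fix] : Equiv.Perm ℕ where
  toFun n := if n < N ∧ ¬ fix n then n + N else if N ≤ n ∧ n < 2 * N ∧ ¬ fix (n - N) then n - N
    else n
  invFun n := if n < N ∧ ¬ fix n then n + N else if N ≤ n ∧ n < 2 * N ∧ ¬ fix (n - N) then n - N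
    else n
  left_inv := by
    intro n
    by_cases h1 : n < N ∧ ¬ fix n
    · have e1 : ¬ (n + N < N ∧ ¬ fix (n + N)) := by intro h; omega
      have e2 : N ≤ n + N ∧ n + N < 2 * N ∧ ¬ fix (n + N - N) := by
        refine ⟨by omega, by omega, ?_⟩
        rw [Nat.add_sub_cancel]; exact h1.2
      simp only [h1, e1, e2, not_false_eq_true, and_self, if_true, if_false]
      omega
    · by_cases h2 : N ≤ n ∧ n < 2 * N ∧ ¬ fix (n - N)
      · have e1 : n - N < N ∧ ¬ fix (n - N) := ⟨by omega, h2.2.2⟩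
        simp only [h1, h2, e1, not_false_eq_true, and_self, if_true, if_false]
        omega
      · simp only [h1, h2, if_false]
  right_inv := by
    intro n
    by_cases h1 : n < N ∧ ¬ fix n
    · have e1 : ¬ (n + N < N ∧ ¬ fix (n + N)) := by intro h; omega
      have e2 : N ≤ n + N ∧ n + N < 2 * N ∧ ¬ fix (n + N - N) := by
        refine ⟨by omega, by omega, ?_⟩
        rw [Nat.add_sub_cancel]; exact h1.2
      simp only [h1, e1, e2, not_false_eq_true, and_self, if_true, if_false]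
      omega
    · by_cases h2 : N ≤ n ∧ n < 2 * N ∧ ¬ fix (n - N)
      · have e1 : n - N < N ∧ ¬ fix (n - N) := ⟨by omega, h2.2.2⟩
        simp only [h1, h2, e1, not_false_eq_true, and_self, if_true, if_false]
        omega
      · simp only [h1, h2, if_false]

lemma shiftPerm_of_lt {N n : ℕ} {fix : ℕ → Prop} [DecidablePred fix] (h : n < N) (h' : ¬ fix n) :
    shiftPerm N fix n = n + N := by
  simp [shiftPerm, h, h']

lemma shiftPerm_of_fix {N n : ℕ} {fix : ℕ → Prop} [DecidablePred fix] (h : n < N) (h' : fix n) :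
    shiftPerm N fix n = n := by
  have : ¬ (N ≤ n) := by omega
  simp [shiftPerm, h', this]

/-- Homogeneity: compatible conditions stay compatible after moving one of them by a suitable
lift of `γ` fixing `e`. -/
lemma homogeneous (e : Finset (CI At)) (γ : Equiv.Perm At) (hγ : γ ∈ 𝒢) (hγe : ∀ i ∈ e, γ i.1 = i.1)
    (p q : CP At) (hpq : ∃ s, s ≤ p ∧ s ≤ q) :
    ∃ g : LG 𝒢, (∀ i ∈ e, g.1 i = i) ∧ (∀ x, (g.1 x).1 = γ x.1) ∧ ∃ r, r ≤ q ∧ r ≤ g • p := by
  classical
  obtain ⟨N, hN⟩ : ∃ N : ℕ, (∀ i ∈ e, i.2 < N) ∧ (∀ j ∈ p.pos ∪ p.neg, j.1.2 < N) ∧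
      (∀ j ∈ q.pos ∪ q.neg, j.1.2 < N) := by
    refine ⟨max (e.sup Prod.snd) (max ((p.pos ∪ p.neg).sup (fun j => j.1.2))
      ((q.pos ∪ q.neg).sup (fun j => j.1.2))) + 1, ?_, ?_, ?_⟩
    · intro i hi
      exact Nat.lt_succ_of_le ((Finset.le_sup (f := Prod.snd) hi).trans (le_max_left _ _))
    · intro j hj
      exact Nat.lt_succ_of_le (((Finset.le_sup (f := fun j => j.1.2) hj).trans
        (le_max_left _ _)).trans (le_max_right _ _))
    · intro j hj
      exact Nat.lt_succ_of_le (((Finset.le_sup (f := fun j => j.1.2) hj).trans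
        (le_max_right _ _)).trans (le_max_right _ _))
  obtain ⟨hNe, hNp, hNq⟩ := hN
  let g₀ : Equiv.Perm (CI At) :=
    Equiv.prodShear γ (fun m => shiftPerm N (fun n => (m, n) ∈ e))
  have hg₀ : ∀ x, g₀ x = (γ x.1, shiftPerm N (fun n => (x.1, n) ∈ e) x.2) := fun x => rfl
  let g : LG 𝒢 := ⟨g₀, γ, hγ, fun x => rfl⟩
  have hfix : ∀ i ∈ e, g₀ i = i := by
    intro i hi
    rw [hg₀]
    apply Prod.ext
    · exact hγe i hi
    · exact shiftPerm_of_fix (hNe i hi) hi
  obtain ⟨s, hsp, hsq⟩ := hpq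
  refine ⟨g, hfix, fun x => rfl, ?_⟩
  have key : ∀ j ∈ p.pos ∪ p.neg, j.1 ∉ e → ∀ j' ∈ q.pos ∪ q.neg, jmap g₀ j ≠ j' := by
    intro j hj hje j' hj' h
    have h1 := hNq j' hj'
    rw [← h] at h1
    simp only [jmap_apply, hg₀] at h1
    have h2 := hNp j hj
    rw [shiftPerm_of_lt h2 hje] at h1
    omega
  refine ⟨⟨q.pos ∪ (g • p).pos, q.neg ∪ (g • p).neg, ?_⟩,
    ⟨Finset.subset_union_left, Finset.subset_union_left⟩,
    ⟨Finset.subset_union_right, Finset.subset_union_right⟩⟩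
  rw [Finset.disjoint_left]
  intro j hj hj'
  rw [Finset.mem_union] at hj hj'
  rcases hj with hj | hj
  · rcases hj' with hj' | hj'
    · exact (Finset.disjoint_left.1 q.disj) hj hj'
    · rw [smul_neg, Finset.mem_map] at hj'
      obtain ⟨k, hk, hkj⟩ := hj'
      have hkj' : jmap g₀ k = j := hkj
      by_cases hke : k.1 ∈ e
      · have : jmap g₀ k = k := by
          rw [jmap_apply, hfix _ hke]
        rw [this] at hkj'
        subst hkj'
        exact (Finset.disjoint_left.1 s.disj) (hsq.1 hj) (hsp.2 hk)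
      · exact key k (Finset.mem_union_right _ hk) hke j (Finset.mem_union_left _ hj) hkj'
  · rw [smul_pos, Finset.mem_map] at hj
    obtain ⟨k, hk, hkj⟩ := hj
    have hkj' : jmap g₀ k = j := hkj
    rcases hj' with hj' | hj'
    · by_cases hke : k.1 ∈ e
      · have : jmap g₀ k = k := by
          rw [jmap_apply, hfix _ hke]
        rw [this] at hkj'
        subst hkj'
        exact (Finset.disjoint_left.1 s.disj) (hsp.1 hk) (hsq.2 hj')
      · exact key k (Finset.mem_union_left _ hk) hke j (Finset.mem_union_right _ hj') hkj'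
    · rw [smul_neg, Finset.mem_map] at hj'
      obtain ⟨k', hk', hkj''⟩ := hj'
      have : k = k' := (jmap g₀).injective (hkj'.trans hkj''.symm)
      subst this
      exact (Finset.disjoint_left.1 p.disj) hk hk'

/-- The dense sets used for the invariance lemma. -/
def DHom (𝒢 : Subgroup (Equiv.Perm At)) (t : CP At × Finset (CI At) × List (At × At)) :
    Set (CP At) :=
  {r | (∃ s, s ≤ t.1 ∧ s ≤ r) →
    (∃ γ ∈ 𝒢, (∀ i ∈ t.2.1, γ i.1 = i.1) ∧ ∀ u ∈ t.2.2, γ u.1 = u.2) →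
    ∃ g : LG 𝒢, (∀ i ∈ t.2.1, g.1 i = i) ∧
      (∃ γ ∈ 𝒢, (∀ x, (g.1 x).1 = γ x.1) ∧ ∀ u ∈ t.2.2, γ u.1 = u.2) ∧ r ≤ g • t.1}

lemma DHom_dense (t : CP At × Finset (CI At) × List (At × At)) (p : CP At) :
    ∃ q, q ≤ p ∧ q ∈ DHom 𝒢 t := by
  by_cases h : ∃ s, s ≤ t.1 ∧ s ≤ p
  · by_cases h2 : ∃ γ ∈ 𝒢, (∀ i ∈ t.2.1, γ i.1 = i.1) ∧ ∀ u ∈ t.2.2, γ u.1 = u.2
    · obtain ⟨γ, hγ, h3, h4⟩ := h2
      obtain ⟨g, hg1, hg2, r, hr1, hr2⟩ := homogeneous t.2.1 γ hγ h3 t.1 p h
      exact ⟨r, hr1, fun _ _ => ⟨g, hg1, ⟨γ, hγ, hg2, h4⟩, hr2⟩⟩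
    · exact ⟨p, le_rfl, fun _ h' => absurd h' h2⟩
  · exact ⟨p, le_rfl, fun h' => absurd h' h⟩

section inv

variable {f : ℕ → HSN (CP At) (LG 𝒢)} {G : Set (CP At)}

/-- The invariance lemma: membership in a set supported by `e` is invariant under elements of
the group fixing `e`. -/
lemma invariance (hG : GenSet f G) (hD : ∀ t, ∃ p ∈ G, p ∈ DHom 𝒢 t) {y w w' : ℕ}
    {e : Finset (CI At)} (hy : FixedBy (fixG e) (f y)) (l : List (At × At))
    (hl : ∃ γ ∈ 𝒢, (∀ i ∈ e, γ i.1 = i.1) ∧ ∀ u ∈ l, γ u.1 = u.2)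
    (hw : ∀ (g : LG 𝒢), (∃ γ ∈ 𝒢, (∀ x, (g.1 x).1 = γ x.1) ∧ ∀ u ∈ l, γ u.1 = u.2) →
      ∀ p, eqv (g • f w) (f w') p)
    (h : Mod.E hG (Mod.mk hG w) (Mod.mk hG y)) : Mod.E hG (Mod.mk hG w') (Mod.mk hG y) := by
  obtain ⟨p, hp, h1⟩ := Mod.E_mk.1 h
  obtain ⟨r, hr, hrD⟩ := hD (p, e, l)
  obtain ⟨s, hs, hsp, hsr⟩ := hG.dir p hp r hr
  obtain ⟨g, hg1, hg2, hg3⟩ := hrD ⟨s, hsp, hsr⟩ hl
  refine Mod.E_mk.2 ⟨r, hr, ?_⟩
  have h2 := (memv_smul g).2 h1
  have h3 : memv (g • f w) (g • f y) r := memv_mono h2 hg3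
  exact memv_congr_left (hw g hg2 r) (memv_congr_right (hy g hg1 r) h3)

end inv

end Pool.Agent.Helper93.ZF
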