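import Pool.Agent.Helper93.ZF.Model

set_option autoImplicit false

/-!
# A universal homogeneous colouring of the finite subsets of `ℕ`
-/

namespace Pool.Agent.Helper93.Colour

open Equiv

lemma exists_psi : ∃ ψ : ℕ → Finset (Finset ℕ), ∀ (S : Finset (Finset ℕ)) (N : ℕ),
    ∃ x, N < x ∧ ψ x = S := by
  obtain ⟨s, hs⟩ := exists_surjective_nat (Finset (Finset ℕ))
  refine ⟨fun x => s (Nat.unpair x).1, fun S N => ?_⟩
  obtain ⟨a, rfl⟩ := hs S
  refine ⟨Nat.pair a (N + 1), ?_, by simp⟩
  exact lt_of_lt_of_le (Nat.lt_succ_self N) (Nat.right_le_pair a (N + 1))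

/-- A sequence taking every value infinitely often. -/
noncomputable def ψ : ℕ → Finset (Finset ℕ) := Classical.choose exists_psi

lemma psi_spec (S : Finset (Finset ℕ)) (N : ℕ) : ∃ x, N < x ∧ ψ x = S :=
  Classical.choose_spec exists_psi S N

/-- The colouring. -/
def R (T : Finset ℕ) : Prop := ∃ h : T.Nonempty, T.erase (T.max' h) ∈ ψ (T.max' h)

/-- The extension property. -/
lemma extension (E : Finset ℕ) (f : Finset ℕ → Prop) (N : ℕ) :
    ∃ x, N < x ∧ x ∉ E ∧ ∀ S, S ⊆ E → S.Nonempty → (R (insert x S) ↔ f S) := by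
  classical
  obtain ⟨x, hx, hψ⟩ := psi_spec (E.powerset.filter (fun S => f S)) (max N (E.sup id))
  have hxE : ∀ y ∈ E, y < x := by
    intro y hy
    have h1 : y ≤ E.sup id := Finset.le_sup (f := id) hy
    exact lt_of_le_of_lt (h1.trans (le_max_right _ _)) hx
  refine ⟨x, lt_of_le_of_lt (le_max_left _ _) hx, fun h => lt_irrefl _ (hxE x h), ?_⟩
  intro S hS hne
  have hxS : x ∉ S := fun h => lt_irrefl _ (hxE x (hS h))
  have hmax : ∀ h : (insert x S).Nonempty, (insert x S).max' h = x := by
    intro h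
    apply le_antisymm
    · apply Finset.max'_le
      intro y hy
      rcases Finset.mem_insert.1 hy with h | h
      · exact h.le
      · exact (hxE y (hS h)).le
    · exact Finset.le_max' _ _ (Finset.mem_insert_self _ _)
  constructor
  · rintro ⟨h, h1⟩
    rw [hmax h, hψ, Finset.erase_insert hxS, Finset.mem_filter] at h1
    exact h1.2
  · intro h
    refine ⟨Finset.insert_nonempty _ _, ?_⟩
    rw [hmax, hψ, Finset.erase_insert hxS, Finset.mem_filter, Finset.mem_powerset]
    exact ⟨hS, h⟩

/-! ### Partial isomorphisms -/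

/-- Finite partial isomorphisms. -/
structure PIso (s : Finset (ℕ × ℕ)) : Prop where
  bij : ∀ t ∈ s, ∀ u ∈ s, (t.1 = u.1 ↔ t.2 = u.2)
  col : ∀ s', s' ⊆ s → 2 ≤ s'.card → (R (s'.image Prod.fst) ↔ R (s'.image Prod.snd))

lemma PIso.mono {s t : Finset (ℕ × ℕ)} (h : PIso t) (hst : s ⊆ t) : PIso s :=
  ⟨fun a ha b hb => h.bij a (hst ha) b (hst hb), fun s' hs' hc => h.col s' (hs'.trans hst) hc⟩

lemma PIso.swap {s : Finset (ℕ × ℕ)} (h : PIso s) : PIso (s.image Prod.swap) := by
  classical
  constructor
  · intro t ht u hu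
    rw [Finset.mem_image] at ht hu
    obtain ⟨t, ht, rfl⟩ := ht
    obtain ⟨u, hu, rfl⟩ := hu
    exact (h.bij t ht u hu).symm
  · intro s' hs' hc
    have h1 : s'.image Prod.swap ⊆ s := by
      intro t ht
      rw [Finset.mem_image] at ht
      obtain ⟨u, hu, rfl⟩ := ht
      obtain ⟨v, hv, rfl⟩ := Finset.mem_image.1 (hs' hu)
      simpa using hv
    have h2 := h.col _ h1 (by
      rwa [Finset.card_image_of_injective _ Prod.swap_injective])
    rw [Finset.image_image, Finset.image_image] at h2
    exact h2.symm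

lemma PIso.forth {s : Finset (ℕ × ℕ)} (h : PIso s) {x : ℕ} (hx : ∀ t ∈ s, t.1 ≠ x)
    (B : Finset ℕ) : ∃ y, y ∉ B ∧ (∀ t ∈ s, t.2 ≠ y) ∧ PIso (insert (x, y) s) := by
  classical
  let E : Finset ℕ := s.image Prod.snd
  let pre : Finset ℕ → Finset ℕ := fun S => (s.filter (fun t => t.2 ∈ S)).image Prod.fst
  obtain ⟨y, hyN, hyE, hy⟩ := extension E (fun S => R (insert x (pre S))) (B.sup id)
  have hyB : y ∉ B := fun hyB => by
    have : y ≤ B.sup id := Finset.le_sup (f := id) hyB
    exact absurd hyN (not_lt.2 this)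
  have hys : ∀ t ∈ s, t.2 ≠ y := by
    rintro t ht rfl
    exact hyE (Finset.mem_image_of_mem _ ht)
  refine ⟨y, hyB, hys, ?_, ?_⟩
  · intro t ht u hu
    rcases Finset.mem_insert.1 ht with rfl | ht
    · rcases Finset.mem_insert.1 hu with rfl | hu
      · simp
      · have h1 := hx u hu
        have h2 := hys u hu
        exact ⟨fun h => absurd h.symm h1, fun h => absurd h.symm h2⟩
    · rcases Finset.mem_insert.1 hu with rfl | hu
      · have h1 := hx t ht
        have h2 := hys t ht
        exact ⟨fun h => absurd h h1, fun h => absurd h h2⟩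
      · exact h.bij t ht u hu
  · intro s' hs' hc
    by_cases hxs : (x, y) ∈ s'
    · have h1 : s' = insert (x, y) (s'.erase (x, y)) := (Finset.insert_erase hxs).symm
      have h2 : s'.erase (x, y) ⊆ s := by
        intro t ht
        rw [Finset.mem_erase] at ht
        rcases Finset.mem_insert.1 (hs' ht.2) with h | h
        · exact absurd h ht.1
        · exact h
      have h3 : (s'.erase (x, y)).Nonempty := by
        rw [← Finset.card_pos, Finset.card_erase_of_mem hxs]; omega
      have h4 : pre ((s'.erase (x, y)).image Prod.snd) = (s'.erase (x, y)).image Prod.fst := by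
        ext z
        simp only [pre, Finset.mem_image, Finset.mem_filter]
        constructor
        · rintro ⟨t, ⟨ht, u, hu, hut⟩, rfl⟩
          have := (h.bij u (h2 hu) t ht).2 hut
          exact ⟨u, hu, this⟩
        · rintro ⟨t, ht, rfl⟩
          exact ⟨t, ⟨h2 ht, t, ht, rfl⟩, rfl⟩
      rw [h1, Finset.image_insert, Finset.image_insert]
      simp only
      rw [hy _ (Finset.image_subset_image h2) (h3.image _), h4]
    · apply h.col s' _ hc
      intro t ht
      rcases Finset.mem_insert.1 (hs' ht) with h | h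
      · exact absurd (h ▸ ht) hxs
      · exact h

/-- The automorphism group of the colouring. -/
def GR : Subgroup (Perm ℕ) where
  carrier := {g | ∀ S : Finset ℕ, 2 ≤ S.card → (R (S.map g.toEmbedding) ↔ R S)}
  mul_mem' := by
    intro g h hg hh S hS
    have h1 : S.map (g * h).toEmbedding = (S.map h.toEmbedding).map g.toEmbedding := by
      rw [Finset.map_map]; rfl
    rw [h1, hg _ (by rwa [Finset.card_map]), hh S hS]
  one_mem' := by
    intro S _
    have : S.map (1 : Perm ℕ).toEmbedding = S := by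
      have : (1 : Perm ℕ).toEmbedding = Function.Embedding.refl _ := rfl
      rw [this, Finset.map_refl]
    rw [this]
  inv_mem' := by
    intro g hg S hS
    have h1 := hg (S.map (g⁻¹).toEmbedding) (by rwa [Finset.card_map])
    have h2 : (S.map (g⁻¹).toEmbedding).map g.toEmbedding = S := by
      rw [Finset.map_map]
      have : (g⁻¹).toEmbedding.trans g.toEmbedding = Function.Embedding.refl _ := by
        ext x; exact g.apply_symm_apply x
      rw [this, Finset.map_refl]
    rw [h2] at h1
    exact h1.symm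

/-- Finite partial isomorphisms, as a type. -/
structure PIsoT where
  val : Finset (ℕ × ℕ)
  prop : PIso val

instance : PartialOrder PIsoT where
  le a b := b.val ⊆ a.val
  le_refl a := subset_rfl
  le_trans a b c h1 h2 := Finset.Subset.trans h2 h1
  le_antisymm a b h1 h2 := by
    cases a; cases b
    congr
    exact Finset.Subset.antisymm h2 h1

lemma PIsoT.le_def {a b : PIsoT} : a ≤ b ↔ b.val ⊆ a.val := Iff.rfl

/-- Homogeneity: partial isomorphisms extend to automorphisms. -/
lemma PIso.extend {s : Finset (ℕ × ℕ)} (h : PIso s) : ∃ g ∈ GR, ∀ t ∈ s, g t.1 = t.2 := by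
  classical
  let D : ℕ ⊕ ℕ → Set PIsoT := fun c => match c with
    | .inl x => {s | ∃ t ∈ s.1, t.1 = x}
    | .inr y => {s | ∃ t ∈ s.1, t.2 = y}
  have hD : ∀ (k : ℕ ⊕ ℕ) (p : PIsoT), ∃ q, q ≤ p ∧ q ∈ D k := by
    intro k p
    match k with
    | .inl x =>
      by_cases hx : ∃ t ∈ p.1, t.1 = x
      · exact ⟨p, le_rfl, hx⟩
      · push Not at hx
        obtain ⟨y, _, _, hy⟩ := p.2.forth hx ∅
        exact ⟨⟨_, hy⟩, Finset.subset_insert _ _, (x, y), Finset.mem_insert_self _ _, rfl⟩
    | .inr y =>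
      by_cases hx : ∃ t ∈ p.1, t.2 = y
      · exact ⟨p, le_rfl, hx⟩
      · push Not at hx
        obtain ⟨x, _, _, hx2⟩ := p.2.swap.forth (x := y) (by
          intro t ht
          obtain ⟨u, hu, rfl⟩ := Finset.mem_image.1 ht
          exact hx u hu) ∅
        have h1 := hx2.swap
        rw [Finset.image_insert, Finset.image_image] at h1
        have h2 : (Prod.swap ∘ Prod.swap : ℕ × ℕ → ℕ × ℕ) = id := by
          funext t; simp
        rw [h2, Finset.image_id] at h1
        exact ⟨⟨_, h1⟩, Finset.subset_insert _ _, (x, y), Finset.mem_insert_self _ _, rfl⟩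
  obtain ⟨G, hs, hdir, hG⟩ := Pool.Agent.Helper93.ZF.exists_generic D hD (⟨s, h⟩ : PIsoT)
  have ex1 : ∀ x, ∃ y, ∃ t ∈ G, (x, y) ∈ t.1 := by
    intro x
    obtain ⟨t, ht, u, hu, rfl⟩ := hG (.inl x)
    exact ⟨u.2, t, ht, hu⟩
  have ex2 : ∀ y, ∃ x, ∃ t ∈ G, (x, y) ∈ t.1 := by
    intro y
    obtain ⟨t, ht, u, hu, rfl⟩ := hG (.inr y)
    exact ⟨u.1, t, ht, hu⟩
  have un : ∀ a b a' b', (∃ t ∈ G, (a, b) ∈ t.1) → (∃ t ∈ G, (a', b') ∈ t.1) →
      (a = a' ↔ b = b') := by
    rintro a b a' b' ⟨t, ht, h1⟩ ⟨u, hu, h2⟩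
    obtain ⟨r, _, hr1, hr2⟩ := hdir t ht u hu
    exact r.2.bij (a, b) (hr1 h1) (a', b') (hr2 h2)
  choose g1 hg1 using ex1
  choose g2 hg2 using ex2
  let g : Perm ℕ :=
    { toFun := g1
      invFun := g2
      left_inv := fun x => (un _ _ _ _ (hg2 (g1 x)) (hg1 x)).2 rfl
      right_inv := fun y => (un _ _ _ _ (hg1 (g2 y)) (hg2 y)).1 rfl }
  refine ⟨g, ?_, ?_⟩
  · intro S hS
    have : ∃ r ∈ G, ∀ x ∈ S, (x, g x) ∈ r.1 := by
      clear hS
      induction S using Finset.induction_on with
      | empty => exact ⟨_, hs, fun x hx => absurd hx (Finset.notMem_empty x)⟩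
      | insert a S _ ih =>
        obtain ⟨r, hr, h1⟩ := ih
        obtain ⟨t, ht, h2⟩ := hg1 a
        obtain ⟨u, hu, hu1, hu2⟩ := hdir r hr t ht
        refine ⟨u, hu, fun x hx => ?_⟩
        rcases Finset.mem_insert.1 hx with rfl | hx
        · exact hu2 h2
        · exact hu1 (h1 x hx)
    obtain ⟨r, _, hr⟩ := this
    have h1 := r.2.col (S.image (fun x => (x, g x))) (by
      intro t ht
      obtain ⟨x, hx, rfl⟩ := Finset.mem_image.1 ht
      exact hr x hx) (by
      rw [Finset.card_image_of_injective]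
      · exact hS
      · intro x y hxy; exact congrArg Prod.fst hxy)
    rw [Finset.image_image, Finset.image_image] at h1
    have e1 : S.image (Prod.fst ∘ fun x => (x, g x)) = S := by
      have : (Prod.fst ∘ fun x => (x, g x)) = (id : ℕ → ℕ) := rfl
      rw [this, Finset.image_id]
    have e2 : S.image (Prod.snd ∘ fun x => (x, g x)) = S.map g.toEmbedding := by
      rw [Finset.map_eq_image]; rfl
    rw [e1, e2] at h1
    exact h1.symm
  · intro t ht
    exact (un _ _ _ _ (hg1 t.1) ⟨_, hs, ht⟩).1 rfl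

/-! ### Types -/

open Classical in
/-- The type of `x` over `E`. -/
noncomputable def tp (E : Finset ℕ) (x : ℕ) : Finset (Finset ℕ) :=
  E.powerset.filter (fun S => S.Nonempty ∧ R (insert x S))

lemma mem_tp {E : Finset ℕ} {x : ℕ} {S : Finset ℕ} :
    S ∈ tp E x ↔ S ⊆ E ∧ S.Nonempty ∧ R (insert x S) := by
  classical
  simp [tp]

/-- Realising an arbitrary pattern. -/
lemma exists_tp (E : Finset ℕ) (f : Finset ℕ → Prop) (N : ℕ) :
    ∃ x, N < x ∧ x ∉ E ∧ ∀ S, S ⊆ E → S.Nonempty → (S ∈ tp E x ↔ f S) := by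
  obtain ⟨x, h1, h2, h3⟩ := extension E f N
  refine ⟨x, h1, h2, fun S hS hne => ?_⟩
  rw [mem_tp]
  exact ⟨fun h => (h3 S hS hne).1 h.2.2, fun h => ⟨hS, hne, (h3 S hS hne).2 h⟩⟩

lemma PIso.diag (E : Finset ℕ) : PIso (E.image (fun x => (x, x))) := by
  classical
  constructor
  · intro t ht u hu
    obtain ⟨x, _, rfl⟩ := Finset.mem_image.1 ht
    obtain ⟨y, _, rfl⟩ := Finset.mem_image.1 hu
    exact Iff.rfl
  · intro s' hs' _
    have : s'.image Prod.fst = s'.image Prod.snd := by
      apply Finset.image_congr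
      intro t ht
      obtain ⟨x, _, rfl⟩ := Finset.mem_image.1 (hs' ht)
      rfl
    rw [this]

/-- Elements of the same type over `E` are conjugate over `E`. -/
lemma conj_of_tp {E : Finset ℕ} {x y : ℕ} (hx : x ∉ E) (hy : y ∉ E) (h : tp E x = tp E y) :
    ∃ g ∈ GR, (∀ z ∈ E, g z = z) ∧ g x = y := by
  classical
  have hP : PIso (insert (x, y) (E.image (fun x => (x, x)))) := by
    constructor
    · intro t ht u hu
      rcases Finset.mem_insert.1 ht with rfl | ht
      · rcases Finset.mem_insert.1 hu with rfl | hu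
        · simp
        · obtain ⟨z, hz, rfl⟩ := Finset.mem_image.1 hu
          refine ⟨fun h => ?_, fun h => ?_⟩
          · simp only at h; subst h; exact absurd hz hx
          · simp only at h; subst h; exact absurd hz hy
      · obtain ⟨z, hz, rfl⟩ := Finset.mem_image.1 ht
        rcases Finset.mem_insert.1 hu with rfl | hu
        · refine ⟨fun h => ?_, fun h => ?_⟩
          · simp only at h; subst h; exact absurd hz hx
          · simp only at h; subst h; exact absurd hz hy
        · obtain ⟨w, hw, rfl⟩ := Finset.mem_image.1 hu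
          exact Iff.rfl
    · intro s' hs' hc
      by_cases hxs : (x, y) ∈ s'
      · have h2 : s'.erase (x, y) ⊆ E.image (fun x => (x, x)) := by
          intro t ht
          rw [Finset.mem_erase] at ht
          rcases Finset.mem_insert.1 (hs' ht.2) with h | h
          · exact absurd h ht.1
          · exact h
        have h3 : (s'.erase (x, y)).Nonempty := by
          rw [← Finset.card_pos, Finset.card_erase_of_mem hxs]; omega
        have h4 : (s'.erase (x, y)).image Prod.fst = (s'.erase (x, y)).image Prod.snd := by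
          apply Finset.image_congr
          intro t ht
          obtain ⟨z, _, rfl⟩ := Finset.mem_image.1 (h2 ht)
          rfl
        have h5 : (s'.erase (x, y)).image Prod.fst ⊆ E := by
          intro z hz
          obtain ⟨t, ht, rfl⟩ := Finset.mem_image.1 hz
          obtain ⟨w, hw, rfl⟩ := Finset.mem_image.1 (h2 ht)
          exact hw
        rw [← Finset.insert_erase hxs, Finset.image_insert, Finset.image_insert, ← h4]
        have h6 : (s'.erase (x, y)).image Prod.fst ∈ tp E x ↔
            (s'.erase (x, y)).image Prod.fst ∈ tp E y := by rw [h]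
        rw [mem_tp, mem_tp] at h6
        constructor
        · intro hR; exact (h6.1 ⟨h5, h3.image _, hR⟩).2.2
        · intro hR; exact (h6.2 ⟨h5, h3.image _, hR⟩).2.2
      · apply (PIso.diag E).col s' _ hc
        intro t ht
        rcases Finset.mem_insert.1 (hs' ht) with h | h
        · exact absurd (h ▸ ht) hxs
        · exact h
  obtain ⟨g, hg, h1⟩ := hP.extend
  refine ⟨g, hg, fun z hz => ?_, h1 (x, y) (Finset.mem_insert_self _ _)⟩
  exact h1 (z, z) (Finset.mem_insert_of_mem (Finset.mem_image_of_mem _ hz))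

/-- A copy of `D` over `E` disjoint from a given finite set. -/
lemma exists_copy (E D B : Finset ℕ) (hED : Disjoint E D) :
    ∃ g ∈ GR, (∀ z ∈ E, g z = z) ∧ ∀ d ∈ D, g d ∉ B := by
  classical
  have key : ∀ D' : Finset ℕ, D' ⊆ D → ∃ s, PIso s ∧ E.image (fun x => (x, x)) ⊆ s ∧
      (∀ t ∈ s, t.1 ∈ E ∪ D') ∧ ∀ d ∈ D', ∃ y, y ∉ B ∧ (d, y) ∈ s := by
    intro D'
    induction D' using Finset.induction_on with
    | empty =>
      intro _
      refine ⟨_, PIso.diag E, subset_rfl, ?_, by simp⟩
      intro t ht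
      obtain ⟨x, hx, rfl⟩ := Finset.mem_image.1 ht
      exact Finset.mem_union_left _ hx
    | insert a D' ha ih =>
      intro hD'
      obtain ⟨s, hs, h1, h2, h3⟩ := ih ((Finset.subset_insert _ _).trans hD')
      have haD : a ∈ D := hD' (Finset.mem_insert_self _ _)
      obtain ⟨y, hy, _, hP⟩ := hs.forth (x := a) (by
        rintro t ht rfl
        rcases Finset.mem_union.1 (h2 t ht) with h | h
        · exact (Finset.disjoint_left.1 hED) h haD
        · exact ha h) B
      refine ⟨_, hP, h1.trans (Finset.subset_insert _ _), ?_, ?_⟩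
      · intro t ht
        rcases Finset.mem_insert.1 ht with rfl | ht
        · exact Finset.mem_union_right _ (Finset.mem_insert_self _ _)
        · rcases Finset.mem_union.1 (h2 t ht) with h | h
          · exact Finset.mem_union_left _ h
          · exact Finset.mem_union_right _ (Finset.mem_insert_of_mem h)
      · intro d hd
        rcases Finset.mem_insert.1 hd with rfl | hd
        · exact ⟨y, hy, Finset.mem_insert_self _ _⟩
        · obtain ⟨z, hz, hz2⟩ := h3 d hd
          exact ⟨z, hz, Finset.mem_insert_of_mem hz2⟩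
  obtain ⟨s, hs, h1, _, h3⟩ := key D subset_rfl
  obtain ⟨g, hg, h4⟩ := hs.extend
  refine ⟨g, hg, fun z hz => h4 (z, z) (h1 (Finset.mem_image_of_mem _ hz)), fun d hd => ?_⟩
  obtain ⟨y, hy, hy2⟩ := h3 d hd
  rw [h4 (d, y) hy2]
  exact hy

lemma tp_smul {g : Perm ℕ} (hg : g ∈ GR) {E : Finset ℕ} {x : ℕ} (hx : x ∉ E) :
    tp (E.map g.toEmbedding) (g x) = (tp E x).map (Finset.mapEmbedding g.toEmbedding).toEmbedding := by
  classical
  ext S
  rw [mem_tp, Finset.mem_map]
  constructor
  · rintro ⟨h1, h2, h3⟩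
    obtain ⟨S', hS', rfl⟩ := Finset.subset_map_iff.1 h1
    refine ⟨S', ?_, rfl⟩
    rw [mem_tp]
    refine ⟨hS', by simpa using h2, ?_⟩
    have e : insert (g x) (S'.map g.toEmbedding) = (insert x S').map g.toEmbedding := by
      rw [Finset.map_insert]; rfl
    rw [e] at h3
    refine (hg _ ?_).1 h3
    rw [Finset.card_insert_of_notMem (fun h => hx (hS' h))]
    have : 0 < S'.card := by
      rw [Finset.card_pos]; simpa using h2
    omega
  · rintro ⟨S', hS', rfl⟩
    rw [mem_tp] at hS'
    obtain ⟨h1, h2, h3⟩ := hS'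
    refine ⟨Finset.map_subset_map.2 h1, by simpa using h2, ?_⟩
    have e : insert (g x) (S'.map g.toEmbedding) = (insert x S').map g.toEmbedding := by
      rw [Finset.map_insert]; rfl
    change R (insert (g x) (S'.map g.toEmbedding))
    rw [e]
    refine (hg _ ?_).2 h3
    rw [Finset.card_insert_of_notMem (fun h => hx (h1 h))]
    have : 0 < S'.card := Finset.card_pos.2 h2
    omega

/-- If a finitely supported set is almost invariant over `E`, then it is almost equal to a union
of types over `E`. -/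
lemma almost_types {X : Set ℕ} {E E' : Finset ℕ}
    (hE' : ∀ g ∈ GR, (∀ z ∈ E', g z = z) → ∀ x, (g x ∈ X ↔ x ∈ X))
    (hE : ∀ g ∈ GR, (∀ z ∈ E, g z = z) → {x | x ∈ X ∧ g⁻¹ x ∉ X}.Finite) :
    ∃ 𝒯 : Finset (Finset (Finset ℕ)), 𝒯 ⊆ E.powerset.powerset ∧
      {x | ¬ (x ∈ X ↔ tp E x ∈ 𝒯)}.Finite := by
  classical
  let D : Finset ℕ := E' \ E
  have hDE : Disjoint E D := Finset.disjoint_sdiff
  -- invariance of membership for equal types over E ∪ D
  have hinv : ∀ x y, x ∉ E ∪ D → y ∉ E ∪ D → tp (E ∪ D) x = tp (E ∪ D) y → (x ∈ X ↔ y ∈ X) := by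
    intro x y hx hy hxy
    obtain ⟨g, hg, hg1, rfl⟩ := conj_of_tp hx hy hxy
    refine (hE' g hg (fun z hz => hg1 z ?_) x).symm
    by_cases hzE : z ∈ E
    · exact Finset.mem_union_left _ hzE
    · exact Finset.mem_union_right _ (Finset.mem_sdiff.2 ⟨hz, hzE⟩)
  have key : ∀ x y, x ∉ E ∪ D → y ∉ E ∪ D → tp E x = tp E y → x ∈ X → y ∈ X := by
    intro x y hx hy hxy hxX
    by_contra hyX
    obtain ⟨g, hg, hgE, hgD⟩ := exists_copy E D (E ∪ D) hDE
    have hfin := hE g hg hgE
    -- infinitely many exceptional points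
    apply hfin.not_infinite
    rw [Set.infinite_iff_frequently_cofinite, Nat.cofinite_eq_atTop, Filter.frequently_atTop]
    intro N
    let B : Finset ℕ := E ∪ D ∪ (E ∪ D).map g.toEmbedding
    obtain ⟨z, hzN, hzB, hz⟩ := extension B (fun S => if S ⊆ E ∪ D then R (insert x S) else
      R (insert y (S.map (g⁻¹).toEmbedding))) N
    have hz1 : z ∉ E ∪ D := fun h => hzB (Finset.mem_union_left _ h)
    have hz2 : g⁻¹ z ∉ E ∪ D := by
      intro h
      apply hzB
      apply Finset.mem_union_right
      rw [Finset.mem_map]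
      exact ⟨g⁻¹ z, h, g.apply_symm_apply z⟩
    refine ⟨z, hzN.le, ?_, ?_⟩
    · refine (hinv z x hz1 hx ?_).2 hxX
      ext S
      rw [mem_tp, mem_tp]
      constructor
      · rintro ⟨h1, h2, h3⟩
        refine ⟨h1, h2, ?_⟩
        have := (hz S (h1.trans Finset.subset_union_left) h2).1 h3
        rwa [if_pos h1] at this
      · rintro ⟨h1, h2, h3⟩
        refine ⟨h1, h2, (hz S (h1.trans Finset.subset_union_left) h2).2 ?_⟩
        rwa [if_pos h1]
    · intro h
      apply hyX
      refine (hinv (g⁻¹ z) y hz2 hy ?_).1 h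
      ext S
      rw [mem_tp, mem_tp]
      -- for S ⊆ E ∪ D nonempty
      have main : ∀ S, S ⊆ E ∪ D → S.Nonempty → (R (insert (g⁻¹ z) S) ↔ R (insert y S)) := by
        intro S h1 h2
        have e1 : (insert (g⁻¹ z) S).map g.toEmbedding = insert z (S.map g.toEmbedding) := by
          rw [Finset.map_insert]
          congr 1
          exact g.apply_symm_apply z
        have e2 : R (insert z (S.map g.toEmbedding)) ↔ R (insert (g⁻¹ z) S) := by
          rw [← e1]
          apply hg
          rw [Finset.card_insert_of_notMem (fun h => hz2 (h1 h))]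
          have : 0 < S.card := Finset.card_pos.2 h2
          omega
        rw [← e2]
        have h3 : S.map g.toEmbedding ⊆ B :=
          (Finset.map_subset_map.2 h1).trans Finset.subset_union_right
        rw [hz _ h3 (by simpa using h2)]
        have e3 : (S.map g.toEmbedding).map (g⁻¹).toEmbedding = S := by
          rw [Finset.map_map]
          have : g.toEmbedding.trans (g⁻¹).toEmbedding = Function.Embedding.refl _ := by
            ext x; exact g.symm_apply_apply x
          rw [this, Finset.map_refl]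
        split_ifs with h4
        · -- then S ⊆ E
          have h5 : S ⊆ E := by
            intro d hd
            rcases Finset.mem_union.1 (h1 hd) with h | h
            · exact h
            · exact absurd (h4 (Finset.mem_map_of_mem g.toEmbedding hd)) (hgD d h)
          have h6 : S.map g.toEmbedding = S := by
            rw [Finset.map_eq_image]
            have : S.image g = S.image id := by
              apply Finset.image_congr
              intro d hd
              exact hgE d (h5 hd)
            rw [show (⇑g.toEmbedding) = g from rfl, this, Finset.image_id]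
          rw [h6]
          have h7 : S ∈ tp E x ↔ S ∈ tp E y := by rw [hxy]
          rw [mem_tp, mem_tp] at h7
          constructor
          · intro hR; exact (h7.1 ⟨h5, h2, hR⟩).2.2
          · intro hR; exact (h7.2 ⟨h5, h2, hR⟩).2.2
        · rw [e3]
      constructor
      · rintro ⟨h1, h2, h3⟩
        exact ⟨h1, h2, (main S h1 h2).1 h3⟩
      · rintro ⟨h1, h2, h3⟩
        exact ⟨h1, h2, (main S h1 h2).2 h3⟩
  refine ⟨E.powerset.powerset.filter (fun t => ∃ x, x ∉ E ∪ D ∧ x ∈ X ∧ tp E x = t),
    Finset.filter_subset _ _, ?_⟩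
  apply (Finset.finite_toSet (E ∪ D)).subset
  intro x hx
  by_contra hxE
  apply hx
  rw [Finset.mem_filter]
  have htp : tp E x ∈ E.powerset.powerset := by
    rw [Finset.mem_powerset]
    intro S hS
    rw [mem_tp] at hS
    exact Finset.mem_powerset.2 hS.1
  constructor
  · intro h
    exact ⟨htp, x, hxE, h, rfl⟩
  · rintro ⟨_, y, hy, hyX, hyt⟩
    exact key y x hy hxE hyt hyX

/-! ### Definable sets -/

/-- The set coded by `(E, D, 𝒯)`: the elements of `D` and the elements outside `E` whose type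
over `E` lies in `𝒯`. -/
def SetC (c : Finset ℕ × Finset ℕ × Finset (Finset (Finset ℕ))) : Set ℕ :=
  {x | x ∈ c.2.1 ∨ (x ∉ c.1 ∧ tp c.1 x ∈ c.2.2)}

/-- Every finitely supported set is coded. -/
lemma exists_code {X : Set ℕ} {E : Finset ℕ}
    (hE : ∀ g ∈ GR, (∀ z ∈ E, g z = z) → ∀ x, (g x ∈ X ↔ x ∈ X)) : ∃ c, SetC c = X := by
  classical
  refine ⟨(E, E.filter (fun x => x ∈ X), E.powerset.powerset.filter
    (fun t => ∃ x, x ∉ E ∧ x ∈ X ∧ tp E x = t)), ?_⟩
  ext x
  simp only [SetC, Set.mem_ofPred_eq, Finset.mem_filter]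
  constructor
  · rintro (⟨_, h⟩ | ⟨h1, _, y, hy, hyX, hyt⟩)
    · exact h
    · obtain ⟨g, hg, hg1, rfl⟩ := conj_of_tp hy h1 hyt
      exact (hE g hg hg1 y).2 hyX
  · intro h
    by_cases hxE : x ∈ E
    · exact Or.inl ⟨hxE, h⟩
    · refine Or.inr ⟨hxE, ?_, x, hxE, h, rfl⟩
      rw [Finset.mem_powerset]
      intro S hS
      rw [mem_tp] at hS
      exact Finset.mem_powerset.2 hS.1

/-- The action on codes. -/
def smulC (g : Perm ℕ) (c : Finset ℕ × Finset ℕ × Finset (Finset (Finset ℕ))) :
    Finset ℕ × Finset ℕ × Finset (Finset (Finset ℕ)) :=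
  (c.1.map g.toEmbedding, c.2.1.map g.toEmbedding,
    c.2.2.map (Finset.mapEmbedding (Finset.mapEmbedding g.toEmbedding).toEmbedding).toEmbedding)

lemma mem_smulC {g : Perm ℕ} (hg : g ∈ GR)
    (c : Finset ℕ × Finset ℕ × Finset (Finset (Finset ℕ))) (x : ℕ) :
    g x ∈ SetC (smulC g c) ↔ x ∈ SetC c := by
  simp only [SetC, smulC, Set.mem_ofPred_eq]
  have h1 : g x ∈ c.2.1.map g.toEmbedding ↔ x ∈ c.2.1 := Finset.mem_map' g.toEmbedding
  have h2 : g x ∈ c.1.map g.toEmbedding ↔ x ∈ c.1 := Finset.mem_map' g.toEmbedding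
  rw [h1, h2]
  apply or_congr_right
  apply and_congr_right
  intro hx
  rw [tp_smul hg hx]
  exact Finset.mem_map' (Finset.mapEmbedding (Finset.mapEmbedding g.toEmbedding).toEmbedding).toEmbedding

end Pool.Agent.Helper93.Colour
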