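import Pool.Agent.Helper93.ZF.Formula

set_option autoImplicit false

/-!
# Set-theoretic notions inside a structure `(M, E)`
-/

namespace Pool.Agent.Helper93.ZF

variable {M : Type*} (E : M → M → Prop)

/-- In `(M, E)`: `p = {x, y}`. -/
def IsUPair (p x y : M) : Prop := ∀ z, E z p ↔ (z = x ∨ z = y)

/-- In `(M, E)`: `p` is the Kuratowski ordered pair `⟨x, y⟩ = {{x}, {x, y}}`. -/
def IsOPair (p x y : M) : Prop :=
  ∃ u v, IsUPair E u x x ∧ IsUPair E v x y ∧ IsUPair E p u v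

/-- In `(M, E)`: `f` is (the graph of) a bijection from the set `A` onto the set `B`. -/
def IsBij (f A B : M) : Prop :=
  (∀ p, E p f → ∃ x y, E x A ∧ E y B ∧ IsOPair E p x y) ∧
  (∀ x, E x A → ∃! y, ∃ p, E p f ∧ IsOPair E p x y) ∧
  (∀ y, E y B → ∃! x, ∃ p, E p f ∧ IsOPair E p x y)

/-- In `(M, E)`: `t` is a subset of `A` with exactly three elements. -/
def IsThreeSubset (t A : M) : Prop :=
  ∃ x y z, x ≠ y ∧ x ≠ z ∧ y ≠ z ∧ E x A ∧ E y A ∧ E z A ∧
    ∀ w, E w t ↔ (w = x ∨ w = y ∨ w = z)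

variable {E}

lemma upair_unique (hext : ∀ x y, (∀ z, E z x ↔ E z y) → x = y) {p p' x y : M}
    (h : IsUPair E p x y) (h' : IsUPair E p' x y) : p = p' :=
  hext _ _ (fun z => by rw [h z, h' z])

lemma opair_unique (hext : ∀ x y, (∀ z, E z x ↔ E z y) → x = y) {p p' x y : M}
    (h : IsOPair E p x y) (h' : IsOPair E p' x y) : p = p' := by
  obtain ⟨u, v, h1, h2, h3⟩ := h
  obtain ⟨u', v', h1', h2', h3'⟩ := h'
  have e1 := upair_unique hext h1 h1'
  have e2 := upair_unique hext h2 h2'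
  subst e1 e2
  exact upair_unique hext h3 h3'

lemma opair_inj {p x y x' y' : M} (h : IsOPair E p x y) (h' : IsOPair E p x' y') :
    x = x' ∧ y = y' := by
  obtain ⟨u, v, h1, h2, h3⟩ := h
  obtain ⟨u', v', h1', h2', h3'⟩ := h'
  have hxu : E x u := (h1 x).2 (Or.inl rfl)
  have hxv : E x v := (h2 x).2 (Or.inl rfl)
  have hyv : E y v := (h2 y).2 (Or.inr rfl)
  have hxu' : E x' u' := (h1' x').2 (Or.inl rfl)
  have hxv' : E x' v' := (h2' x').2 (Or.inl rfl)
  have hyv' : E y' v' := (h2' y').2 (Or.inr rfl)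
  have a1 : u = u' ∨ u = v' := (h3' u).1 ((h3 u).2 (Or.inl rfl))
  have a2 : v = u' ∨ v = v' := (h3' v).1 ((h3 v).2 (Or.inr rfl))
  have a3 : v' = u ∨ v' = v := (h3 v').1 ((h3' v').2 (Or.inr rfl))
  have hx : x = x' := by
    rcases a1 with h | h
    · rw [h] at hxu
      rcases (h1' x).1 hxu with h | h <;> exact h
    · rw [← h] at hxv'
      rcases (h1 x').1 hxv' with h | h <;> exact h.symm
  subst hx
  refine ⟨rfl, ?_⟩
  have b1 : y = x ∨ y = y' := by
    rcases a2 with h | h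
    · rw [h] at hyv
      rcases (h1' y).1 hyv with h | h <;> exact Or.inl h
    · rw [h] at hyv
      exact (h2' y).1 hyv
  have b2 : y' = x ∨ y' = y := by
    rcases a3 with h | h
    · rw [h] at hyv'
      rcases (h1 y').1 hyv' with h | h <;> exact Or.inl h
    · rw [h] at hyv'
      exact (h2 y').1 hyv'
  rcases b1 with h | h
  · rcases b2 with h' | h'
    · rw [h, h']
    · exact h'.symm
  · exact h

end Pool.Agent.Helper93.ZF
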