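import Pool.Agent.Helper93.ZF.Triples

set_option autoImplicit false

/-!
# The enumeration of the uncoded finitary permutations, the group, and its lifting property
-/

namespace Pool.Agent.Helper93.Triples

open Equiv

/-! ### A greedy enumeration -/

lemma greedy {X : Type} [Countable X] (lev : X → ℕ)
    (h : ∀ (j : ℕ) (s : Finset X), s.card ≤ j → ∃ x, x ∉ s ∧ lev x ≤ j) :
    ∃ e : ℕ ≃ X, ∀ j, lev (e j) ≤ j := by
  classical
  obtain ⟨enc, henc⟩ := Countable.exists_injective_nat X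
  have key : ∀ (j : ℕ) (s : Finset X), s.card ≤ j → ∃ x, x ∉ s ∧ lev x ≤ j ∧
      ∀ y, y ∉ s → lev y ≤ j → enc x ≤ enc y := by
    intro j s hs
    have hex : ∃ n, ∃ x, x ∉ s ∧ lev x ≤ j ∧ enc x = n := by
      obtain ⟨x, hx, hl⟩ := h j s hs
      exact ⟨enc x, x, hx, hl, rfl⟩
    obtain ⟨x, hx, hl, he⟩ := Nat.find_spec hex
    refine ⟨x, hx, hl, fun y hy hly => ?_⟩
    rw [he]
    exact Nat.find_min' hex ⟨y, hy, hly, rfl⟩
  choose pick hp1 hp2 hp3 using key
  let S : (j : ℕ) → {s : Finset X // s.card ≤ j} := fun j => Nat.rec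
    (⟨∅, le_rfl⟩ : {s : Finset X // s.card ≤ 0})
    (fun j s => ⟨insert (pick j s.1 s.2) s.1, (Finset.card_insert_le _ _).trans (by
      have := s.2; omega)⟩) j
  let e : ℕ → X := fun j => pick j (S j).1 (S j).2
  have hS : ∀ j, (S (j + 1)).1 = insert (e j) (S j).1 := fun j => rfl
  have hmem : ∀ i j, i < j → e i ∈ (S j).1 := by
    intro i j hij
    induction j with
    | zero => omega
    | succ n ih =>
      rw [hS]
      rcases Nat.lt_succ_iff_lt_or_eq.1 hij with h1 | h1
      · exact Finset.mem_insert_of_mem (ih h1)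
      · subst h1; exact Finset.mem_insert_self _ _
  have hinj : Function.Injective e := by
    have hne : ∀ i j, i < j → e i ≠ e j := by
      intro i j hij h1
      have h2 := hmem i j hij
      rw [h1] at h2
      exact hp1 j (S j).1 (S j).2 h2
    intro i j hij
    rcases lt_trichotomy i j with h1 | h1 | h1
    · exact absurd hij (hne _ _ h1)
    · exact h1
    · exact absurd hij.symm (hne _ _ h1)
  have hsurj : Function.Surjective e := by
    intro x
    by_contra hx
    push Not at hx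
    have hxS : ∀ j, x ∉ (S j).1 := by
      intro j
      induction j with
      | zero => exact Finset.notMem_empty _
      | succ n ih =>
        rw [hS, Finset.mem_insert]
        push Not
        exact ⟨fun h => hx n h.symm, ih⟩
    have hle : ∀ j, enc (e (lev x + j)) ≤ enc x := fun j =>
      hp3 _ _ _ x (hxS _) (Nat.le_add_right _ _)
    have : Function.Injective (fun j : ℕ => (⟨enc (e (lev x + j)), Nat.lt_succ_of_le (hle j)⟩ :
        Fin (enc x + 1))) := by
      intro i j hij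
      have h1 := henc (Fin.mk.inj_iff.1 hij)
      have h2 := hinj h1
      omega
    exact not_injective_infinite_finite _ this
  exact ⟨Equiv.ofBijective e ⟨hinj, hsurj⟩, fun j => hp2 _ _ _⟩

/-! ### The uncoded permutations -/

/-- Finitary permutations which are not coded by a mixed triple. -/
abbrev U : Type := {h : Perm A // Fty h ∧ ¬ ∃ T, Mix T h}

instance : Countable {h : Perm A // Fty h} := by
  have h1 : ∀ n : ℕ, Countable {h : Perm A // ∀ t : A, n ≤ t.1 → h t = t} := by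
    intro n
    let r : {h : Perm A // ∀ t : A, n ≤ t.1 → h t = t} → (Fin n × Fin 3 → A) :=
      fun h t => h.1 (t.1.1, t.2)
    have hr : Function.Injective r := by
      intro h h' heq
      apply Subtype.ext
      ext1 t
      by_cases ht : n ≤ t.1
      · rw [h.2 t ht, h'.2 t ht]
      · push Not at ht
        exact congrFun heq (⟨t.1, ht⟩, t.2)
    exact hr.countable
  have h2 : Countable (Σ n : ℕ, {h : Perm A // ∀ t : A, n ≤ t.1 → h t = t}) := inferInstance
  let s : (Σ n : ℕ, {h : Perm A // ∀ t : A, n ≤ t.1 → h t = t}) → {h : Perm A // Fty h} :=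
    fun x => ⟨x.2.1, x.1, x.2.2⟩
  have hs : Function.Surjective s := by
    rintro ⟨h, n, hn⟩
    exact ⟨⟨n, h, hn⟩, rfl⟩
  exact hs.countable

instance : Countable U := by
  have : Function.Injective (fun h : U => (⟨h.1, h.2.1⟩ : {h : Perm A // Fty h})) := by
    intro h h' heq
    have h2 := congrArg Subtype.val heq
    exact Subtype.ext h2
  exact this.countable

open Classical in
/-- The level of an uncoded permutation. -/
noncomputable def lev (h : U) : ℕ := Nat.find h.2.1

lemma lev_spec (h : U) : ∀ t : A, lev h ≤ t.1 → h.1 t = t := by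
  classical
  exact Nat.find_spec h.2.1

lemma lev_le {h : U} {n : ℕ} (hn : ∀ t : A, n ≤ t.1 → h.1 t = t) : lev h ≤ n := by
  classical
  exact Nat.find_min' h.2.1 hn

/-- A permutation moving only points of one block and preserving the block is not mixed. -/
lemma not_mix_of {h : Perm A} {i : ℕ} (h1 : ∀ t : A, t.1 ≠ i → h t = t)
    (h2 : ∀ t, (h t).1 = t.1) : ¬ ∃ T, Mix T h := by
  rintro ⟨T, hT⟩
  cases hT with
  | three x y z hxy hxz hyz hT hh =>
    have hx : x.1 = i := by
      by_contra hne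
      have e1 := three_refl hxy hxz hyz (u := x) (by simp) (x.2 + 1)
      rw [← hh, h1 (x.1, x.2 + 1) hne] at e1
      exact fin3_move _ (congrArg Prod.snd e1).symm
    have hy : y.1 = i := by
      by_contra hne
      have e1 := three_refl hxy hxz hyz (u := y) (by simp) (y.2 + 1)
      rw [← hh, h1 (y.1, y.2 + 1) hne] at e1
      exact fin3_move _ (congrArg Prod.snd e1).symm
    exact hxy (hx.trans hy.symm)
  | two w z hwz hT hh =>
    have e1 := h2 w
    rw [hh, two_w hwz] at e1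
    exact hwz e1.symm

/-- The identity is uncoded. -/
def u₀ : U := ⟨1, ⟨0, fun _ _ => rfl⟩, not_mix_of (i := 0) (fun _ _ => rfl) (fun _ => rfl)⟩

/-- The transposition in block `i` is uncoded. -/
def u₁ (i : ℕ) : U := ⟨σ (i, 0), ⟨i + 1, fun t ht => σ_apply_of_ne (by simp only; omega)⟩,
  not_mix_of (i := i) (fun t ht => σ_apply_of_ne ht) (fun t => σ_fst _ t)⟩

lemma u₁_inj : Function.Injective u₁ := by
  intro i j h
  have h1 : σ (i, 0) = σ (j, 0) := congrArg Subtype.val h
  by_contra hne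
  have h2 : σ (i, 0) (i, 1) = σ (j, 0) (i, 1) := by rw [h1]
  rw [σ_apply_of_eq (x := (i, 0)) (t := (i, 1)) rfl, σ_apply_of_ne (x := (j, 0)) (t := (i, 1)) hne]
    at h2
  have h3 : (0 : Fin 3) + 0 - 1 = 1 := congrArg Prod.snd h2
  exact absurd h3 (by decide)

lemma u₁_ne (i : ℕ) : u₁ i ≠ u₀ := by
  intro h
  have h1 : σ (i, 0) = 1 := congrArg Subtype.val h
  have h2 : σ (i, 0) (i, 1) = (i, 1) := by rw [h1]; rfl
  rw [σ_apply_of_eq (x := (i, 0)) (t := (i, 1)) rfl] at h2
  have h3 : (0 : Fin 3) + 0 - 1 = 1 := congrArg Prod.snd h2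
  exact absurd h3 (by decide)

lemma exists_enum : ∃ e : ℕ ≃ U, ∀ j, ∀ t : A, j ≤ t.1 → (e j).1 t = t := by
  classical
  obtain ⟨e, he⟩ := greedy lev (by
    intro j s hs
    by_contra hc
    push Not at hc
    have h0 : u₀ ∈ s := by
      by_contra h
      have := hc u₀ h
      have h2 : lev u₀ ≤ 0 := lev_le (fun _ _ => rfl)
      omega
    have h1 : ∀ i < j, u₁ i ∈ s := by
      intro i hi
      by_contra h
      have := hc (u₁ i) h
      have h2 : lev (u₁ i) ≤ i + 1 := lev_le (fun t ht => σ_apply_of_ne (by simp only; omega))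
      omega
    have h2 : insert u₀ ((Finset.range j).map ⟨u₁, u₁_inj⟩) ⊆ s := by
      intro x hx
      rw [Finset.mem_insert, Finset.mem_map] at hx
      rcases hx with rfl | ⟨i, hi, rfl⟩
      · exact h0
      · exact h1 i (Finset.mem_range.1 hi)
    have h3 := Finset.card_le_card h2
    rw [Finset.card_insert_of_notMem, Finset.card_map, Finset.card_range] at h3
    · omega
    · rw [Finset.mem_map]
      rintro ⟨i, _, hi⟩
      exact u₁_ne i hi)
  exact ⟨e, fun j t ht => lev_spec (e j) t ((he j).trans ht)⟩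

/-- The enumeration of the uncoded permutations. -/
noncomputable def en : ℕ ≃ U := Classical.choose exists_enum

lemma en_spec (j : ℕ) (t : A) (h : j ≤ t.1) : (en j).1 t = t :=
  Classical.choose_spec exists_enum j t h

/-- Conjugation of uncoded permutations. -/
def conjU (g : Perm A) (β : Perm ℕ) (hg : Over g β) : U ≃ U where
  toFun h := ⟨g * h.1 * g⁻¹, h.2.1.conj hg, by
    rintro ⟨T, hT⟩
    have := hT.conj hg.inv
    have e : g⁻¹ * (g * h.1 * g⁻¹) * g⁻¹⁻¹ = h.1 := by group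
    rw [e] at this
    exact h.2.2 ⟨_, this⟩⟩
  invFun h := ⟨g⁻¹ * h.1 * g, by
    have := h.2.1.conj hg.inv
    rwa [inv_inv] at this, by
    rintro ⟨T, hT⟩
    have := hT.conj hg
    have e : g * (g⁻¹ * h.1 * g) * g⁻¹ = h.1 := by group
    rw [e] at this
    exact h.2.2 ⟨_, this⟩⟩
  left_inv h := Subtype.ext (by simp only; group)
  right_inv h := Subtype.ext (by simp only; group)

/-- The group. -/
def GG : Subgroup (Perm A) where
  carrier := {g | ∃ β : Perm ℕ, Over g β ∧ ∀ j, (en (β j)).1 = g * (en j).1 * g⁻¹}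
  mul_mem' := by
    rintro g h ⟨β, hg, h1⟩ ⟨δ, hh, h2⟩
    refine ⟨β * δ, hg.mul hh, fun j => ?_⟩
    rw [Perm.mul_apply, h1, h2]; group
  one_mem' := ⟨1, Over.one, fun j => by simp⟩
  inv_mem' := by
    rintro g ⟨β, hg, h1⟩
    refine ⟨β⁻¹, hg.inv, fun j => ?_⟩
    have := h1 (β⁻¹ j)
    have e : β (β⁻¹ j) = j := β.apply_symm_apply j
    rw [e] at this
    rw [this]; group

/-! ### The lifting property -/

lemma conj_agree {g g' h : Perm A} {j : ℕ} (h1 : ∀ t : A, j ≤ t.1 → h t = t)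
    (h2 : ∀ t : A, t.1 < j → g t = g' t) : g * h * g⁻¹ = g' * h * g'⁻¹ := by
  have hd : Perm.Disjoint (g'⁻¹ * g) h := by
    intro t
    by_cases ht : t.1 < j
    · left
      rw [Perm.mul_apply, h2 t ht, Perm.inv_eq_iff_eq]
    · right
      exact h1 t (by omega)
  have hc := hd.commute
  have hc' : g'⁻¹ * g * h = h * (g'⁻¹ * g) := hc
  have : g * h = g' * h * g'⁻¹ * g := by
    calc g * h = g' * (g'⁻¹ * g * h) := by group
      _ = g' * (h * (g'⁻¹ * g)) := by rw [hc']
      _ = g' * h * g'⁻¹ * g := by group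
  rw [this]; group

section lift

variable (k : ℕ) (ρ : Perm (Fin 3))

/-- Labels. -/
def lab (j : ℕ) : Perm (Fin 3) := if j = k then ρ else 1

/-- The permutation with given action on the blocks and labels. -/
def gl (β : Perm ℕ) : Perm A := Equiv.prodShear β (lab k ρ)

lemma gl_apply (β : Perm ℕ) (t : A) : gl k ρ β t = (β t.1, lab k ρ t.1 t.2) := rfl

lemma gl_over (β : Perm ℕ) : Over (gl k ρ β) β := fun _ => rfl

lemma gl_inv_apply (β : Perm ℕ) (t : A) :
    (gl k ρ β)⁻¹ t = (β⁻¹ t.1, (lab k ρ (β⁻¹ t.1))⁻¹ t.2) := by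
  rw [Perm.inv_eq_iff_eq, gl_apply]
  apply Prod.ext
  · exact (β.apply_symm_apply t.1).symm
  · exact ((lab k ρ (β⁻¹ t.1)).apply_symm_apply t.2).symm

/-- The contraction. -/
noncomputable def Φ (β : Perm ℕ) : Perm ℕ :=
  (en.trans (conjU (gl k ρ β) β (gl_over k ρ β))).trans en.symm

lemma en_Φ (β : Perm ℕ) (j : ℕ) :
    (en (Φ k ρ β j)).1 = gl k ρ β * (en j).1 * (gl k ρ β)⁻¹ := by
  simp [Φ, conjU]

lemma en_Φ_inv (β : Perm ℕ) (j : ℕ) :
    (en ((Φ k ρ β)⁻¹ j)).1 = (gl k ρ β)⁻¹ * (en j).1 * (gl k ρ β)⁻¹⁻¹ := by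
  have h := en_Φ k ρ β ((Φ k ρ β)⁻¹ j)
  have e : Φ k ρ β ((Φ k ρ β)⁻¹ j) = j := (Φ k ρ β).apply_symm_apply j
  rw [e] at h
  rw [h]; group

lemma en_inj {i j : ℕ} (h : (en i).1 = (en j).1) : i = j := en.injective (Subtype.ext h)

/-- The iterates. -/
noncomputable def bb : ℕ → Perm ℕ
  | 0 => 1
  | n + 1 => Φ k ρ (bb n)

lemma bb_agree (n : ℕ) : ∀ j < n, bb k ρ n j = bb k ρ (n + 1) j ∧
    (bb k ρ n)⁻¹ j = (bb k ρ (n + 1))⁻¹ j := by
  induction n with
  | zero => intro j hj; omega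
  | succ n ih =>
    intro j hj
    constructor
    · apply en_inj
      rw [bb, en_Φ]
      rw [bb, en_Φ]
      apply conj_agree (j := j) (en_spec j)
      intro t ht
      rw [gl_apply, gl_apply]
      have := (ih t.1 (by omega)).1
      rw [this]
    · apply en_inj
      rw [bb, en_Φ_inv]
      rw [bb, en_Φ_inv]
      apply conj_agree (j := j) (en_spec j)
      intro t ht
      rw [gl_inv_apply, gl_inv_apply]
      have := (ih t.1 (by omega)).2
      rw [this]

lemma bb_stable {n m : ℕ} (hnm : n ≤ m) : ∀ j < n, bb k ρ n j = bb k ρ m j ∧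
    (bb k ρ n)⁻¹ j = (bb k ρ m)⁻¹ j := by
  induction hnm with
  | refl => intro j _; exact ⟨rfl, rfl⟩
  | step h ih =>
    intro j hj
    have h1 := ih j hj
    have h2 := bb_agree k ρ _ j (lt_of_lt_of_le hj h)
    exact ⟨h1.1.trans h2.1, h1.2.trans h2.2⟩

/-- The limit. -/
noncomputable def bl : Perm ℕ where
  toFun j := bb k ρ (j + 1) j
  invFun j := (bb k ρ (j + 1))⁻¹ j
  left_inv := by
    intro j
    obtain ⟨i, hi⟩ : ∃ i, i = bb k ρ (j + 1) j := ⟨_, rfl⟩
    have h1 := (bb_stable k ρ (Nat.le_add_right (j + 1) i) j (by omega)).1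
    have h2 := (bb_stable k ρ (n := i + 1) (m := j + 1 + i) (by omega) i (by omega)).2
    have h3 : (bb k ρ (j + 1 + i))⁻¹ i = (bb k ρ (j + 1 + i))⁻¹ (bb k ρ (j + 1 + i) j) :=
      congrArg _ (hi.trans h1)
    simp only
    rw [← hi, h2, h3]
    exact (bb k ρ (j + 1 + i)).symm_apply_apply j
  right_inv := by
    intro j
    obtain ⟨i, hi⟩ : ∃ i, i = (bb k ρ (j + 1))⁻¹ j := ⟨_, rfl⟩
    have h1 := (bb_stable k ρ (Nat.le_add_right (j + 1) i) j (by omega)).2
    have h2 := (bb_stable k ρ (n := i + 1) (m := j + 1 + i) (by omega) i (by omega)).1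
    have h3 : (bb k ρ (j + 1 + i)) i = (bb k ρ (j + 1 + i)) ((bb k ρ (j + 1 + i))⁻¹ j) :=
      congrArg _ (hi.trans h1)
    simp only
    rw [← hi, h2, h3]
    exact (bb k ρ (j + 1 + i)).apply_symm_apply j

lemma bl_apply (j : ℕ) : bl k ρ j = bb k ρ (j + 1) j := rfl

lemma bb_fix (n : ℕ) : ∀ j ≤ k, bb k ρ n j = j := by
  induction n with
  | zero => intro j _; rfl
  | succ n ih =>
    intro j hj
    apply en_inj
    rw [bb, en_Φ]
    have : gl k ρ (bb k ρ n) * (en j).1 * (gl k ρ (bb k ρ n))⁻¹ = 1 * (en j).1 * 1⁻¹ := by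
      apply conj_agree (j := j) (en_spec j)
      intro t ht
      rw [gl_apply, ih t.1 (by omega)]
      have : lab k ρ t.1 = 1 := by
        unfold lab
        rw [if_neg (by omega)]
      rw [this]; rfl
    rw [this]; simp

lemma gl_mem : gl k ρ (bl k ρ) ∈ GG := by
  refine ⟨bl k ρ, gl_over _ _ _, fun j => ?_⟩
  rw [bl_apply, bb, en_Φ]
  apply conj_agree (j := j) (en_spec j)
  intro t ht
  rw [gl_apply, gl_apply, bl_apply]
  rw [(bb_stable k ρ (n := t.1 + 1) (m := j) (by omega) t.1 (by omega)).1]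

end lift

/-- The lifting property. -/
lemma exists_lift (k : ℕ) (ρ : Perm (Fin 3)) : ∃ g ∈ GG, (∀ t : A, t.1 < k → g t = t) ∧
    ∀ c, g (k, c) = (k, ρ c) := by
  refine ⟨gl k ρ (bl k ρ), gl_mem k ρ, ?_, ?_⟩
  · intro t ht
    rw [gl_apply, bl_apply, bb_fix k ρ _ _ (by omega)]
    have : lab k ρ t.1 = 1 := by
      unfold lab
      rw [if_neg (by omega)]
    rw [this]; rfl
  · intro c
    rw [gl_apply, bl_apply, bb_fix k ρ _ _ le_rfl]
    have : lab k ρ k = ρ := by
      unfold lab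
      rw [if_pos rfl]
    rw [this]

lemma central_aux {τ : Perm A} {m : ℕ}
    (h : ∀ g ∈ GG, (∀ t : A, t.1 < m → g t = t) → ∀ t, τ (g t) = g (τ t)) (t : A) (ht : m ≤ t.1)
    (hle : (τ t).1 ≤ t.1) : τ t = t := by
  obtain ⟨k, a⟩ := t
  simp only at ht hle
  rcases Nat.lt_or_eq_of_le hle with h1 | h1
  · exfalso
    obtain ⟨g, hg, hg1, hg2⟩ := exists_lift k (swap a (a + 1))
    have e1 := h g hg (fun t ht' => hg1 t (lt_of_lt_of_le ht' ht)) (k, a)
    rw [hg2, swap_apply_left, hg1 _ h1] at e1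
    have e2 := τ.injective e1
    exact fin3_ne a (congrArg Prod.snd e2)
  · by_contra hne
    have hc : (τ (k, a)).2 ≠ a := by
      intro h2
      exact hne (Prod.ext h1 h2)
    obtain ⟨g, hg, hg1, hg2⟩ := exists_lift k (swap (a + 1) (a + 2))
    have e1 := h g hg (fun t ht' => hg1 t (lt_of_lt_of_le ht' ht)) (k, a)
    have e0 : τ (k, a) = (k, (τ (k, a)).2) := Prod.ext h1 rfl
    rw [hg2, swap_apply_of_ne_of_ne (fin3_ne a).symm (fin3_ne2 a).symm] at e1
    rw [e0, hg2] at e1
    have e2 := congrArg Prod.snd e1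
    simp only at e2
    rcases fin3_cases _ _ hc with h3 | h3
    · rw [h3, swap_apply_left] at e2
      exact fin3_12 a e2
    · rw [h3, swap_apply_right] at e2
      exact fin3_12 a e2.symm

/-- A permutation commuting with the pointwise stabiliser of a finite set is finitary. -/
lemma central_fty {τ : Perm A} {m : ℕ}
    (h : ∀ g ∈ GG, (∀ t : A, t.1 < m → g t = t) → ∀ t, τ (g t) = g (τ t)) : Fty τ := by
  refine ⟨m, fun t ht => ?_⟩
  rcases le_total (τ t).1 t.1 with h1 | h1
  · exact central_aux h t ht h1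
  · have h' : ∀ g ∈ GG, (∀ t : A, t.1 < m → g t = t) → ∀ t, τ⁻¹ (g t) = g (τ⁻¹ t) := by
      intro g hg hg1 t
      rw [Perm.inv_eq_iff_eq, h g hg hg1]
      have e : τ (τ⁻¹ t) = t := τ.apply_symm_apply t
      rw [e]
    have e : τ⁻¹ (τ t) = t := τ.symm_apply_apply t
    have := central_aux h' (τ t) (ht.trans h1) (by rw [e]; exact h1)
    rw [e] at this
    exact this.symm

/-! ### The coding -/

/-- The coding relation between triples and finitary permutations. -/
def Code (T : Finset A) (h : Perm A) : Prop := (∃ j, T = blk j ∧ h = (en j).1) ∨ Mix T h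

lemma blk_inj {i j : ℕ} (h : blk i = blk j) : i = j := by
  have : ((i, 0) : A) ∈ blk j := by rw [← h, mem_blk]
  rw [mem_blk] at this
  exact this

lemma Code.fn {T : Finset A} {h h' : Perm A} (h1 : Code T h) (h2 : Code T h') : h = h' := by
  rcases h1 with ⟨j, rfl, rfl⟩ | h1
  · rcases h2 with ⟨j', h3, rfl⟩ | h2
    · rw [blk_inj h3]
    · exact h2.not_blk.elim
  · rcases h2 with ⟨j', rfl, rfl⟩ | h2
    · exact h1.not_blk.elim
    · exact h1.fn h2

lemma Code.inj {T T' : Finset A} {h : Perm A} (h1 : Code T h) (h2 : Code T' h) : T = T' := by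
  rcases h1 with ⟨j, rfl, rfl⟩ | h1
  · rcases h2 with ⟨j', rfl, h3⟩ | h2
    · rw [en_inj h3]
    · exact absurd ⟨_, h2⟩ (en j).2.2
  · rcases h2 with ⟨j', rfl, rfl⟩ | h2
    · exact absurd ⟨_, h1⟩ (en j').2.2
    · exact h1.inj h2

lemma Code.card {T : Finset A} {h : Perm A} (h1 : Code T h) : T.card = 3 := by
  rcases h1 with ⟨j, rfl, rfl⟩ | h1
  · exact card_blk j
  · exact h1.card

lemma Code.fty {T : Finset A} {h : Perm A} (h1 : Code T h) : Fty h := by
  rcases h1 with ⟨j, rfl, rfl⟩ | h1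
  · exact (en j).2.1
  · exact h1.fty

lemma exists_code_of_card {T : Finset A} (h : T.card = 3) : ∃ h, Code T h := by
  rcases exists_mix h with ⟨j, rfl⟩ | ⟨h, h1⟩
  · exact ⟨_, Or.inl ⟨j, rfl, rfl⟩⟩
  · exact ⟨h, Or.inr h1⟩

lemma exists_code_of_fty {h : Perm A} (hh : Fty h) : ∃ T, Code T h := by
  by_cases h1 : ∃ T, Mix T h
  · obtain ⟨T, hT⟩ := h1
    exact ⟨T, Or.inr hT⟩
  · refine ⟨blk (en.symm ⟨h, hh, h1⟩), Or.inl ⟨_, rfl, ?_⟩⟩
    simp

lemma Code.conj {T : Finset A} {h g : Perm A} (hg : g ∈ GG) (h1 : Code T h) :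
    Code (T.map g.toEmbedding) (g * h * g⁻¹) := by
  obtain ⟨β, hβ, hg2⟩ := hg
  rcases h1 with ⟨j, rfl, rfl⟩ | h1
  · left
    refine ⟨β j, ?_, (hg2 j).symm⟩
    ext u
    rw [Finset.mem_map_equiv, mem_blk, mem_blk]
    have : (g.symm u).1 = β⁻¹ u.1 := hβ.inv u
    rw [this, Perm.inv_eq_iff_eq]
  · right
    exact h1.conj hβ

end Pool.Agent.Helper93.Triples
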