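import Pool.Agent.Helper93.ZF.Cohen
import Pool.Agent.Helper93.ZF.SetDefs
import Pool.Agent.Helper93.ZF.Triples2

set_option autoImplicit false
set_option linter.unusedSectionVars false

/-!
# A model of ZF with a set `A` such that `Sym(A)` and `[A]^3` are in bijection
-/

namespace Pool.Agent.Helper93.ZF

open Name HSN SymSys Triples

section general

variable {P : Type} {Γ : Type} [PartialOrder P] [OrderTop P] [Group Γ] [MulAction Γ P]
  [SymSys P Γ] {f : ℕ → HSN P Γ} {G : Set P}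

lemma exists_opair_idx (hf : ClosedEnum f) (a b : ℕ) : ∃ n, f n = opairN (f a) (f b) := by
  obtain ⟨u, hu⟩ := hf.pair a a
  obtain ⟨v, hv⟩ := hf.pair a b
  obtain ⟨n, hn⟩ := hf.pair u v
  exact ⟨n, by rw [hn, hu, hv]; rfl⟩

lemma isOPair_mk (hf : ClosedEnum f) (hG : GenSet f G) {a b n : ℕ}
    (hn : f n = opairN (f a) (f b)) :
    IsOPair (Mod.E hG) (Mod.mk hG n) (Mod.mk hG a) (Mod.mk hG b) := by
  obtain ⟨u, hu⟩ := hf.pair a a
  obtain ⟨v, hv⟩ := hf.pair a b
  refine ⟨Mod.mk hG u, Mod.mk hG v, Mod.mk_pair_iff hG hu, Mod.mk_pair_iff hG hv, ?_⟩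
  apply Mod.mk_pair_iff hG
  rw [hn, hu, hv]; rfl

end general

variable {At : Type} {𝒢 : Subgroup (Equiv.Perm At)}

/-- A family all of whose translates stay in the family is symmetric. -/
lemma symFam_top {α : Type} (B : α → HSN (CP At) (LG 𝒢))
    (h : ∀ (g : LG 𝒢) (γ : Equiv.Perm At), γ ∈ 𝒢 → (∀ x, (g.1 x).1 = γ x.1) →
      ∀ a, ∃ b, ∀ p, eqv (g • B a) (B b) p) : SymFam (LG 𝒢) B := by
  refine ⟨⊤, SymSys.big_top, fun g _ a => ?_⟩
  obtain ⟨γ, hγ, h1⟩ := g.2
  exact h g γ hγ h1 a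

lemma symFam_atoms : SymFam (LG 𝒢) (fun m : At => atomN (𝒢 := 𝒢) m) :=
  symFam_top _ (fun g γ _ h1 m => ⟨γ m, fun p => smul_atomN g γ h1 m p⟩)

/-- The name of the set of all atoms. -/
def setN (𝒢 : Subgroup (Equiv.Perm At)) : HSN (CP At) (LG 𝒢) :=
  famN (fun m : At => atomN (𝒢 := 𝒢) m) symFam_atoms

lemma symFam_trip (T : Finset At) :
    SymFam (LG 𝒢) (fun t : {x // x ∈ T} => atomN (𝒢 := 𝒢) t.1) := by
  classical
  refine ⟨fixG (T.image (fun m => (m, 0))), big_fixG _, ?_⟩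
  intro g hg t
  obtain ⟨γ, _, hγ⟩ := g.2
  refine ⟨t, fun p => ?_⟩
  have h1 : γ t.1 = t.1 := by
    have h2 := hγ (t.1, 0)
    rw [hg (t.1, 0) (Finset.mem_image_of_mem _ t.2)] at h2
    exact h2.symm
  have := smul_atomN g γ hγ t.1 p
  rwa [h1] at this

/-- The name of the finite set of atoms `T`. -/
def tripN (T : Finset At) : HSN (CP At) (LG 𝒢) :=
  famN (fun t : {x // x ∈ T} => atomN (𝒢 := 𝒢) t.1) (symFam_trip T)

lemma smul_tripN (g : LG 𝒢) (γ : Equiv.Perm At) (hγ : ∀ x, (g.1 x).1 = γ x.1) (T : Finset At)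
    (p : CP At) : eqv (g • tripN (𝒢 := 𝒢) T) (tripN (T.map γ.toEmbedding)) p := by
  apply eqv_smul_famN
  · intro t
    exact ⟨⟨γ t.1, Finset.mem_map_of_mem γ.toEmbedding t.2⟩, fun q => smul_atomN g γ hγ t.1 q⟩
  · intro t
    have h1 : γ.symm t.1 ∈ T := by
      have := t.2
      rwa [Finset.mem_map_equiv] at this
    refine ⟨⟨γ.symm t.1, h1⟩, fun q => ?_⟩
    have := smul_atomN g γ hγ (γ.symm t.1) q
    rwa [Equiv.apply_symm_apply] at this

/-! ### Permutations -/

/-- The blocks below `n`, as a finite set. -/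
def lowA (n : ℕ) : Finset A := Finset.range n ×ˢ Finset.univ

lemma mem_lowA {n : ℕ} {t : A} : t ∈ lowA n ↔ t.1 < n := by simp [lowA]

lemma symFam_perm (h : Equiv.Perm A) (hh : Fty h) :
    SymFam (LG GG) (fun m : A => opairN (atomN (𝒢 := GG) m) (atomN (h m))) := by
  classical
  obtain ⟨n, hn⟩ := hh
  refine ⟨fixG ((lowA n).image (fun m => (m, 0))), big_fixG _, ?_⟩
  intro g hg m
  obtain ⟨γ, _, hγ⟩ := g.2
  refine ⟨γ m, fun p => ?_⟩
  have h1 : ∀ t : A, t.1 < n → γ t = t := by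
    intro t ht
    have h2 := hγ (t, 0)
    rw [hg (t, 0) (Finset.mem_image_of_mem _ (mem_lowA.2 ht))] at h2
    exact h2.symm
  have hd : Equiv.Perm.Disjoint γ h := by
    intro t
    by_cases ht : t.1 < n
    · exact Or.inl (h1 t ht)
    · exact Or.inr (hn t (by omega))
  have hc : γ (h m) = h (γ m) := by
    have := hd.commute
    have h2 : γ * h = h * γ := this
    calc γ (h m) = (γ * h) m := rfl
      _ = (h * γ) m := by rw [h2]
      _ = h (γ m) := rfl
  refine eqv_trans (smul_opairN g _ _ p) (opairN_congr (smul_atomN g γ hγ m p) ?_)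
  have := smul_atomN g γ hγ (h m) p
  rwa [hc] at this

/-- The name of the permutation of the set of atoms induced by `h`. -/
def permN (h : {h : Equiv.Perm A // Fty h}) : HSN (CP A) (LG GG) :=
  famN (fun m : A => opairN (atomN (𝒢 := GG) m) (atomN (h.1 m))) (symFam_perm h.1 h.2)

/-- Conjugate of a finitary permutation by an element of the group. -/
def conjF (γ : Equiv.Perm A) (hγ : γ ∈ GG) (h : {h : Equiv.Perm A // Fty h}) :
    {h : Equiv.Perm A // Fty h} :=
  ⟨γ * h.1 * γ⁻¹, by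
    obtain ⟨β, hβ, _⟩ := hγ
    exact h.2.conj hβ⟩

lemma smul_permN (g : LG GG) (γ : Equiv.Perm A) (hγG : γ ∈ GG) (hγ : ∀ x, (g.1 x).1 = γ x.1)
    (h : {h : Equiv.Perm A // Fty h}) (p : CP A) :
    eqv (g • permN h) (permN (conjF γ hγG h)) p := by
  have key : ∀ m q, eqv (g • opairN (atomN (𝒢 := GG) m) (atomN (h.1 m)))
      (opairN (atomN (γ m)) (atomN ((conjF γ hγG h).1 (γ m)))) q := by
    intro m q
    refine eqv_trans (smul_opairN g _ _ q) (opairN_congr (smul_atomN g γ hγ m q) ?_)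
    have h1 : (conjF γ hγG h).1 (γ m) = γ (h.1 m) := by
      change (γ * h.1 * γ⁻¹) (γ m) = γ (h.1 m)
      rw [Equiv.Perm.mul_apply, Equiv.Perm.mul_apply]
      have : γ⁻¹ (γ m) = m := γ.symm_apply_apply m
      rw [this]
    rw [h1]
    exact smul_atomN g γ hγ (h.1 m) q
  apply eqv_smul_famN
  · intro m
    exact ⟨γ m, fun q => key m q⟩
  · intro m
    refine ⟨γ.symm m, fun q => ?_⟩
    have := key (γ.symm m) q
    rwa [Equiv.apply_symm_apply] at this

/-- The name of the set of all permutations. -/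
def symN : HSN (CP A) (LG GG) :=
  famN permN (symFam_top _ (fun g γ hγ h1 h => ⟨conjF γ hγ h, fun p => smul_permN g γ hγ h1 h p⟩))

/-- The name of the set of all three-element sets. -/
def trisN : HSN (CP A) (LG GG) :=
  famN (fun T : {T : Finset A // T.card = 3} => tripN T.1)
    (symFam_top _ (fun g γ _ h1 T => ⟨⟨T.1.map γ.toEmbedding, by rw [Finset.card_map]; exact T.2⟩,
      fun p => smul_tripN g γ h1 T.1 p⟩))

/-- The index type of the bijection. -/
abbrev CodeIdx : Type := {c : {h : Equiv.Perm A // Fty h} × Finset A // Code c.2 c.1.1}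

/-- The name of the bijection. -/
def bijN : HSN (CP A) (LG GG) :=
  famN (fun c : CodeIdx => opairN (permN c.1.1) (tripN c.1.2))
    (symFam_top _ (fun g γ hγ h1 c => ⟨⟨(conjF γ hγ c.1.1, c.1.2.map γ.toEmbedding),
      Code.conj hγ c.2⟩, fun p => eqv_trans (smul_opairN g _ _ p)
        (opairN_congr (smul_permN g γ hγ h1 _ p) (smul_tripN g γ h1 _ p))⟩))

/-- The index type of the constants. -/
abbrev KIdx : Type := A ⊕ {h : Equiv.Perm A // Fty h} ⊕ Finset A ⊕ Fin 4

/-- The constants. -/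
def constN : KIdx → HSN (CP A) (LG GG)
  | .inl m => atomN m
  | .inr (.inl h) => permN h
  | .inr (.inr (.inl T)) => tripN T
  | .inr (.inr (.inr i)) => if i = 0 then setN GG else if i = 1 then symN else
      if i = 2 then trisN else bijN

/-- There is a countable well-founded model of ZF with a set `A` such that `Sym(A)` and `[A]^3`
are in bijection. -/
theorem factorial_model : ∃ (M : Type) (E : M → M → Prop), ZFModel E ∧ WellFounded E ∧
    Countable M ∧ ∃ a s t F : M, (∀ g, E g s ↔ IsBij E g a a) ∧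
      (∀ u, E u t ↔ IsThreeSubset E u a) ∧ IsBij E F s t := by
  classical
  obtain ⟨f, hf, hfc⟩ := exists_closedEnum constN
  obtain ⟨G, _, hG, hD⟩ := exists_genSet hf (DHom (At := A) GG) DHom_dense ⊤
  choose ia hia using fun m : A => hfc (.inl m)
  choose ip hip using fun h : {h : Equiv.Perm A // Fty h} => hfc (.inr (.inl h))
  choose it hit using fun T : Finset A => hfc (.inr (.inr (.inl T)))
  obtain ⟨iA, hiA⟩ := hfc (.inr (.inr (.inr 0)))
  obtain ⟨iS, hiS⟩ := hfc (.inr (.inr (.inr 1)))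
  obtain ⟨iT, hiT⟩ := hfc (.inr (.inr (.inr 2)))
  obtain ⟨iF, hiF⟩ := hfc (.inr (.inr (.inr 3)))
  replace hia : ∀ m, f (ia m) = atomN m := hia
  replace hip : ∀ h, f (ip h) = permN h := hip
  replace hit : ∀ T, f (it T) = tripN T := hit
  replace hiA : f iA = setN GG := hiA
  replace hiS : f iS = symN := hiS
  replace hiT : f iT = trisN := hiT
  replace hiF : f iF = bijN := hiF
  have hZF := Mod.zf hf hG
  have hext := hZF.extensionality
  let E := Mod.E hG
  let a : A → Mod hG := fun m => Mod.mk hG (ia m)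
  let pm : {h : Equiv.Perm A // Fty h} → Mod hG := fun h => Mod.mk hG (ip h)
  let tr : Finset A → Mod hG := fun T => Mod.mk hG (it T)
  -- indices of pairs of atoms
  choose io hio using fun t : A × A => exists_opair_idx hf (ia t.1) (ia t.2)
  have hio' : ∀ t : A × A, f (io t) = opairN (atomN t.1) (atomN t.2) := by
    intro t; rw [hio, hia, hia]
  have hpair : ∀ t : A × A, IsOPair E (Mod.mk hG (io t)) (a t.1) (a t.2) :=
    fun t => isOPair_mk hf hG (hio t)
  choose iq hiq using fun c : CodeIdx => exists_opair_idx hf (ip c.1.1) (it c.1.2)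
  have hiq' : ∀ c : CodeIdx, f (iq c) = opairN (permN c.1.1) (tripN c.1.2) := by
    intro t; rw [hiq, hip, hit]
  have hpairq : ∀ c : CodeIdx, IsOPair E (Mod.mk hG (iq c)) (pm c.1.1) (tr c.1.2) :=
    fun t => isOPair_mk hf hG (hiq t)
  -- basic facts
  have ha_inj : ∀ m m', a m = a m' → m = m' := by
    intro m m' h
    by_contra hne
    obtain ⟨p, _, h2⟩ := Mod.mk_eq_iff.1 h
    rw [hia, hia] at h2
    exact atomN_ne hne p h2
  have hA : ∀ z, E z (Mod.mk hG iA) ↔ ∃ m, z = a m := fun z => Mod.mk_fam_iff hG hiA hia z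
  have hT : ∀ T z, E z (tr T) ↔ ∃ m ∈ T, z = a m := by
    intro T z
    rw [show E z (tr T) ↔ _ from Mod.mk_fam_iff (ι := fun t : {x // x ∈ T} => ia t.1) hG (hit T)
      (fun t => hia t.1) z]
    constructor
    · rintro ⟨t, ht⟩; exact ⟨t.1, t.2, ht⟩
    · rintro ⟨m, hm, h⟩; exact ⟨⟨m, hm⟩, h⟩
  have hP : ∀ h z, E z (pm h) ↔ ∃ m, z = Mod.mk hG (io (m, h.1 m)) := by
    intro h z
    exact Mod.mk_fam_iff (ι := fun m : A => io (m, h.1 m)) hG (hip h) (fun m => hio' _) z
  have hS : ∀ z, E z (Mod.mk hG iS) ↔ ∃ h, z = pm h := fun z => Mod.mk_fam_iff hG hiS hip z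
  have hTT : ∀ z, E z (Mod.mk hG iT) ↔ ∃ T : {T : Finset A // T.card = 3}, z = tr T.1 :=
    fun z => Mod.mk_fam_iff (ι := fun T : {T : Finset A // T.card = 3} => it T.1) hG hiT
      (fun T => hit T.1) z
  have hF : ∀ z, E z (Mod.mk hG iF) ↔ ∃ c : CodeIdx, z = Mod.mk hG (iq c) :=
    fun z => Mod.mk_fam_iff hG hiF hiq' z
  -- ordered pairs of atoms
  have hop : ∀ z m m', IsOPair E z (a m) (a m') ↔ z = Mod.mk hG (io (m, m')) := by
    intro z m m'
    constructor
    · intro h; exact opair_unique hext h (hpair (m, m'))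
    · rintro rfl; exact hpair (m, m')
  have hmem : ∀ (h : {h : Equiv.Perm A // Fty h}) (m : A) (y : Mod hG),
      (∃ p, E p (pm h) ∧ IsOPair E p (a m) y) ↔ y = a (h.1 m) := by
    intro h m y
    constructor
    · rintro ⟨p, hp, hp2⟩
      obtain ⟨m', rfl⟩ := (hP h p).1 hp
      obtain ⟨h1, h2⟩ := opair_inj hp2 (hpair (m', h.1 m'))
      have := ha_inj _ _ h1
      subst this
      exact h2
    · rintro rfl
      exact ⟨_, (hP h _).2 ⟨m, rfl⟩, hpair (m, h.1 m)⟩
  have hmem' : ∀ (h : {h : Equiv.Perm A // Fty h}) (m : A) (x : Mod hG),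
      (∃ p, E p (pm h) ∧ IsOPair E p x (a m)) ↔ x = a (h.1.symm m) := by
    intro h m x
    constructor
    · rintro ⟨p, hp, hp2⟩
      obtain ⟨m', rfl⟩ := (hP h p).1 hp
      obtain ⟨h1, h2⟩ := opair_inj hp2 (hpair (m', h.1 m'))
      have := ha_inj _ _ h2
      subst this
      rw [h1]
      simp
    · rintro rfl
      refine ⟨_, (hP h _).2 ⟨h.1.symm m, rfl⟩, ?_⟩
      have := hpair (h.1.symm m, h.1 (h.1.symm m))
      simpa using this
  -- injectivity of pm and tr
  have hpm_inj : ∀ h h', pm h = pm h' → h = h' := by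
    intro h h' heq
    apply Subtype.ext
    ext1 m
    have h1 := (hmem h m (a (h.1 m))).2 rfl
    rw [heq] at h1
    exact ha_inj _ _ ((hmem h' m _).1 h1)
  have htr_inj : ∀ T T', tr T = tr T' → T = T' := by
    intro T T' heq
    ext m
    have h1 := hT T (a m)
    have h2 := hT T' (a m)
    rw [heq] at h1
    constructor
    · intro hm
      obtain ⟨m', hm', h3⟩ := h2.1 (h1.2 ⟨m, hm, rfl⟩)
      rw [ha_inj _ _ h3]; exact hm'
    · intro hm
      obtain ⟨m', hm', h3⟩ := h1.1 (h2.2 ⟨m, hm, rfl⟩)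
      rw [ha_inj _ _ h3]; exact hm'
  -- permutations in the model
  have hbij : ∀ g, IsBij E g (Mod.mk hG iA) (Mod.mk hG iA) ↔ ∃ h, g = pm h := by
    intro g
    constructor
    · rintro ⟨h1, h2, h3⟩
      have ex1 : ∀ m, ∃ m', (∃ p, E p g ∧ IsOPair E p (a m) (a m')) := by
        intro m
        obtain ⟨y, ⟨p, hp, hp2⟩, _⟩ := h2 (a m) ((hA _).2 ⟨m, rfl⟩)
        obtain ⟨x', y', _, hy', hp3⟩ := h1 p hp
        obtain ⟨e1, e2⟩ := opair_inj hp2 hp3
        obtain ⟨m', rfl⟩ := (hA _).1 hy'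
        exact ⟨m', p, hp, by rw [← e2]; exact hp2⟩
      have ex2 : ∀ m', ∃ m, (∃ p, E p g ∧ IsOPair E p (a m) (a m')) := by
        intro m'
        obtain ⟨x, ⟨p, hp, hp2⟩, _⟩ := h3 (a m') ((hA _).2 ⟨m', rfl⟩)
        obtain ⟨x', y', hx', _, hp3⟩ := h1 p hp
        obtain ⟨e1, e2⟩ := opair_inj hp2 hp3
        obtain ⟨m, rfl⟩ := (hA _).1 hx'
        exact ⟨m, p, hp, by rw [← e1]; exact hp2⟩
      have un1 : ∀ m m' m'', (∃ p, E p g ∧ IsOPair E p (a m) (a m')) →
          (∃ p, E p g ∧ IsOPair E p (a m) (a m'')) → m' = m'' := by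
        intro m m' m'' g1 g2
        exact ha_inj _ _ ((h2 (a m) ((hA _).2 ⟨m, rfl⟩)).unique g1 g2)
      have un2 : ∀ m m' m'', (∃ p, E p g ∧ IsOPair E p (a m') (a m)) →
          (∃ p, E p g ∧ IsOPair E p (a m'') (a m)) → m' = m'' := by
        intro m m' m'' g1 g2
        exact ha_inj _ _ ((h3 (a m) ((hA _).2 ⟨m, rfl⟩)).unique g1 g2)
      choose t1 ht1 using ex1
      choose t2 ht2 using ex2
      let τ : Equiv.Perm A :=
        { toFun := t1
          invFun := t2
          left_inv := fun m => un2 _ _ _ (ht2 (t1 m)) (ht1 m)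
          right_inv := fun m => un1 _ _ _ (ht1 (t2 m)) (ht2 m) }
      have hτ : ∀ m m', (∃ p, E p g ∧ IsOPair E p (a m) (a m')) ↔ τ m = m' := by
        intro m m'
        constructor
        · intro h; exact un1 _ _ _ (ht1 m) h
        · rintro rfl; exact ht1 m
      have hτ' : ∀ m m', E (Mod.mk hG (io (m, m'))) g ↔ τ m = m' := by
        intro m m'
        rw [← hτ]
        constructor
        · intro h; exact ⟨_, h, hpair (m, m')⟩
        · rintro ⟨p, hp, hp2⟩
          rw [(hop p m m').1 hp2] at hp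
          exact hp
      -- the support
      obtain ⟨ig, rfl⟩ := Mod.exists_rep g
      obtain ⟨K, ⟨e, he⟩, hK⟩ := exists_fixedBy (f ig)
      have hKe : FixedBy (fixG e) (f ig) := hK.mono (fun g hg => he g hg)
      have hfty : Fty τ := by
        apply central_fty (m := e.sup (fun i => i.1.1) + 1)
        intro γ hγ hγ1 t
        have h4 : E (Mod.mk hG (io (t, τ t))) (Mod.mk hG ig) := (hτ' t (τ t)).2 rfl
        have h5 : E (Mod.mk hG (io (γ t, γ (τ t)))) (Mod.mk hG ig) := by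
          refine invariance hG hD hKe [(t, γ t), (τ t, γ (τ t))] ?_ ?_ h4
          · refine ⟨γ, hγ, ?_, ?_⟩
            · intro i hi
              apply hγ1
              exact Nat.lt_succ_of_le (Finset.le_sup (f := fun i : CI A => i.1.1) hi)
            · intro u hu
              simp only [List.mem_cons, List.not_mem_nil, or_false] at hu
              rcases hu with rfl | rfl <;> rfl
          · rintro g' ⟨δ, hδ, hδ1, hδ2⟩ p
            rw [hio', hio']
            have e1 : δ t = γ t := hδ2 (t, γ t) (by simp)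
            have e2 : δ (τ t) = γ (τ t) := hδ2 (τ t, γ (τ t)) (by simp)
            refine eqv_trans (smul_opairN g' _ _ p) (opairN_congr ?_ ?_)
            · have := smul_atomN g' δ hδ1 t p
              rwa [e1] at this
            · have := smul_atomN g' δ hδ1 (τ t) p
              rwa [e2] at this
        exact (hτ' _ _).1 h5
      refine ⟨⟨τ, hfty⟩, ?_⟩
      apply hext
      intro z
      change E z (Mod.mk hG ig) ↔ E z (pm ⟨τ, hfty⟩)
      rw [hP]
      constructor
      · intro hz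
        obtain ⟨x, y, hx, hy, hxy⟩ := h1 z hz
        obtain ⟨m, rfl⟩ := (hA _).1 hx
        obtain ⟨m', rfl⟩ := (hA _).1 hy
        refine ⟨m, ?_⟩
        have := (hτ m m').1 ⟨z, hz, hxy⟩
        rw [this]
        exact (hop z m m').1 hxy
      · rintro ⟨m, rfl⟩
        exact (hτ' m (τ m)).2 rfl
    · rintro ⟨h, rfl⟩
      refine ⟨?_, ?_, ?_⟩
      · intro p hp
        obtain ⟨m, rfl⟩ := (hP h p).1 hp
        exact ⟨a m, a (h.1 m), (hA _).2 ⟨_, rfl⟩, (hA _).2 ⟨_, rfl⟩, hpair (m, h.1 m)⟩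
      · intro x hx
        obtain ⟨m, rfl⟩ := (hA _).1 hx
        exact ⟨a (h.1 m), (hmem h m _).2 rfl, fun y hy => (hmem h m y).1 hy⟩
      · intro y hy
        obtain ⟨m, rfl⟩ := (hA _).1 hy
        exact ⟨a (h.1.symm m), (hmem' h m _).2 rfl, fun x hx => (hmem' h m x).1 hx⟩
  -- three-element subsets in the model
  have hthree : ∀ u, IsThreeSubset E u (Mod.mk hG iA) ↔
      ∃ T : {T : Finset A // T.card = 3}, u = tr T.1 := by
    intro u
    constructor
    · rintro ⟨x, y, z, hxy, hxz, hyz, hx, hy, hz, hu⟩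
      obtain ⟨m1, rfl⟩ := (hA _).1 hx
      obtain ⟨m2, rfl⟩ := (hA _).1 hy
      obtain ⟨m3, rfl⟩ := (hA _).1 hz
      have hc : ({m1, m2, m3} : Finset A).card = 3 :=
        Finset.card_eq_three.2 ⟨m1, m2, m3, fun h => hxy (by rw [h]), fun h => hxz (by rw [h]),
          fun h => hyz (by rw [h]), rfl⟩
      refine ⟨⟨_, hc⟩, ?_⟩
      apply hext
      intro w
      change E w u ↔ E w (tr {m1, m2, m3})
      rw [hu, hT]
      simp only [Finset.mem_insert, Finset.mem_singleton]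
      constructor
      · rintro (h | h | h)
        · exact ⟨m1, by simp, h⟩
        · exact ⟨m2, by simp, h⟩
        · exact ⟨m3, by simp, h⟩
      · rintro ⟨m, (h | h | h), h'⟩
        · left; rw [h', h]
        · right; left; rw [h', h]
        · right; right; rw [h', h]
    · rintro ⟨T, rfl⟩
      obtain ⟨m1, m2, m3, h12, h13, h23, hTe⟩ := Finset.card_eq_three.1 T.2
      refine ⟨a m1, a m2, a m3, fun h => h12 (ha_inj _ _ h), fun h => h13 (ha_inj _ _ h),
        fun h => h23 (ha_inj _ _ h), (hA _).2 ⟨_, rfl⟩, (hA _).2 ⟨_, rfl⟩, (hA _).2 ⟨_, rfl⟩, ?_⟩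
      intro w
      rw [hT, hTe]
      simp only [Finset.mem_insert, Finset.mem_singleton]
      constructor
      · rintro ⟨m, (h | h | h), h'⟩
        · left; rw [h', h]
        · right; left; rw [h', h]
        · right; right; rw [h', h]
      · rintro (h | h | h)
        · exact ⟨m1, by simp, h⟩
        · exact ⟨m2, by simp, h⟩
        · exact ⟨m3, by simp, h⟩
  refine ⟨Mod hG, E, hZF, Mod.wf hG, ?_, Mod.mk hG iA, Mod.mk hG iS, Mod.mk hG iT, Mod.mk hG iF,
    ?_, ?_, ?_⟩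
  · have hsur : Function.Surjective (Mod.mk hG) := fun x => Mod.exists_rep x
    exact hsur.countable
  · intro g
    rw [hS, hbij]
  · intro u
    rw [hTT, hthree]
  · refine ⟨?_, ?_, ?_⟩
    · intro p hp
      obtain ⟨c, rfl⟩ := (hF p).1 hp
      exact ⟨pm c.1.1, tr c.1.2, (hS _).2 ⟨_, rfl⟩, (hTT _).2 ⟨⟨c.1.2, c.2.card⟩, rfl⟩, hpairq c⟩
    · intro x hx
      obtain ⟨h, rfl⟩ := (hS x).1 hx
      obtain ⟨T, hTc⟩ := exists_code_of_fty h.2
      refine ⟨tr T, ⟨_, (hF _).2 ⟨⟨(h, T), hTc⟩, rfl⟩, hpairq ⟨(h, T), hTc⟩⟩, ?_⟩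
      rintro y ⟨p, hp, hp2⟩
      obtain ⟨c, rfl⟩ := (hF p).1 hp
      obtain ⟨e1, e2⟩ := opair_inj hp2 (hpairq c)
      have e3 := hpm_inj _ _ e1
      rw [e2]
      have e4 : c.1.2 = T := by
        have h5 := c.2
        rw [← e3] at h5
        exact h5.inj hTc
      rw [e4]
    · intro y hy
      obtain ⟨T, rfl⟩ := (hTT y).1 hy
      obtain ⟨h, hTc⟩ := exists_code_of_card T.2
      refine ⟨pm ⟨h, hTc.fty⟩, ⟨_, (hF _).2 ⟨⟨(⟨h, hTc.fty⟩, T.1), hTc⟩, rfl⟩,
        hpairq ⟨(⟨h, hTc.fty⟩, T.1), hTc⟩⟩, ?_⟩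
      rintro x ⟨p, hp, hp2⟩
      obtain ⟨c, rfl⟩ := (hF p).1 hp
      obtain ⟨e1, e2⟩ := opair_inj hp2 (hpairq c)
      have e3 := htr_inj _ _ e2
      rw [e1]
      have e4 : c.1.1 = ⟨h, hTc.fty⟩ := by
        have h5 := c.2
        rw [← e3] at h5
        exact Subtype.ext (h5.fn hTc)
      rw [e4]

end Pool.Agent.Helper93.ZF
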