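import Pool.Agent.Helper93.ZF.SetDefs

set_option autoImplicit false

/-!
# Finiteness and filterbases inside a structure `(M, E)`
-/

namespace Pool.Agent.Helper93.ZF

variable {M : Type*} (E : M → M → Prop)

/-- In `(M, E)`: `s = y ∪ {y}`. -/
def IsSucc (s y : M) : Prop := ∀ z, E z s ↔ (E z y ∨ z = y)

/-- In `(M, E)`: `w` contains the empty set and is closed under successors. -/
def IsInductive (w : M) : Prop :=
  (∃ e, (∀ z, ¬ E z e) ∧ E e w) ∧ ∀ y, E y w → ∃ s, IsSucc E s y ∧ E s w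

/-- In `(M, E)`: `w = ω` is the least inductive set. -/
def IsOmega (w : M) : Prop := IsInductive E w ∧ ∀ w', IsInductive E w' → ∀ z, E z w → E z w'

/-- In `(M, E)`: `x` is finite, i.e. equipotent to some `n ∈ ω`. -/
def IsFin (x : M) : Prop := ∃ w n f, IsOmega E w ∧ E n w ∧ IsBij E f x n

/-- In `(M, E)`: `⟨i, V⟩ ∈ F`. -/
def App (F i V : M) : Prop := ∃ p, E p F ∧ IsOPair E p i V

/-- In `(M, E)`: `F` is a function with domain `w`. -/
def IsFun (F w : M) : Prop :=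
  (∀ p, E p F → ∃ i V, E i w ∧ IsOPair E p i V) ∧ ∀ i, E i w → ∃! V, App E F i V

/-- In `(M, E)`: `V` is a filterbase in `A`. -/
def IsFilterbase (A V : M) : Prop :=
  (∃ U, E U V) ∧ (∀ U, E U V → (∃ z, E z U) ∧ ∀ z, E z U → E z A) ∧
  ∀ U U', E U V → E U' V → ∃ W, E W V ∧ ∀ z, E z W → E z U ∧ E z U'

/-- In `(M, E)`: the intersection of `V` is empty. -/
def IsFree (V : M) : Prop := ∀ z, ¬ ∀ U, E U V → E z U

/-- In `(M, E)`: the set `A` is filterbase infinite. -/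
def FilterbaseInfinite (A : M) : Prop :=
  ∃ w F, IsOmega E w ∧ IsFun E F w ∧
    (∀ i V, App E F i V → IsFilterbase E A V ∧ IsFree E V) ∧
    ∀ i j V W, i ≠ j → App E F i V → App E F j W →
      ∃ U U', E U V ∧ E U' W ∧ ∀ z, ¬ (E z U ∧ E z U')

/-- In `(M, E)`: the set `A` is strongly filterbase infinite. -/
def StronglyFilterbaseInfinite (A : M) : Prop :=
  ∃ w F, IsOmega E w ∧ IsFun E F w ∧
    (∀ i V, App E F i V → IsFilterbase E A V ∧
      (∀ U U', E U V → E U' V → (∃ W, E W V ∧ ∀ z, E z W ↔ (E z U ∨ E z U')) ∧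
        (∃ W, E W V ∧ ∀ z, E z W ↔ (E z U ∧ E z U'))) ∧
      (∀ U, E U V → ¬ IsFin E U) ∧
      (∀ U U', E U V → E U' V → ∀ d, (∀ z, E z d ↔ (E z U ∧ ¬ E z U')) → IsFin E d)) ∧
    (∀ i j V W, i ≠ j → App E F i V → App E F j W →
      ∃ U U', E U V ∧ E U' W ∧ ∀ d, (∀ z, E z d ↔ (E z U ∧ E z U')) → IsFin E d) ∧
    (∀ n c, E n w → IsFun E c n → (∀ i U V, App E c i U → App E F i V → E U V) →
      ∀ d, (∀ z, E z d ↔ (E z A ∧ ∀ i U, App E c i U → ¬ E z U)) → ¬ IsFin E d)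

end Pool.Agent.Helper93.ZF
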