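import Pool.Agent.Helper93.ZF.Finiteness
import Pool.Agent.Helper93.ZF.Colour

set_option autoImplicit false
set_option linter.unusedSectionVars false

/-!
# A model of ZF with a filterbase infinite but strongly filterbase finite set
-/

namespace Pool.Agent.Helper93.ZF

open Name HSN SymSys Colour

/-! ### Deep formulas -/

namespace Fml

/-- Disjunction. -/
def or (φ ψ : Fml) : Fml := Fml.imp φ.neg ψ

/-- `a = {b, c}`, with auxiliary variable `z`. -/
def upair (a b c z : ℕ) : Fml :=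
  Fml.all z ((Fml.imp (Fml.mem z a) ((Fml.eq z b).or (Fml.eq z c))).and
    (Fml.imp ((Fml.eq z b).or (Fml.eq z c)) (Fml.mem z a)))

/-- `a = ⟨b, c⟩`, with auxiliary variables `u`, `w`, `z`. -/
def opair (a b c u w z : ℕ) : Fml :=
  Fml.ex u (Fml.ex w ((Fml.upair u b b z).and ((Fml.upair w b c z).and (Fml.upair a u w z))))

/-- `∃ V, ⟨x₀, V⟩ ∈ x₂ ∧ x₁ ∈ V`. -/
def appMem : Fml :=
  Fml.ex 3 ((Fml.ex 4 ((Fml.mem 4 2).and (Fml.opair 4 0 3 5 6 7))).and (Fml.mem 1 3))

end Fml

section sat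

variable {M : Type*} (E : M → M → Prop)

@[simp] lemma sat_or (φ ψ : Fml) (v : ℕ → M) :
    Sat E (φ.or ψ) v ↔ (Sat E φ v ∨ Sat E ψ v) := by
  rw [Fml.or, sat_imp, sat_neg]; tauto

lemma sat_upair {a b c z : ℕ} (ha : a ≠ z) (hb : b ≠ z) (hc : c ≠ z) (v : ℕ → M) :
    Sat E (Fml.upair a b c z) v ↔ IsUPair E (v a) (v b) (v c) := by
  rw [Fml.upair, sat_all]
  apply forall_congr'
  intro x
  rw [sat_and, sat_imp, sat_imp, sat_or, sat_mem, sat_eq, sat_eq, Function.update_self,
    Function.update_of_ne ha, Function.update_of_ne hb, Function.update_of_ne hc]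
  constructor
  · rintro ⟨h1, h2⟩; exact ⟨h1, h2⟩
  · rintro ⟨h1, h2⟩; exact ⟨h1, h2⟩

lemma sat_opair {a b c u w z : ℕ} (hau : a ≠ u) (haw : a ≠ w) (haz : a ≠ z) (hbu : b ≠ u)
    (hbw : b ≠ w) (hbz : b ≠ z) (hcu : c ≠ u) (hcw : c ≠ w) (hcz : c ≠ z) (huw : u ≠ w)
    (huz : u ≠ z) (hwz : w ≠ z) (v : ℕ → M) :
    Sat E (Fml.opair a b c u w z) v ↔ IsOPair E (v a) (v b) (v c) := by
  rw [Fml.opair, sat_ex]
  apply exists_congr
  intro x
  rw [sat_ex]
  apply exists_congr
  intro y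
  rw [sat_and, sat_and, sat_upair E huz hbz hbz, sat_upair E hwz hbz hcz, sat_upair E haz huz hwz]
  rw [Function.update_self, Function.update_of_ne huw, Function.update_self,
    Function.update_of_ne hbw, Function.update_of_ne hbu, Function.update_of_ne hcw,
    Function.update_of_ne hcu, Function.update_of_ne haw, Function.update_of_ne hau]

lemma sat_appMem (v : ℕ → M) :
    Sat E Fml.appMem v ↔ ∃ V, App E (v 2) (v 0) V ∧ E (v 1) V := by
  rw [Fml.appMem, sat_ex]
  apply exists_congr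
  intro V
  rw [sat_and, sat_ex, sat_mem]
  apply and_congr
  · apply exists_congr
    intro p
    rw [sat_and, sat_mem, sat_opair E (by norm_num) (by norm_num) (by norm_num) (by norm_num)
      (by norm_num) (by norm_num) (by norm_num) (by norm_num) (by norm_num) (by norm_num)
      (by norm_num) (by norm_num)]
    simp [Function.update_of_ne]
  · simp

end sat

/-! ### Codes -/

/-- Codes of definable sets. -/
abbrev Cd : Type := Finset ℕ × Finset ℕ × Finset (Finset (Finset ℕ))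

/-- The elements occurring in a code. -/
def suppC (c : Cd) : Finset ℕ := c.1 ∪ c.2.1 ∪ c.2.2.biUnion (fun t => t.biUnion id)

lemma smulC_congr {g g' : Equiv.Perm ℕ} {c : Cd} (h : ∀ x ∈ suppC c, g x = g' x) :
    smulC g c = smulC g' c := by
  have key : ∀ S : Finset ℕ, S ⊆ suppC c → S.map g.toEmbedding = S.map g'.toEmbedding := by
    intro S hS
    rw [Finset.map_eq_image, Finset.map_eq_image]
    apply Finset.image_congr
    intro x hx
    exact h x (hS hx)
  unfold smulC
  refine Prod.ext (key _ ?_) (Prod.ext (key _ ?_) ?_)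
  · intro x hx
    exact Finset.mem_union_left _ (Finset.mem_union_left _ hx)
  · intro x hx
    exact Finset.mem_union_left _ (Finset.mem_union_right _ hx)
  · simp only
    rw [Finset.map_eq_image, Finset.map_eq_image]
    apply Finset.image_congr
    intro t ht
    change t.map (Finset.mapEmbedding g.toEmbedding).toEmbedding =
      t.map (Finset.mapEmbedding g'.toEmbedding).toEmbedding
    rw [Finset.map_eq_image, Finset.map_eq_image]
    apply Finset.image_congr
    intro S hS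
    change S.map g.toEmbedding = S.map g'.toEmbedding
    apply key
    intro x hx
    apply Finset.mem_union_right
    rw [Finset.mem_biUnion]
    refine ⟨t, ht, ?_⟩
    rw [Finset.mem_biUnion]
    exact ⟨S, hS, hx⟩

lemma smulC_one (c : Cd) : smulC 1 c = c := by
  have key : ∀ S : Finset ℕ, S.map (1 : Equiv.Perm ℕ).toEmbedding = S := by
    intro S
    have : (1 : Equiv.Perm ℕ).toEmbedding = Function.Embedding.refl _ := rfl
    rw [this, Finset.map_refl]
  unfold smulC
  refine Prod.ext (key _) (Prod.ext (key _) ?_)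
  simp only
  rw [Finset.map_eq_image]
  conv_rhs => rw [← Finset.image_id (s := c.2.2)]
  apply Finset.image_congr
  intro t _
  change t.map (Finset.mapEmbedding (1 : Equiv.Perm ℕ).toEmbedding).toEmbedding = t
  rw [Finset.map_eq_image]
  conv_rhs => rw [← Finset.image_id (s := t)]
  apply Finset.image_congr
  intro S _
  exact key S

lemma smulC_fix {g : Equiv.Perm ℕ} {c : Cd} (h : ∀ x ∈ suppC c, g x = x) : smulC g c = c := by
  rw [smulC_congr (g' := 1) h, smulC_one]

/-- Invariance of coded sets. -/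
lemma mem_SetC_fix {g : Equiv.Perm ℕ} (hg : g ∈ GR) {c : Cd} (h : ∀ x ∈ suppC c, g x = x)
    (x : ℕ) : g x ∈ SetC c ↔ x ∈ SetC c := by
  have := mem_smulC hg c x
  rwa [smulC_fix h] at this

lemma symFam_sub (c : Cd) :
    SymFam (LG GR) (fun m : {m // m ∈ SetC c} => atomN (𝒢 := GR) m.1) := by
  classical
  refine ⟨fixG ((suppC c).image (fun m => (m, 0))), big_fixG _, ?_⟩
  intro g hg m
  obtain ⟨γ, hγG, hγ⟩ := g.2
  have h1 : ∀ t ∈ suppC c, γ t = t := by
    intro t ht
    have h2 := hγ (t, 0)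
    rw [hg (t, 0) (Finset.mem_image_of_mem _ ht)] at h2
    exact h2.symm
  exact ⟨⟨γ m.1, (mem_SetC_fix hγG h1 m.1).2 m.2⟩, fun p => smul_atomN g γ hγ m.1 p⟩

/-- The name of the coded subset of the set of atoms. -/
def subN (c : Cd) : HSN (CP ℕ) (LG GR) :=
  famN (fun m : {m // m ∈ SetC c} => atomN (𝒢 := GR) m.1) (symFam_sub c)

lemma smul_subN (g : LG GR) (γ : Equiv.Perm ℕ) (hγG : γ ∈ GR) (hγ : ∀ x, (g.1 x).1 = γ x.1)
    (c : Cd) (p : CP ℕ) : eqv (g • subN c) (subN (smulC γ c)) p := by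
  apply eqv_smul_famN
  · intro m
    exact ⟨⟨γ m.1, (mem_smulC hγG c m.1).2 m.2⟩, fun q => smul_atomN g γ hγ m.1 q⟩
  · intro m
    have h1 : γ.symm m.1 ∈ SetC c := by
      rw [← mem_smulC hγG c, Equiv.apply_symm_apply]
      exact m.2
    refine ⟨⟨γ.symm m.1, h1⟩, fun q => ?_⟩
    have := smul_atomN g γ hγ (γ.symm m.1) q
    rwa [Equiv.apply_symm_apply] at this

/-! ### The filterbases -/

/-- The type `S ↦ [|S| = k + 1]` over `E`. -/
def tk (k : ℕ) (E : Finset ℕ) : Finset (Finset ℕ) := E.powerset.filter (fun S => S.card = k + 1)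

/-- The code of the corresponding set of atoms. -/
def cU (k : ℕ) (E : Finset ℕ) : Cd := (E, ∅, {tk k E})

lemma mem_SetC_cU {k : ℕ} {E : Finset ℕ} {x : ℕ} :
    x ∈ SetC (cU k E) ↔ x ∉ E ∧ tp E x = tk k E := by
  simp [SetC, cU]

lemma smulC_cU (g : Equiv.Perm ℕ) (k : ℕ) (E : Finset ℕ) :
    smulC g (cU k E) = cU k (E.map g.toEmbedding) := by
  unfold smulC cU
  refine Prod.ext rfl (Prod.ext (by simp) ?_)
  simp only [Finset.map_singleton, Finset.singleton_inj]
  ext S
  change S ∈ (tk k E).map (Finset.mapEmbedding g.toEmbedding).toEmbedding ↔ _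
  rw [Finset.mem_map]
  simp only [tk, Finset.mem_filter, Finset.mem_powerset]
  constructor
  · rintro ⟨S', ⟨h1, h2⟩, rfl⟩
    refine ⟨Finset.map_subset_map.2 h1, ?_⟩
    change (S'.map g.toEmbedding).card = k + 1
    rw [Finset.card_map]; exact h2
  · rintro ⟨h1, h2⟩
    obtain ⟨S', hS', rfl⟩ := Finset.subset_map_iff.1 h1
    refine ⟨S', ⟨hS', ?_⟩, rfl⟩
    rwa [Finset.card_map] at h2

lemma symFam_V (k : ℕ) : SymFam (LG GR) (fun E : Finset ℕ => subN (cU k E)) := by
  refine ⟨⊤, SymSys.big_top, fun g _ E => ?_⟩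
  obtain ⟨γ, hγG, hγ⟩ := g.2
  refine ⟨E.map γ.toEmbedding, fun p => ?_⟩
  have := smul_subN g γ hγG hγ (cU k E) p
  rwa [smulC_cU] at this

/-- The name of the `k`-th filterbase. -/
def VN (k : ℕ) : HSN (CP ℕ) (LG GR) := famN (fun E : Finset ℕ => subN (cU k E)) (symFam_V k)

lemma smul_VN (g : LG GR) (k : ℕ) (p : CP ℕ) : eqv (g • VN k) (VN k) p := by
  obtain ⟨γ, hγG, hγ⟩ := g.2
  apply eqv_smul_famN
  · intro E
    refine ⟨E.map γ.toEmbedding, fun p => ?_⟩
    have := smul_subN g γ hγG hγ (cU k E) p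
    rwa [smulC_cU] at this
  · intro E
    refine ⟨E.map (γ⁻¹).toEmbedding, fun p => ?_⟩
    have := smul_subN g γ hγG hγ (cU k (E.map (γ⁻¹).toEmbedding)) p
    have e : (E.map (γ⁻¹).toEmbedding).map γ.toEmbedding = E := by
      rw [Finset.map_map]
      have : (γ⁻¹).toEmbedding.trans γ.toEmbedding = Function.Embedding.refl _ := by
        ext x; exact γ.apply_symm_apply x
      rw [this, Finset.map_refl]
    rwa [smulC_cU, e] at this

/-- The name of the sequence of filterbases. -/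
def seqN : HSN (CP ℕ) (LG GR) :=
  famN (fun k : ℕ => opairN (natN k) (VN k)) ⟨⊤, SymSys.big_top, fun g _ k =>
    ⟨k, fun p => eqv_trans (smul_opairN g _ _ p) (opairN_congr (by
      rw [smul_natN]; exact eqv_refl _ _) (smul_VN g k p))⟩⟩

lemma symFam_atomsC : SymFam (LG GR) (fun m : ℕ => atomN (𝒢 := GR) m) := by
  refine ⟨⊤, SymSys.big_top, fun g _ m => ?_⟩
  obtain ⟨γ, _, hγ⟩ := g.2
  exact ⟨γ m, fun p => smul_atomN g γ hγ m p⟩

/-- The name of the set of atoms. -/
def setCN : HSN (CP ℕ) (LG GR) := famN (fun m : ℕ => atomN (𝒢 := GR) m) symFam_atomsC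

/-- The constants. -/
def constC : ℕ ⊕ Cd ⊕ ℕ ⊕ Fin 2 → HSN (CP ℕ) (LG GR)
  | .inl m => atomN m
  | .inr (.inl c) => subN c
  | .inr (.inr (.inl k)) => VN k
  | .inr (.inr (.inr i)) => if i = 0 then setCN else seqN

/-- There is a countable well-founded model of ZF with a filterbase infinite set which is not
strongly filterbase infinite. -/
theorem filterbase_model : ∃ (M : Type) (E : M → M → Prop), ZFModel E ∧ WellFounded E ∧
    Countable M ∧ ∃ A : M, FilterbaseInfinite E A ∧ ¬ StronglyFilterbaseInfinite E A := by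
  classical
  obtain ⟨f, hf, hfc⟩ := exists_closedEnum constC
  obtain ⟨G, _, hG, hD⟩ := exists_genSet hf (DHom (At := ℕ) GR) DHom_dense ⊤
  choose ia hia using fun m : ℕ => hfc (.inl m)
  choose ic hic using fun c : Cd => hfc (.inr (.inl c))
  choose iv hiv using fun k : ℕ => hfc (.inr (.inr (.inl k)))
  obtain ⟨iA, hiA⟩ := hfc (.inr (.inr (.inr 0)))
  obtain ⟨iS, hiS⟩ := hfc (.inr (.inr (.inr 1)))
  choose inat hinat using hf.nat
  obtain ⟨iω, hiω⟩ := hf.omega
  have hN : NatData f G hG inat iω := ⟨hinat, hiω⟩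
  replace hia : ∀ m, f (ia m) = atomN m := hia
  replace hic : ∀ h, f (ic h) = subN h := hic
  replace hiv : ∀ T, f (iv T) = VN T := hiv
  replace hiA : f iA = setCN := hiA
  replace hiS : f iS = seqN := hiS
  have hZF := Mod.zf hf hG
  have hext := hZF.extensionality
  let E := Mod.E hG
  let a : ℕ → Mod hG := fun m => Mod.mk hG (ia m)
  let sub : Cd → Mod hG := fun c => Mod.mk hG (ic c)
  let V : ℕ → Mod hG := fun k => Mod.mk hG (iv k)
  let ν : ℕ → Mod hG := fun k => Mod.mk hG (inat k)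
  have exop : ∀ x y : ℕ, ∃ n, f n = opairN (f x) (f y) := by
    intro x y
    obtain ⟨u, hu⟩ := hf.pair x x
    obtain ⟨v, hv⟩ := hf.pair x y
    obtain ⟨n, hn⟩ := hf.pair u v
    exact ⟨n, by rw [hn, hu, hv]; rfl⟩
  have isop : ∀ {x y n : ℕ}, f n = opairN (f x) (f y) →
      IsOPair (Mod.E hG) (Mod.mk hG n) (Mod.mk hG x) (Mod.mk hG y) := by
    intro x y n hn
    obtain ⟨u, hu⟩ := hf.pair x x
    obtain ⟨v, hv⟩ := hf.pair x y
    refine ⟨Mod.mk hG u, Mod.mk hG v, Mod.mk_pair_iff hG hu, Mod.mk_pair_iff hG hv, ?_⟩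
    apply Mod.mk_pair_iff hG
    rw [hn, hu, hv]; rfl
  choose iq hiq using fun k : ℕ => exop (inat k) (iv k)
  have hiq' : ∀ k : ℕ, f (iq k) = opairN (natN k) (VN k) := by
    intro t; rw [hiq, hinat, hiv]
  have hpairq : ∀ k : ℕ, IsOPair E (Mod.mk hG (iq k)) (ν k) (V k) := fun k => isop (hiq k)
  -- basic facts
  have ha_inj : ∀ m m', a m = a m' → m = m' := by
    intro m m' h
    by_contra hne
    obtain ⟨p, _, h2⟩ := Mod.mk_eq_iff.1 h
    rw [hia, hia] at h2
    exact atomN_ne hne p h2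
  have hA : ∀ z, E z (Mod.mk hG iA) ↔ ∃ m, z = a m := fun z => Mod.mk_fam_iff hG hiA hia z
  have hsub : ∀ c z, E z (sub c) ↔ ∃ m ∈ SetC c, z = a m := by
    intro c z
    rw [show E z (sub c) ↔ _ from Mod.mk_fam_iff (ι := fun t : {x // x ∈ SetC c} => ia t.1) hG
      (hic c) (fun t => hia t.1) z]
    constructor
    · rintro ⟨t, ht⟩; exact ⟨t.1, t.2, ht⟩
    · rintro ⟨m, hm, h⟩; exact ⟨⟨m, hm⟩, h⟩
  have hsub' : ∀ c m, E (a m) (sub c) ↔ m ∈ SetC c := by
    intro c m
    rw [hsub]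
    constructor
    · rintro ⟨m', hm', h⟩; rw [ha_inj _ _ h]; exact hm'
    · intro hm; exact ⟨m, hm, rfl⟩
  have hV : ∀ k z, E z (V k) ↔ ∃ F, z = sub (cU k F) := by
    intro k z
    exact Mod.mk_fam_iff (ι := fun F : Finset ℕ => ic (cU k F)) hG (hiv k) (fun F => hic _) z
  have hS : ∀ z, E z (Mod.mk hG iS) ↔ ∃ k, z = Mod.mk hG (iq k) :=
    fun z => Mod.mk_fam_iff hG hiS hiq' z
  have hω : IsOmega E (Mod.mk hG iω) := hN.isOmega hf
  have hν : ∀ j k, ν j = ν k → j = k := fun j k h => hN.inj h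
  have hfin : ∀ x, IsFin E x ↔ {z | E z x}.Finite := fun x => hN.isFin_iff hf x
  -- external finiteness of subsets of the set of atoms
  have hfinA : ∀ x, (∀ z, E z x → ∃ m, z = a m) → ({z | E z x}.Finite ↔ {m | E (a m) x}.Finite) := by
    intro x hx
    constructor
    · intro h
      exact h.preimage (f := a) (fun m _ m' _ hmm => ha_inj _ _ hmm)
    · intro h
      apply (h.image a).subset
      intro z hz
      obtain ⟨m, rfl⟩ := hx z hz
      exact ⟨m, hz, rfl⟩
  -- subsets of the set of atoms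
  have hsubA : ∀ U, (∀ z, E z U → E z (Mod.mk hG iA)) → ∃ c, U = sub c := by
    intro U hU
    obtain ⟨iU, rfl⟩ := Mod.exists_rep U
    obtain ⟨K, ⟨e, he⟩, hK⟩ := exists_fixedBy (f iU)
    have hKe : FixedBy (fixG e) (f iU) := hK.mono (fun g hg => he g hg)
    have hinv : ∀ γ ∈ GR, (∀ z ∈ e.image Prod.fst, γ z = z) → ∀ x,
        x ∈ {m | E (a m) (Mod.mk hG iU)} → γ x ∈ {m | E (a m) (Mod.mk hG iU)} := by
      intro γ hγ hγ1 x hx
      refine invariance hG hD hKe [(x, γ x)] ?_ ?_ hx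
      · refine ⟨γ, hγ, fun i hi => hγ1 _ (Finset.mem_image_of_mem _ hi), ?_⟩
        intro u hu
        simp only [List.mem_cons, List.not_mem_nil, or_false] at hu
        subst hu; rfl
      · rintro g' ⟨δ, hδ, hδ1, hδ2⟩ p
        rw [hia, hia]
        have e1 : δ x = γ x := hδ2 (x, γ x) (by simp)
        have := smul_atomN g' δ hδ1 x p
        rwa [e1] at this
    obtain ⟨c, hc⟩ := exists_code (X := {m | E (a m) (Mod.mk hG iU)}) (E := e.image Prod.fst) (by
      intro γ hγ hγ1 x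
      constructor
      · intro h
        have := hinv γ⁻¹ (GR.inv_mem hγ) (by
          intro z hz
          rw [Equiv.Perm.inv_eq_iff_eq]
          exact (hγ1 z hz).symm) (γ x) h
        have e : γ⁻¹ (γ x) = x := γ.symm_apply_apply x
        rwa [e] at this
      · exact hinv γ hγ hγ1 x)
    refine ⟨c, ?_⟩
    apply hext
    intro z
    change E z (Mod.mk hG iU) ↔ E z (sub c)
    rw [hsub, hc]
    constructor
    · intro hz
      obtain ⟨m, rfl⟩ := (hA _).1 (hU z hz)
      exact ⟨m, hz, rfl⟩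
    · rintro ⟨m, hm, rfl⟩
      exact hm
  refine ⟨Mod hG, E, hZF, Mod.wf hG, ?_, Mod.mk hG iA, ?_, ?_⟩
  · have hsur : Function.Surjective (Mod.mk hG) := fun x => Mod.exists_rep x
    exact hsur.countable
  · -- filterbase infinite
    have happ : ∀ i W, App E (Mod.mk hG iS) i W ↔ ∃ k, i = ν k ∧ W = V k := by
      intro i W
      constructor
      · rintro ⟨p, hp, hp2⟩
        obtain ⟨k, rfl⟩ := (hS p).1 hp
        obtain ⟨e1, e2⟩ := opair_inj hp2 (hpairq k)
        exact ⟨k, e1, e2⟩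
      · rintro ⟨k, rfl, rfl⟩
        exact ⟨_, (hS _).2 ⟨k, rfl⟩, hpairq k⟩
    refine ⟨Mod.mk hG iω, Mod.mk hG iS, hω, ⟨?_, ?_⟩, ?_, ?_⟩
    · intro p hp
      obtain ⟨k, rfl⟩ := (hS p).1 hp
      exact ⟨ν k, V k, (hN.mem_omega _).2 ⟨k, rfl⟩, hpairq k⟩
    · intro i hi
      obtain ⟨k, rfl⟩ := (hN.mem_omega _).1 hi
      refine ⟨V k, (happ _ _).2 ⟨k, rfl, rfl⟩, ?_⟩
      intro W hW
      obtain ⟨k', h1, rfl⟩ := (happ _ _).1 hW
      rw [hν _ _ h1]
    · intro i W hW
      obtain ⟨k, rfl, rfl⟩ := (happ _ _).1 hW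
      refine ⟨⟨⟨_, (hV k _).2 ⟨∅, rfl⟩⟩, ?_, ?_⟩, ?_⟩
      · intro U hU
        obtain ⟨F, rfl⟩ := (hV k U).1 hU
        constructor
        · obtain ⟨x, _, hxF, hx⟩ := exists_tp F (fun S => S.card = k + 1) 0
          refine ⟨a x, (hsub' _ _).2 (mem_SetC_cU.2 ⟨hxF, ?_⟩)⟩
          ext S
          simp only [tk, Finset.mem_filter, Finset.mem_powerset]
          constructor
          · intro h
            have h1 := mem_tp.1 h
            exact ⟨h1.1, (hx S h1.1 h1.2.1).1 h⟩
          · rintro ⟨h1, h2⟩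
            refine (hx S h1 ?_).2 h2
            rw [← Finset.card_pos]; omega
        · intro z hz
          obtain ⟨m, _, rfl⟩ := (hsub _ _).1 hz
          exact (hA _).2 ⟨m, rfl⟩
      · intro U U' hU hU'
        obtain ⟨F, rfl⟩ := (hV k U).1 hU
        obtain ⟨F', rfl⟩ := (hV k U').1 hU'
        refine ⟨sub (cU k (F ∪ F')), (hV k _).2 ⟨_, rfl⟩, ?_⟩
        intro z hz
        obtain ⟨m, hm, rfl⟩ := (hsub _ _).1 hz
        obtain ⟨h1, h2⟩ := mem_SetC_cU.1 hm
        have key : ∀ F₀, F₀ ⊆ F ∪ F' → m ∈ SetC (cU k F₀) := by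
          intro F₀ hF₀
          refine mem_SetC_cU.2 ⟨fun h => h1 (hF₀ h), ?_⟩
          ext S
          have h3 : S ∈ tp (F ∪ F') m ↔ S ∈ tk k (F ∪ F') := by rw [h2]
          simp only [tk, Finset.mem_filter, Finset.mem_powerset] at h3 ⊢
          rw [mem_tp] at h3 ⊢
          constructor
          · rintro ⟨g1, g2, g3⟩
            exact ⟨g1, (h3.1 ⟨g1.trans hF₀, g2, g3⟩).2⟩
          · rintro ⟨g1, g2⟩
            have g3 := h3.2 ⟨g1.trans hF₀, g2⟩
            exact ⟨g1, g3.2⟩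
        exact ⟨(hsub' _ _).2 (key F Finset.subset_union_left),
          (hsub' _ _).2 (key F' Finset.subset_union_right)⟩
      · intro z hz
        obtain ⟨m, _, rfl⟩ := (hsub _ _).1 (hz _ ((hV k _).2 ⟨∅, rfl⟩))
        have h1 := (hsub' _ _).1 (hz _ ((hV k _).2 ⟨{m}, rfl⟩))
        exact (mem_SetC_cU.1 h1).1 (Finset.mem_singleton_self m)
    · intro i j W W' hij hW hW'
      obtain ⟨k, rfl, rfl⟩ := (happ _ _).1 hW
      obtain ⟨k', rfl, rfl⟩ := (happ _ _).1 hW'
      have hkk : k ≠ k' := fun h => hij (by rw [h])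
      let F : Finset ℕ := Finset.range (k + 1)
      refine ⟨sub (cU k F), sub (cU k' F), (hV _ _).2 ⟨_, rfl⟩, (hV _ _).2 ⟨_, rfl⟩, ?_⟩
      rintro z ⟨hz1, hz2⟩
      obtain ⟨m, hm, rfl⟩ := (hsub _ _).1 hz1
      have hm' := (hsub' _ _).1 hz2
      have e : tk k F = tk k' F := (mem_SetC_cU.1 hm).2.symm.trans (mem_SetC_cU.1 hm').2
      have h1 : F ∈ tk k F := by simp [tk, F]
      rw [e] at h1
      simp only [tk, Finset.mem_filter, F, Finset.card_range] at h1
      omega
  · -- strongly filterbase finite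
    rintro ⟨w, F, hw, hFun, hprop, hdisj, _⟩
    have hwω := omega_unique hZF hw hω
    subst hwω
    obtain ⟨iF, rfl⟩ := Mod.exists_rep F
    obtain ⟨K, ⟨e, he⟩, hK⟩ := exists_fixedBy (f iF)
    have hKe : FixedBy (fixG e) (f iF) := hK.mono (fun g hg => he g hg)
    let E₀ : Finset ℕ := e.image Prod.fst
    -- the values and codes of members
    have hval : ∀ k, ∃ W, App E (Mod.mk hG iF) (ν k) W := by
      intro k
      obtain ⟨W, hW, _⟩ := hFun.2 (ν k) ((hN.mem_omega _).2 ⟨k, rfl⟩)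
      exact ⟨W, hW⟩
    choose W hW using hval
    have hcode : ∀ k, ∃ c, E (sub c) (W k) := by
      intro k
      obtain ⟨hfb, _⟩ := hprop (ν k) (W k) (hW k)
      obtain ⟨⟨U, hU⟩, h2, _⟩ := hfb
      obtain ⟨c, rfl⟩ := hsubA U (h2 U hU).2
      exact ⟨c, hU⟩
    choose c hc using hcode
    -- invariance of the values
    have hinv : ∀ k, ∀ γ ∈ GR, (∀ z ∈ E₀, γ z = z) → E (sub (smulC γ (c k))) (W k) := by
      intro k γ hγ hγ1
      have h1 : Sat (Mod.E hG) Fml.appMem (fun n => Mod.mk hG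
          (if n = 0 then inat k else if n = 1 then ic (c k) else iF)) := by
        rw [sat_appMem]
        exact ⟨W k, hW k, hc k⟩
      have h2 := invariance_fml hG hD Fml.appMem
        (fun n => if n = 0 then inat k else if n = 1 then ic (c k) else iF)
        (fun n => if n = 0 then inat k else if n = 1 then ic (smulC γ (c k)) else iF) e
        ((suppC (c k)).toList.map (fun m => (m, γ m))) ?_ ?_ h1
      · rw [sat_appMem] at h2
        obtain ⟨W', hW', h3⟩ := h2
        have : W' = W k := ((hFun.2 (ν k) ((hN.mem_omega _).2 ⟨k, rfl⟩))).unique hW' (hW k)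
        rw [this] at h3
        exact h3
      · refine ⟨γ, hγ, fun i hi => hγ1 _ (Finset.mem_image_of_mem _ hi), ?_⟩
        intro u hu
        obtain ⟨m, _, rfl⟩ := List.mem_map.1 hu
        rfl
      · rintro g hg ⟨δ, hδ, hδ1, hδ2⟩ i p
        by_cases h0 : i = 0
        · simp only [h0, if_true]
          rw [hinat, smul_natN]
          exact eqv_refl _ _
        · by_cases h1 : i = 1
          · subst h1
            simp only [one_ne_zero, if_false, if_true]
            rw [hic, hic]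
            have e1 : smulC δ (c k) = smulC γ (c k) := by
              apply smulC_congr
              intro x hx
              exact hδ2 (x, γ x) (List.mem_map.2 ⟨x, Finset.mem_toList.2 hx, rfl⟩)
            have := smul_subN g δ hδ hδ1 (c k) p
            rwa [e1] at this
          · simp only [h0, h1, if_false]
            exact hKe g hg p
    -- almost equal to unions of types
    have htypes : ∀ k, ∃ 𝒯 : Finset (Finset (Finset ℕ)), 𝒯 ⊆ E₀.powerset.powerset ∧
        {x | ¬ (x ∈ SetC (c k) ↔ tp E₀ x ∈ 𝒯)}.Finite := by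
      intro k
      apply almost_types (E' := suppC (c k))
      · intro g hg hg1 x
        exact mem_SetC_fix hg hg1 x
      · intro g hg hg1
        obtain ⟨_, _, _, hdiff⟩ := hprop (ν k) (W k) (hW k)
        obtain ⟨d, hd⟩ := exists_diff hZF (sub (c k)) (sub (smulC g (c k)))
        have h1 := hdiff _ _ (hc k) (hinv k g hg hg1) d hd
        rw [hfin, hfinA d (fun z hz => by
          obtain ⟨m, _, rfl⟩ := (hsub _ _).1 ((hd z).1 hz).1
          exact ⟨m, rfl⟩)] at h1
        apply h1.subset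
        rintro x ⟨hx1, hx2⟩
        change E (a x) d
        refine (hd _).2 ⟨(hsub' _ _).2 hx1, ?_⟩
        intro h2
        have h3 := (hsub' _ _).1 h2
        apply hx2
        have := mem_smulC hg (c k) (g⁻¹ x)
        have e : g (g⁻¹ x) = x := g.apply_symm_apply x
        rw [e] at this
        exact this.1 h3
    choose T hT1 hT2 using htypes
    -- pigeonhole
    obtain ⟨k, l, hkl, hTkl⟩ : ∃ k l, k ≠ l ∧ T k = T l := by
      have hfinT : Finite {t // t ∈ E₀.powerset.powerset.powerset} := inferInstance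
      have hnot : ¬ Function.Injective (fun k : ℕ =>
          (⟨T k, Finset.mem_powerset.2 (hT1 k)⟩ : {t // t ∈ E₀.powerset.powerset.powerset})) :=
        not_injective_infinite_finite _
      unfold Function.Injective at hnot
      push Not at hnot
      obtain ⟨k, l, h1, h2⟩ := hnot
      exact ⟨k, l, h2, congrArg Subtype.val h1⟩
    have hXkl : {x | x ∈ SetC (c k) ∧ x ∉ SetC (c l)}.Finite := by
      apply ((hT2 k).union (hT2 l)).subset
      rintro x ⟨h1, h2⟩
      by_cases h3 : tp E₀ x ∈ T k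
      · right
        intro h4
        rw [← hTkl] at h4
        exact h2 (h4.2 h3)
      · left
        intro h4
        exact h3 (h4.1 h1)
    -- contradiction
    obtain ⟨U, U', hU, hU', hUU⟩ := hdisj (ν k) (ν l) (W k) (W l) (fun h => hkl (hν _ _ h)) (hW k)
      (hW l)
    obtain ⟨hfbk, _, hinfk, hdiffk⟩ := hprop (ν k) (W k) (hW k)
    obtain ⟨hfbl, _, _, hdiffl⟩ := hprop (ν l) (W l) (hW l)
    obtain ⟨d, hd⟩ := exists_inter hZF U U'
    have h1 := hUU d hd
    have hdA : ∀ z, E z d → ∃ m, z = a m := fun z hz =>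
      (hA _).1 ((hfbk.2.1 U hU).2 z ((hd z).1 hz).1)
    rw [hfin, hfinA d hdA] at h1
    obtain ⟨d1, hd1⟩ := exists_diff hZF (sub (c k)) U
    have h2 := hdiffk _ _ (hc k) hU d1 hd1
    rw [hfin, hfinA d1 (fun z hz => by
      obtain ⟨m, _, rfl⟩ := (hsub _ _).1 ((hd1 z).1 hz).1
      exact ⟨m, rfl⟩)] at h2
    obtain ⟨d2, hd2⟩ := exists_diff hZF (sub (c l)) U'
    have h3 := hdiffl _ _ (hc l) hU' d2 hd2
    rw [hfin, hfinA d2 (fun z hz => by
      obtain ⟨m, _, rfl⟩ := (hsub _ _).1 ((hd2 z).1 hz).1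
      exact ⟨m, rfl⟩)] at h3
    apply hinfk _ (hc k)
    rw [hfin, hfinA _ (fun z hz => by
      obtain ⟨m, _, rfl⟩ := (hsub _ _).1 hz
      exact ⟨m, rfl⟩)]
    apply (((h1.union h2).union h3).union hXkl).subset
    intro x hx
    have hx1 : x ∈ SetC (c k) := (hsub' _ _).1 hx
    by_cases h4 : x ∈ SetC (c l)
    · by_cases h5 : E (a x) U
      · by_cases h6 : E (a x) U'
        · exact Or.inl (Or.inl (Or.inl ((hd _).2 ⟨h5, h6⟩)))
        · exact Or.inl (Or.inr ((hd2 _).2 ⟨(hsub' _ _).2 h4, h6⟩))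
      · exact Or.inl (Or.inl (Or.inr ((hd1 _).2 ⟨(hsub' _ _).2 hx1, h5⟩)))
    · exact Or.inr ⟨hx1, h4⟩

end Pool.Agent.Helper93.ZF
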