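import Pool.Agent.Helper93.ZF.Cohen
import Pool.Agent.Helper93.ZF.FilterDefs

set_option autoImplicit false
set_option linter.unusedSectionVars false

/-!
# Natural numbers and finiteness in the generic models; invariance for formulas
-/

namespace Pool.Agent.Helper93.ZF

open Name HSN SymSys

/-! ### Elementary set theory in a model of ZF -/

section zf

variable {M : Type*} {E : M → M → Prop}

lemma exists_opair (h : ZFModel E) (x y : M) : ∃ p, IsOPair E p x y := by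
  obtain ⟨u, hu⟩ := h.pairing x x
  obtain ⟨v, hv⟩ := h.pairing x y
  obtain ⟨p, hp⟩ := h.pairing u v
  exact ⟨p, u, v, hu, hv, hp⟩

lemma exists_adjoin (h : ZFModel E) (g p : M) : ∃ g', ∀ z, E z g' ↔ (E z g ∨ z = p) := by
  obtain ⟨u, hu⟩ := h.pairing p p
  obtain ⟨v, hv⟩ := h.pairing g u
  obtain ⟨w, hw⟩ := h.union v
  refine ⟨w, fun z => ?_⟩
  rw [hw]
  constructor
  · rintro ⟨y, hy, hz⟩
    rcases (hv y).1 hy with rfl | rfl
    · exact Or.inl hz
    · rcases (hu z).1 hz with h | h <;> exact Or.inr h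
  · rintro (hz | rfl)
    · exact ⟨g, (hv g).2 (Or.inl rfl), hz⟩
    · exact ⟨u, (hv u).2 (Or.inr rfl), (hu z).2 (Or.inl rfl)⟩

lemma exists_remove (h : ZFModel E) (x y : M) : ∃ x', ∀ z, E z x' ↔ (E z x ∧ z ≠ y) := by
  obtain ⟨x', hx'⟩ := h.separation (Fml.eq 0 1).neg (fun _ => y) 0 x
  refine ⟨x', fun z => ?_⟩
  rw [hx', sat_neg, sat_eq]
  simp

lemma exists_diff (h : ZFModel E) (x y : M) : ∃ x', ∀ z, E z x' ↔ (E z x ∧ ¬ E z y) := by
  obtain ⟨x', hx'⟩ := h.separation (Fml.mem 0 1).neg (fun _ => y) 0 x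
  refine ⟨x', fun z => ?_⟩
  rw [hx', sat_neg, sat_mem]
  simp

lemma exists_inter (h : ZFModel E) (x y : M) : ∃ x', ∀ z, E z x' ↔ (E z x ∧ E z y) := by
  obtain ⟨x', hx'⟩ := h.separation (Fml.mem 0 1) (fun _ => y) 0 x
  refine ⟨x', fun z => ?_⟩
  rw [hx', sat_mem]
  simp

lemma omega_unique (h : ZFModel E) {w w' : M} (hw : IsOmega E w) (hw' : IsOmega E w') : w = w' :=
  h.extensionality _ _ (fun z => ⟨hw.2 w' hw'.1 z, hw'.2 w hw.1 z⟩)

end zf

variable {P : Type} {Γ : Type} [PartialOrder P] [OrderTop P] [Group Γ] [MulAction Γ P]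
  [SymSys P Γ] {f : ℕ → HSN P Γ} {G : Set P}

/-- The natural numbers of the model. -/
structure NatData (f : ℕ → HSN P Γ) (G : Set P) (hG : GenSet f G) (inat : ℕ → ℕ) (iω : ℕ) :
    Prop where
  nat : ∀ k, f (inat k) = natN k
  om : f iω = omegaN

section

variable {hG : GenSet f G} {inat : ℕ → ℕ} {iω : ℕ}

lemma NatData.mem_nat (h : NatData f G hG inat iω) (k : ℕ) (z : Mod hG) :
    Mod.E hG z (Mod.mk hG (inat k)) ↔ ∃ j < k, z = Mod.mk hG (inat j) := by
  induction k with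
  | zero =>
    constructor
    · intro hz
      exact absurd hz (Mod.mk_emp hG (h.nat 0) z)
    · rintro ⟨j, hj, _⟩; omega
  | succ n ih =>
    have h1 : f (inat (n + 1)) = succN (f (inat n)) := by
      rw [h.nat, h.nat]; rfl
    rw [Mod.mk_succ_iff hG h1, ih]
    constructor
    · rintro (⟨j, hj, rfl⟩ | rfl)
      · exact ⟨j, by omega, rfl⟩
      · exact ⟨n, by omega, rfl⟩
    · rintro ⟨j, hj, rfl⟩
      rcases Nat.lt_succ_iff_lt_or_eq.1 hj with h2 | h2
      · exact Or.inl ⟨j, h2, rfl⟩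
      · subst h2; exact Or.inr rfl

lemma NatData.inj (h : NatData f G hG inat iω) {j k : ℕ}
    (he : Mod.mk hG (inat j) = Mod.mk hG (inat k)) : j = k := by
  obtain ⟨p, _, h1⟩ := Mod.mk_eq_iff.1 he
  rw [h.nat, h.nat] at h1
  exact natN_inj h1

lemma NatData.mem_omega (h : NatData f G hG inat iω) (z : Mod hG) :
    Mod.E hG z (Mod.mk hG iω) ↔ ∃ k, z = Mod.mk hG (inat k) := by
  constructor
  · intro hz
    obtain ⟨i, rfl⟩ := Mod.exists_rep z
    obtain ⟨m, b, h1, h2, _⟩ := Mod.std hG hz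
    have hs : ∀ (y : HSN P Γ) (b : y.Idx), y = omegaN → ∃ j : ℕ, y.el b = natN j := by
      intro y b hy; subst hy; exact ⟨b, rfl⟩
    obtain ⟨j, hj⟩ := hs (f iω) b h.om
    refine ⟨j, ?_⟩
    rw [h2]
    apply Mod.mk_eq_iff.2
    obtain ⟨p, hp⟩ := hG.ne
    refine ⟨p, hp, ?_⟩
    rw [h1, hj, h.nat]
    exact eqv_refl _ _
  · rintro ⟨k, rfl⟩
    obtain ⟨p, hp⟩ := hG.ne
    refine Mod.E_mk.2 ⟨p, hp, ?_⟩
    rw [h.nat, h.om]
    exact memv_omegaN k p

lemma NatData.isSucc (h : NatData f G hG inat iω) (k : ℕ) :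
    IsSucc (Mod.E hG) (Mod.mk hG (inat (k + 1))) (Mod.mk hG (inat k)) := by
  apply Mod.mk_succ_iff
  rw [h.nat, h.nat]; rfl

lemma NatData.isOmega (hf : ClosedEnum f) (h : NatData f G hG inat iω) :
    IsOmega (Mod.E hG) (Mod.mk hG iω) := by
  have hZF := Mod.zf hf hG
  refine ⟨⟨⟨Mod.mk hG (inat 0), Mod.mk_emp hG (h.nat 0), (h.mem_omega _).2 ⟨0, rfl⟩⟩, ?_⟩, ?_⟩
  · intro y hy
    obtain ⟨k, rfl⟩ := (h.mem_omega _).1 hy
    exact ⟨_, h.isSucc k, (h.mem_omega _).2 ⟨k + 1, rfl⟩⟩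
  · intro w' hw' z hz
    obtain ⟨k, rfl⟩ := (h.mem_omega _).1 hz
    clear hz
    induction k with
    | zero =>
      obtain ⟨e, he, hew⟩ := hw'.1
      have : Mod.mk hG (inat 0) = e := hZF.extensionality _ _ (fun z =>
        ⟨fun hz => absurd hz (Mod.mk_emp hG (h.nat 0) z), fun hz => absurd hz (he z)⟩)
      rw [this]; exact hew
    | succ n ih =>
      obtain ⟨s, hs, hsw⟩ := hw'.2 _ ih
      have : Mod.mk hG (inat (n + 1)) = s := hZF.extensionality _ _ (fun z => by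
        rw [h.isSucc n z, hs z])
      rw [this]; exact hsw

lemma NatData.finite_nat (h : NatData f G hG inat iω) (k : ℕ) :
    {z | Mod.E hG z (Mod.mk hG (inat k))}.Finite := by
  apply (Set.finite_range (fun j : Fin k => Mod.mk hG (inat j))).subset
  intro z hz
  obtain ⟨j, hj, rfl⟩ := (h.mem_nat k z).1 hz
  exact ⟨⟨j, hj⟩, rfl⟩

lemma NatData.exists_bij (hf : ClosedEnum f) (h : NatData f G hG inat iω) (n : ℕ) :
    ∀ x, {z | Mod.E hG z x}.Finite → {z | Mod.E hG z x}.ncard = n →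
      ∃ g, IsBij (Mod.E hG) g x (Mod.mk hG (inat n)) := by
  have hZF := Mod.zf hf hG
  induction n with
  | zero =>
    intro x hx hc
    have hx0 : ∀ z, ¬ Mod.E hG z x := by
      rw [Set.ncard_eq_zero hx] at hc
      intro z hz
      have : z ∈ {z | Mod.E hG z x} := hz
      rw [hc] at this
      exact this
    have hn0 := Mod.mk_emp hG (h.nat 0)
    exact ⟨Mod.mk hG (inat 0), fun p hp => absurd hp (hn0 p), fun a ha => absurd ha (hx0 a),
      fun a ha => absurd ha (hn0 a)⟩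
  | succ n ih =>
    intro x hx hc
    have hne : {z | Mod.E hG z x}.Nonempty := by
      rw [← Set.ncard_pos hx]; omega
    obtain ⟨y, hy⟩ := hne
    obtain ⟨x', hx'⟩ := exists_remove hZF x y
    have hset : {z | Mod.E hG z x'} = {z | Mod.E hG z x} \ {y} := by
      ext z
      simp only [Set.mem_ofPred_eq, Set.mem_sdiff, Set.mem_singleton_iff]
      exact hx' z
    obtain ⟨g, hg1, hg2, hg3⟩ := ih x' (by rw [hset]; exact hx.subset Set.sdiff_subset) (by
      rw [hset, Set.ncard_sdiff_singleton_of_mem hy]; omega)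
    obtain ⟨p, hp⟩ := exists_opair hZF y (Mod.mk hG (inat n))
    obtain ⟨g', hg'⟩ := exists_adjoin hZF g p
    have hnn : ¬ Mod.E hG (Mod.mk hG (inat n)) (Mod.mk hG (inat n)) := by
      rw [h.mem_nat]
      rintro ⟨j, hj, he⟩
      have := h.inj he
      omega
    have hsucc : ∀ z, Mod.E hG z (Mod.mk hG (inat (n + 1))) ↔
        Mod.E hG z (Mod.mk hG (inat n)) ∨ z = Mod.mk hG (inat n) := h.isSucc n
    refine ⟨g', ?_, ?_, ?_⟩
    · intro q hq
      rcases (hg' q).1 hq with hq | rfl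
      · obtain ⟨a, b, ha, hb, hab⟩ := hg1 q hq
        exact ⟨a, b, ((hx' a).1 ha).1, (hsucc b).2 (Or.inl hb), hab⟩
      · exact ⟨y, _, hy, (hsucc _).2 (Or.inr rfl), hp⟩
    · intro a ha
      by_cases hay : a = y
      · subst hay
        refine ⟨Mod.mk hG (inat n), ⟨p, (hg' p).2 (Or.inr rfl), hp⟩, ?_⟩
        rintro b ⟨q, hq, hqb⟩
        rcases (hg' q).1 hq with hq | rfl
        · obtain ⟨a', b', ha', _, hab'⟩ := hg1 q hq
          obtain ⟨e1, _⟩ := opair_inj hqb hab'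
          rw [← e1] at ha'
          exact absurd rfl ((hx' a).1 ha').2
        · exact (opair_inj hqb hp).2
      · obtain ⟨b, ⟨q, hq, hqb⟩, hu⟩ := hg2 a ((hx' a).2 ⟨ha, hay⟩)
        refine ⟨b, ⟨q, (hg' q).2 (Or.inl hq), hqb⟩, ?_⟩
        rintro b' ⟨q', hq', hqb'⟩
        rcases (hg' q').1 hq' with hq' | rfl
        · exact hu b' ⟨q', hq', hqb'⟩
        · exact absurd (opair_inj hqb' hp).1 hay
    · intro b hb
      rcases (hsucc b).1 hb with hb | rfl
      · obtain ⟨a, ⟨q, hq, hqa⟩, hu⟩ := hg3 b hb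
        refine ⟨a, ⟨q, (hg' q).2 (Or.inl hq), hqa⟩, ?_⟩
        rintro a' ⟨q', hq', hqa'⟩
        rcases (hg' q').1 hq' with hq' | rfl
        · exact hu a' ⟨q', hq', hqa'⟩
        · have e := (opair_inj hqa' hp).2
          rw [e] at hb
          exact absurd hb hnn
      · refine ⟨y, ⟨p, (hg' p).2 (Or.inr rfl), hp⟩, ?_⟩
        rintro a' ⟨q', hq', hqa'⟩
        rcases (hg' q').1 hq' with hq' | rfl
        · obtain ⟨a'', b'', _, hb'', hab''⟩ := hg1 q' hq'
          obtain ⟨_, e2⟩ := opair_inj hqa' hab''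
          rw [← e2] at hb''
          exact absurd hb'' hnn
        · exact (opair_inj hqa' hp).1

/-- Finiteness in the model is finiteness. -/
lemma NatData.isFin_iff (hf : ClosedEnum f) (h : NatData f G hG inat iω) (x : Mod hG) :
    IsFin (Mod.E hG) x ↔ {z | Mod.E hG z x}.Finite := by
  have hZF := Mod.zf hf hG
  constructor
  · rintro ⟨w, n, g, hw, hn, hg⟩
    have hw' := omega_unique hZF hw (h.isOmega hf)
    subst hw'
    obtain ⟨k, rfl⟩ := (h.mem_omega _).1 hn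
    have hfin := h.finite_nat k
    choose F hF hF' using fun z : {z | Mod.E hG z x} => hg.2.1 z.1 z.2
    have hmem : ∀ z, Mod.E hG (F z) (Mod.mk hG (inat k)) := by
      intro z
      obtain ⟨p, hp, hp2⟩ := hF z
      obtain ⟨a, b, _, hb, hab⟩ := hg.1 p hp
      rw [(opair_inj hp2 hab).2]; exact hb
    have hfin' : Finite {z | Mod.E hG z (Mod.mk hG (inat k))} := hfin
    have hinj : Function.Injective (fun z : {z | Mod.E hG z x} =>
        (⟨F z, hmem z⟩ : {z | Mod.E hG z (Mod.mk hG (inat k))})) := by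
      intro z z' hzz
      have e : F z = F z' := congrArg Subtype.val hzz
      have h1 := hF z
      have h2 := hF z'
      rw [← e] at h2
      exact Subtype.ext ((hg.2.2 (F z) (hmem z)).unique h1 h2)
    exact Finite.of_injective _ hinj
  · intro hx
    obtain ⟨g, hg⟩ := h.exists_bij hf _ x hx rfl
    exact ⟨_, _, g, h.isOmega hf, (h.mem_omega _).2 ⟨_, rfl⟩, hg⟩

end

/-! ### Invariance for formulas -/

section inv

variable {At : Type} {𝒢 : Subgroup (Equiv.Perm At)}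
variable {f : ℕ → HSN (CP At) (LG 𝒢)} {G : Set (CP At)}

/-- The invariance lemma for arbitrary formulas. -/
lemma invariance_fml (hG : GenSet f G) (hD : ∀ t, ∃ p ∈ G, p ∈ DHom 𝒢 t) (φ : Fml)
    (v v' : ℕ → ℕ) (e : Finset (CI At)) (l : List (At × At))
    (hl : ∃ γ ∈ 𝒢, (∀ i ∈ e, γ i.1 = i.1) ∧ ∀ u ∈ l, γ u.1 = u.2)
    (hv : ∀ (g : LG 𝒢), (∀ i ∈ e, g.1 i = i) →
      (∃ γ ∈ 𝒢, (∀ x, (g.1 x).1 = γ x.1) ∧ ∀ u ∈ l, γ u.1 = u.2) →
      ∀ i p, eqv (g • f (v i)) (f (v' i)) p)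
    (h : Sat (Mod.E hG) φ (fun n => Mod.mk hG (v n))) :
    Sat (Mod.E hG) φ (fun n => Mod.mk hG (v' n)) := by
  rw [truth] at h ⊢
  obtain ⟨p, hp, h1⟩ := h
  obtain ⟨r, hr, hrD⟩ := hD (p, e, l)
  obtain ⟨s, hs, hsp, hsr⟩ := hG.dir p hp r hr
  obtain ⟨g, hg1, hg2, hg3⟩ := hrD ⟨s, hsp, hsr⟩ hl
  refine ⟨r, hr, ?_⟩
  have h2 := (forces_smul (φ := φ) (v := fun n => f (v n)) (p := p) g).2 h1
  exact forces_congr (fun i => hv g hg1 hg2 i r) (forces_mono h2 hg3)

end inv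

end Pool.Agent.Helper93.ZF
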