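import Mathlib

set_option autoImplicit false

/-!
# First order formulas of set theory and models of ZF

`Fml` is the type of first order formulas in the language with one binary relation symbol
(membership) and equality, with variables named by natural numbers, and `Sat E φ v` is Tarski's
satisfaction relation in the structure `(M, E)` under the assignment `v`.
`ZFModel E` says that `(M, E)` satisfies all axioms of ZF.
-/

namespace Pool.Agent.Helper93.ZF

/-- First order formulas in the language of set theory, with variables indexed by `ℕ`. -/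
inductive Fml : Type
  | mem (i j : ℕ) : Fml
  | eq (i j : ℕ) : Fml
  | bot : Fml
  | imp (φ ψ : Fml) : Fml
  | all (i : ℕ) (φ : Fml) : Fml
  deriving Countable

/-- Tarski's satisfaction relation: `Sat E φ v` says that the structure `(M, E)` satisfies `φ`
under the assignment `v` of elements of `M` to the variables. -/
def Sat {M : Type*} (E : M → M → Prop) : Fml → (ℕ → M) → Prop
  | .mem i j, v => E (v i) (v j)
  | .eq i j, v => v i = v j
  | .bot, _ => False
  | .imp φ ψ, v => Sat E φ v → Sat E ψ v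
  | .all i φ, v => ∀ x : M, Sat E φ (Function.update v i x)

/-- `(M, E)` is a model of ZF: extensionality, foundation, pairing, union, power set, infinity,
and the schemes of separation and replacement for all first order formulas with parameters. -/
structure ZFModel {M : Type*} (E : M → M → Prop) : Prop where
  extensionality : ∀ x y, (∀ z, E z x ↔ E z y) → x = y
  foundation : ∀ x, (∃ y, E y x) → ∃ y, E y x ∧ ∀ z, E z y → ¬ E z x
  pairing : ∀ x y, ∃ p, ∀ z, E z p ↔ z = x ∨ z = y
  union : ∀ x, ∃ u, ∀ z, E z u ↔ ∃ y, E y x ∧ E z y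
  powerset : ∀ x, ∃ p, ∀ z, E z p ↔ ∀ w, E w z → E w x
  infinity : ∃ x, (∃ e, E e x ∧ ∀ z, ¬ E z e) ∧
    ∀ y, E y x → ∃ s, E s x ∧ ∀ z, E z s ↔ E z y ∨ z = y
  separation : ∀ (φ : Fml) (v : ℕ → M) (i : ℕ) (x : M),
    ∃ y, ∀ z, E z y ↔ E z x ∧ Sat E φ (Function.update v i z)
  replacement : ∀ (φ : Fml) (v : ℕ → M) (i j : ℕ), i ≠ j → ∀ x : M,
    (∀ a, E a x → ∃! b, Sat E φ (Function.update (Function.update v i a) j b)) →
    ∃ y, ∀ b, E b y ↔ ∃ a, E a x ∧ Sat E φ (Function.update (Function.update v i a) j b)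

namespace Fml

/-- Strict upper bound for the variables occurring in a formula. -/
def bd : Fml → ℕ
  | .mem i j => max i j + 1
  | .eq i j => max i j + 1
  | .bot => 0
  | .imp φ ψ => max φ.bd ψ.bd
  | .all i φ => max (i + 1) φ.bd

/-- Negation. -/
def neg (φ : Fml) : Fml := .imp φ .bot

/-- Conjunction. -/
def and (φ ψ : Fml) : Fml := (Fml.imp φ (Fml.imp ψ .bot)).neg

/-- Existential quantification. -/
def ex (i : ℕ) (φ : Fml) : Fml := (Fml.all i φ.neg).neg

end Fml

variable {M : Type*} (E : M → M → Prop)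

@[simp] lemma sat_mem (i j : ℕ) (v : ℕ → M) : Sat E (.mem i j) v ↔ E (v i) (v j) := Iff.rfl
@[simp] lemma sat_eq (i j : ℕ) (v : ℕ → M) : Sat E (.eq i j) v ↔ v i = v j := Iff.rfl
@[simp] lemma sat_bot (v : ℕ → M) : Sat E .bot v ↔ False := Iff.rfl
@[simp] lemma sat_imp (φ ψ : Fml) (v : ℕ → M) :
    Sat E (.imp φ ψ) v ↔ (Sat E φ v → Sat E ψ v) := Iff.rfl
@[simp] lemma sat_all (i : ℕ) (φ : Fml) (v : ℕ → M) :
    Sat E (.all i φ) v ↔ ∀ x : M, Sat E φ (Function.update v i x) := Iff.rfl
@[simp] lemma sat_neg (φ : Fml) (v : ℕ → M) : Sat E φ.neg v ↔ ¬ Sat E φ v := Iff.rfl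
@[simp] lemma sat_and (φ ψ : Fml) (v : ℕ → M) :
    Sat E (φ.and ψ) v ↔ (Sat E φ v ∧ Sat E ψ v) := by
  simp [Fml.and]
@[simp] lemma sat_ex (i : ℕ) (φ : Fml) (v : ℕ → M) :
    Sat E (φ.ex i) v ↔ ∃ x : M, Sat E φ (Function.update v i x) := by
  simp [Fml.ex]

lemma sat_congr_bd {φ : Fml} : ∀ {v w : ℕ → M}, (∀ i < φ.bd, v i = w i) →
    (Sat E φ v ↔ Sat E φ w) := by
  induction φ with
  | mem i j =>
    intro v w h
    have h1 := h i (by simp only [Fml.bd]; omega)
    have h2 := h j (by simp only [Fml.bd]; omega)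
    simp [h1, h2]
  | eq i j =>
    intro v w h
    have h1 := h i (by simp only [Fml.bd]; omega)
    have h2 := h j (by simp only [Fml.bd]; omega)
    simp [h1, h2]
  | bot => intro v w _; simp
  | imp φ ψ ih1 ih2 =>
    intro v w h
    simp only [Fml.bd] at h
    rw [sat_imp, sat_imp, ih1 (fun i hi => h i (by omega)), ih2 (fun i hi => h i (by omega))]
  | all k φ ih =>
    intro v w h
    simp only [Fml.bd] at h
    rw [sat_all, sat_all]
    apply forall_congr'
    intro x
    apply ih
    intro i hi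
    by_cases hik : i = k
    · subst hik; simp
    · rw [Function.update_of_ne hik, Function.update_of_ne hik]
      exact h i (by omega)

end Pool.Agent.Helper93.ZF
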