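import Pool.Agent.Helper93.ZF.Names

set_option autoImplicit false
set_option linter.unusedSectionVars false

/-!
# Symmetric systems, hereditarily symmetric names, forcing
-/

namespace Pool.Agent.Helper93.ZF

open Name

/-- A symmetric system: a group acting on a poset of conditions with a normal filter of
subgroups. -/
class SymSys (P Γ : Type) [PartialOrder P] [OrderTop P] [Group Γ] [MulAction Γ P] where
  smul_le' : ∀ (g : Γ) {p q : P}, p ≤ q → g • p ≤ g • q
  Big : Subgroup Γ → Prop
  big_top : Big ⊤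
  big_inf : ∀ {K L : Subgroup Γ}, Big K → Big L → Big (K ⊓ L)
  big_mono : ∀ {K L : Subgroup Γ}, K ≤ L → Big K → Big L
  big_conj : ∀ {K : Subgroup Γ} (g : Γ), Big K → ∃ L, Big L ∧ ∀ h ∈ L, g⁻¹ * h * g ∈ K

open SymSys

variable {P : Type} {Γ : Type} [PartialOrder P] [OrderTop P] [Group Γ] [MulAction Γ P]
  [SymSys P Γ]

lemma sle (g : Γ) {p q : P} (h : p ≤ q) : g • p ≤ g • q := SymSys.smul_le' g h

lemma smul_top (g : Γ) : g • (⊤ : P) = ⊤ := by
  apply le_antisymm le_top
  rw [le_smul_iff' (P := P) (Γ := Γ) (hle := fun g {_ _} h => sle g h)]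
  exact le_top

variable (Γ) in
/-- A name is symmetric if it is fixed, up to forced equality, by a large subgroup. -/
def SymN (x : Name P) : Prop :=
  ∃ K : Subgroup Γ, Big P K ∧ ∀ g ∈ K, ∀ p, eqF (g • x) x p

variable (Γ) in
/-- Hereditarily symmetric names. -/
inductive HS : Name P → Prop
  | mk (α : Type) (A : α → Name P) (c : α → P) :
      SymN Γ (Name.mk α A c) → (∀ a, HS (A a)) → HS (Name.mk α A c)

lemma HS.sym {x : Name P} (h : HS Γ x) : SymN Γ x := by cases h; assumption

lemma HS.el {x : Name P} (h : HS Γ x) (a : x.Idx) : HS Γ (x.el a) := by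
  cases h with
  | mk α A c _ h2 => exact h2 a

lemma HS.of {x : Name P} (h1 : SymN Γ x) (h2 : ∀ a, HS Γ (x.el a)) : HS Γ x := by
  cases x with
  | mk α A c => exact HS.mk α A c h1 h2

lemma SymN.smul {x : Name P} (h : SymN Γ x) (g : Γ) : SymN Γ (g • x) := by
  obtain ⟨K, hK, hx⟩ := h
  obtain ⟨L, hL, hLK⟩ := SymSys.big_conj (P := P) g hK
  refine ⟨L, hL, ?_⟩
  intro h hh p
  have := hx _ (hLK h hh) (g⁻¹ • p)
  have h2 := eqF_smul_of (fun g {_ _} h => sle g h) g this
  rw [← mul_smul, ← mul_smul] at h2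
  simpa [mul_assoc, mul_smul] using h2

lemma HS.smul {x : Name P} (h : HS Γ x) (g : Γ) : HS Γ (g • x) := by
  induction h with
  | mk α A c h1 _ ih =>
    rw [smul_mk]
    refine HS.mk _ _ _ ?_ ih
    rw [← smul_mk]
    exact h1.smul g

variable (P Γ) in
/-- The type of hereditarily symmetric names. -/
def HSN : Type 1 := {x : Name P // HS Γ x}

namespace HSN

/-- Index type. -/
def Idx (x : HSN P Γ) : Type := x.1.Idx

/-- Elements. -/
def el (x : HSN P Γ) (a : x.Idx) : HSN P Γ := ⟨x.1.el a, x.2.el a⟩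

/-- Conditions. -/
def cd (x : HSN P Γ) (a : x.Idx) : P := x.1.cd a

instance : MulAction Γ (HSN P Γ) where
  smul g x := ⟨g • x.1, x.2.smul g⟩
  one_smul x := Subtype.ext (one_smul Γ x.1)
  mul_smul g h x := Subtype.ext (mul_smul g h x.1)

lemma smul_val (g : Γ) (x : HSN P Γ) : (g • x).1 = g • x.1 := rfl

/-- Forced equality. -/
def eqv (x y : HSN P Γ) (p : P) : Prop := eqF x.1 y.1 p

/-- Forced membership. -/
def memv (x y : HSN P Γ) (p : P) : Prop := memF x.1 y.1 p

lemma eqv_refl (x : HSN P Γ) (p : P) : eqv x x p := eqF_refl _ _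
lemma eqv_symm {x y : HSN P Γ} {p : P} (h : eqv x y p) : eqv y x p := eqF_symm h
lemma eqv_trans {x y z : HSN P Γ} {p : P} (h : eqv x y p) (h' : eqv y z p) : eqv x z p :=
  eqF_trans h h'
lemma eqv_mono {x y : HSN P Γ} {p q : P} (h : eqv x y p) (hq : q ≤ p) : eqv x y q :=
  eqF_mono h hq
lemma eqv_reg {x y : HSN P Γ} {p : P} (h : ∀ q, q ≤ p → ∃ r, r ≤ q ∧ eqv x y r) : eqv x y p :=
  eqF_reg h
lemma memv_mono {x y : HSN P Γ} {p q : P} (h : memv x y p) (hq : q ≤ p) : memv x y q :=
  memF_mono h hq
lemma memv_reg {x y : HSN P Γ} {p : P} (h : ∀ q, q ≤ p → ∃ r, r ≤ q ∧ memv x y r) :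
    memv x y p :=
  memF_reg h
lemma memv_congr_left {x x' y : HSN P Γ} {p : P} (h : eqv x x' p) (hm : memv x y p) :
    memv x' y p := memF_congr_left h hm
lemma memv_congr_right {x y y' : HSN P Γ} {p : P} (h : eqv y y' p) (hm : memv x y p) :
    memv x y' p := memF_congr_right h hm
lemma memv_def {x y : HSN P Γ} {p : P} : memv x y p ↔
    ∀ q, q ≤ p → ∃ r, r ≤ q ∧ ∃ b : y.Idx, r ≤ y.cd b ∧ eqv x (y.el b) r := Iff.rfl
lemma memv_el {y : HSN P Γ} (b : y.Idx) {p : P} (hp : p ≤ y.cd b) : memv (y.el b) y p :=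
  memF_el b hp

lemma eqv_ext {x y : HSN P Γ} {p : P}
    (h : ∀ (z : HSN P Γ) (q : P), q ≤ p → (memv z x q ↔ memv z y q)) : eqv x y p := by
  apply eqF_of_mem
  · intro a q hq hqa
    exact (h (x.el a) q hq).1 (memv_el a hqa)
  · intro b q hq hqb
    exact (h (y.el b) q hq).2 (memv_el b hqb)

lemma eqv_smul (g : Γ) {x y : HSN P Γ} {p : P} : eqv (g • x) (g • y) (g • p) ↔ eqv x y p :=
  eqF_smul (fun g {_ _} h => sle g h) g

lemma memv_smul (g : Γ) {x y : HSN P Γ} {p : P} : memv (g • x) (g • y) (g • p) ↔ memv x y p :=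
  memF_smul (fun g {_ _} h => sle g h) g

lemma memv_smul_right (g : Γ) {x y : HSN P Γ} {p : P} :
    memv x (g • y) p ↔ memv (g⁻¹ • x) y (g⁻¹ • p) := by
  rw [← memv_smul g⁻¹, inv_smul_smul]

/-- A name supported by a large subgroup. -/
def FixedBy (K : Subgroup Γ) (x : HSN P Γ) : Prop := ∀ g ∈ K, ∀ p, eqv (g • x) x p

lemma exists_fixedBy (x : HSN P Γ) : ∃ K : Subgroup Γ, Big P K ∧ FixedBy K x := by
  obtain ⟨K, hK, hx⟩ := x.2.sym
  exact ⟨K, hK, fun g hg p => hx g hg p⟩

lemma FixedBy.mono {K L : Subgroup Γ} {x : HSN P Γ} (h : FixedBy K x) (hL : L ≤ K) :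
    FixedBy L x := fun g hg p => h g (hL hg) p

/-- The empty set. -/
def emp : HSN P Γ :=
  ⟨Name.mk Empty Empty.elim Empty.elim, HS.mk _ _ _
    ⟨⊤, SymSys.big_top, fun _ _ _ => ⟨fun a => a.elim, fun a => a.elim⟩⟩ (fun a => a.elim)⟩

lemma not_memv_emp (x : HSN P Γ) (p : P) : ¬ memv x emp p := by
  intro h
  obtain ⟨_, _, b, _⟩ := h p le_rfl
  exact b.elim

instance : Inhabited (HSN P Γ) := ⟨emp⟩

/-- A common support of finitely many names. -/
lemma exists_common_fixedBy (v : ℕ → HSN P Γ) (n : ℕ) :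
    ∃ K : Subgroup Γ, Big P K ∧ ∀ i < n, FixedBy K (v i) := by
  induction n with
  | zero => exact ⟨⊤, SymSys.big_top, fun i hi => absurd hi (Nat.not_lt_zero i)⟩
  | succ n ih =>
    obtain ⟨K, hK, h⟩ := ih
    obtain ⟨L, hL, h'⟩ := exists_fixedBy (v n)
    refine ⟨K ⊓ L, SymSys.big_inf hK hL, ?_⟩
    intro i hi
    rcases Nat.lt_succ_iff_lt_or_eq.1 hi with h1 | h1
    · exact (h i h1).mono inf_le_left
    · subst h1
      exact h'.mono inf_le_right

end HSN

open HSN

/-- The forcing relation for the symmetric model. -/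
def Forces : Fml → (ℕ → HSN P Γ) → P → Prop
  | .mem i j, v, p => memv (v i) (v j) p
  | .eq i j, v, p => eqv (v i) (v j) p
  | .bot, _, _ => False
  | .imp φ ψ, v, p => ∀ q, q ≤ p → Forces φ v q → Forces ψ v q
  | .all i φ, v, p => ∀ x : HSN P Γ, Forces φ (Function.update v i x) p

lemma forces_mono {φ : Fml} : ∀ {v : ℕ → HSN P Γ} {p q : P}, Forces φ v p → q ≤ p →
    Forces φ v q := by
  induction φ with
  | mem i j => intro v p q h hq; exact memv_mono h hq
  | eq i j => intro v p q h hq; exact eqv_mono h hq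
  | bot => intro v p q h _; exact h
  | imp φ ψ _ _ => intro v p q h hq r hr; exact h r (hr.trans hq)
  | all i φ ih => intro v p q h hq x; exact ih (h x) hq

lemma forces_reg {φ : Fml} : ∀ {v : ℕ → HSN P Γ} {p : P},
    (∀ q, q ≤ p → ∃ r, r ≤ q ∧ Forces φ v r) → Forces φ v p := by
  induction φ with
  | mem i j => intro v p h; exact memv_reg h
  | eq i j => intro v p h; exact eqv_reg h
  | bot =>
    intro v p h
    obtain ⟨r, _, h2⟩ := h p le_rfl
    exact h2
  | imp φ ψ _ ih =>
    intro v p h q hq hφ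
    apply ih
    intro q' hq'
    obtain ⟨r, hr, h2⟩ := h q' (hq'.trans hq)
    exact ⟨r, hr, h2 r le_rfl (forces_mono hφ (hr.trans hq'))⟩
  | all i φ ih =>
    intro v p h x
    apply ih
    intro q hq
    obtain ⟨r, hr, h2⟩ := h q hq
    exact ⟨r, hr, h2 x⟩

lemma forces_congr {φ : Fml} : ∀ {v w : ℕ → HSN P Γ} {p : P}, (∀ i, eqv (v i) (w i) p) →
    Forces φ v p → Forces φ w p := by
  induction φ with
  | mem i j =>
    intro v w p h h1
    exact memv_congr_left (h i) (memv_congr_right (h j) h1)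
  | eq i j =>
    intro v w p h h1
    exact eqv_trans (eqv_symm (h i)) (eqv_trans h1 (h j))
  | bot => intro v w p _ h; exact h
  | imp φ ψ ih1 ih2 =>
    intro v w p h h1 q hq hφ
    refine ih2 (fun i => eqv_mono (h i) hq) (h1 q hq ?_)
    exact ih1 (fun i => eqv_symm (eqv_mono (h i) hq)) hφ
  | all k φ ih =>
    intro v w p h h1 x
    refine ih (fun i => ?_) (h1 x)
    by_cases hik : i = k
    · subst hik; simp only [Function.update_self]; exact eqv_refl _ _
    · rw [Function.update_of_ne hik, Function.update_of_ne hik]; exact h i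

lemma forces_congr_iff {φ : Fml} {v w : ℕ → HSN P Γ} {p : P} (h : ∀ i, eqv (v i) (w i) p) :
    Forces φ v p ↔ Forces φ w p :=
  ⟨forces_congr h, forces_congr (fun i => eqv_symm (h i))⟩

lemma forces_smul {φ : Fml} : ∀ {v : ℕ → HSN P Γ} {p : P} (g : Γ),
    Forces φ (fun i => g • v i) (g • p) ↔ Forces φ v p := by
  induction φ with
  | mem i j => intro v p g; exact memv_smul g
  | eq i j => intro v p g; exact eqv_smul g
  | bot => intro v p g; exact Iff.rfl
  | imp φ ψ ih1 ih2 =>
    intro v p g
    constructor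
    · intro h q hq hφ
      exact (ih2 g).1 (h (g • q) (sle g hq) ((ih1 g).2 hφ))
    · intro h q hq hφ
      have h1 : g • (g⁻¹ • q) = q := smul_inv_smul g q
      rw [← h1] at hφ ⊢
      refine (ih2 g).2 (h (g⁻¹ • q) ?_ ((ih1 g).1 hφ))
      rw [smul_le_iff' (Γ := Γ) (fun g {_ _} h => sle g h)]
      simpa using hq
  | all k φ ih =>
    intro v p g
    have key : ∀ x : HSN P Γ, (fun i => g • Function.update v k x i) =
        Function.update (fun i => g • v i) k (g • x) := by
      intro x
      funext i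
      by_cases hik : i = k
      · subst hik; simp
      · simp [Function.update_of_ne hik]
    constructor
    · intro h x
      rw [← ih g, key]
      exact h (g • x)
    · intro h x
      have h2 := (ih (v := Function.update v k (g⁻¹ • x)) (p := p) g).2 (h (g⁻¹ • x))
      rw [key] at h2
      simpa using h2

lemma forces_congr_bd {φ : Fml} : ∀ {v w : ℕ → HSN P Γ} {p : P}, (∀ i < φ.bd, v i = w i) →
    (Forces φ v p ↔ Forces φ w p) := by
  induction φ with
  | mem i j =>
    intro v w p h
    have h1 := h i (by simp only [Fml.bd]; omega)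
    have h2 := h j (by simp only [Fml.bd]; omega)
    simp [Forces, h1, h2]
  | eq i j =>
    intro v w p h
    have h1 := h i (by simp only [Fml.bd]; omega)
    have h2 := h j (by simp only [Fml.bd]; omega)
    simp [Forces, h1, h2]
  | bot => intro v w p _; exact Iff.rfl
  | imp φ ψ ih1 ih2 =>
    intro v w p h
    simp only [Fml.bd] at h
    simp only [Forces]
    apply forall_congr'; intro q
    apply forall_congr'; intro _
    rw [ih1 (fun i hi => h i (by omega)), ih2 (fun i hi => h i (by omega))]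
  | all k φ ih =>
    intro v w p h
    simp only [Fml.bd] at h
    simp only [Forces]
    apply forall_congr'
    intro x
    apply ih
    intro i hi
    by_cases hik : i = k
    · subst hik; simp
    · rw [Function.update_of_ne hik, Function.update_of_ne hik]
      exact h i (by omega)

/-- Forcing of a formula is invariant under automorphisms fixing the parameters. -/
lemma forces_smul_fixed {φ : Fml} {v : ℕ → HSN P Γ} {K : Subgroup Γ}
    (hK : ∀ i < φ.bd, FixedBy K (v i)) (k : ℕ) (z : HSN P Γ) (g : Γ) (hg : g ∈ K) (p : P) :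
    Forces φ (Function.update v k (g • z)) (g • p) ↔ Forces φ (Function.update v k z) p := by
  classical
  -- truncate the assignment
  let w : ℕ → HSN P Γ := fun i => if i < φ.bd then v i else emp
  have hw' : ∀ z' p', Forces φ (Function.update v k z') p' ↔
      Forces φ (Function.update w k z') p' := by
    intro z' p'
    apply forces_congr_bd
    intro i hi
    by_cases hik : i = k
    · subst hik; simp
    · rw [Function.update_of_ne hik, Function.update_of_ne hik]
      simp [w, hi]
  rw [hw', hw', ← forces_smul (v := Function.update w k z) (p := p) g]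
  apply forces_congr_iff
  intro i
  by_cases hik : i = k
  · subst hik; simp only [Function.update_self]; exact eqv_refl _ _
  · simp only [Function.update_of_ne hik]
    by_cases hi : i < φ.bd
    · simp only [w, hi, if_true]
      exact eqv_symm (hK i hi g hg _)
    · simp only [w, hi, if_false]
      apply eqv_ext
      intro z q _
      constructor
      · intro h; exact absurd h (not_memv_emp _ _)
      · intro h; rw [memv_smul_right] at h; exact absurd h (not_memv_emp _ _)

end Pool.Agent.Helper93.ZF
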