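import Pool.Agent.Helper93.ZF.Ops

set_option autoImplicit false
set_option linter.unusedSectionVars false

/-!
# Countable closed families of names, generic sequences, and the resulting model of ZF
-/

namespace Pool.Agent.Helper93.ZF

open Name HSN SymSys

/-! ### Closing off under countably many operations -/

section closure

universe u

variable {X : Type u} {ι : Type} [Countable ι] (op : ι → List X → X)

/-- Stages of the closure. -/
def stage : ℕ → Set X
  | 0 => ∅
  | n + 1 => stage n ∪ {x | ∃ (c : ι) (l : List X), (∀ y ∈ l, y ∈ stage n) ∧ x = op c l}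

lemma stage_countable (n : ℕ) : (stage op n).Countable := by
  induction n with
  | zero => exact Set.countable_empty
  | succ n ih =>
    refine ih.union ?_
    have : Countable (stage op n) := ih
    have h2 : (Set.range (fun t : ι × List (stage op n) => op t.1 (t.2.map Subtype.val))).Countable :=
      Set.countable_range _
    refine h2.mono ?_
    rintro x ⟨c, l, hl, rfl⟩
    refine ⟨(c, l.attach.map (fun y => ⟨y.1, hl y.1 y.2⟩)), ?_⟩
    simp only [List.map_map]
    congr 1
    exact List.attach_map_subtype_val l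

lemma stage_mono {m n : ℕ} (h : m ≤ n) : stage op m ⊆ stage op n := by
  induction h with
  | refl => exact subset_rfl
  | step _ ih => exact ih.trans Set.subset_union_left

/-- There is a countable family closed under countably many finitary operations. -/
lemma exists_closed (d : X) : ∃ f : ℕ → X, f 0 = d ∧
    ∀ (c : ι) (l : List ℕ), ∃ n, f n = op c (l.map f) := by
  classical
  -- add the constant d as an operation
  let op' : Option ι → List X → X := fun c l => match c with
    | none => d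
    | some c => op c l
  let S : Set X := ⋃ n, stage op' n
  have hS : S.Countable := Set.countable_iUnion (stage_countable op')
  have hcl : ∀ (c : Option ι) (l : List X), (∀ y ∈ l, y ∈ S) → op' c l ∈ S := by
    intro c l hl
    have : ∃ n, ∀ y ∈ l, y ∈ stage op' n := by
      induction l with
      | nil => exact ⟨0, fun y hy => absurd hy (by simp)⟩
      | cons a l ih =>
        obtain ⟨n, hn⟩ := ih (fun y hy => hl y (List.mem_cons_of_mem _ hy))
        obtain ⟨m, hm⟩ := Set.mem_iUnion.1 (hl a (by simp))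
        refine ⟨max m n, ?_⟩
        intro y hy
        rcases List.mem_cons.1 hy with h | h
        · subst h; exact stage_mono op' (le_max_left _ _) hm
        · exact stage_mono op' (le_max_right _ _) (hn y h)
    obtain ⟨n, hn⟩ := this
    exact Set.mem_iUnion.2 ⟨n + 1, Or.inr ⟨c, l, hn, rfl⟩⟩
  have hd : d ∈ S := hcl none [] (by simp)
  obtain ⟨g, hg⟩ := hS.exists_eq_range ⟨d, hd⟩
  let f : ℕ → X := fun n => match n with
    | 0 => d
    | n + 1 => g n
  have hf : ∀ x ∈ S, ∃ n, f n = x := by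
    intro x hx
    rw [hg] at hx
    obtain ⟨n, hn⟩ := hx
    exact ⟨n + 1, hn⟩
  have hfS : ∀ n, f n ∈ S := by
    intro n
    cases n with
    | zero => exact hd
    | succ n => rw [hg]; exact ⟨n, rfl⟩
  refine ⟨f, rfl, ?_⟩
  intro c l
  apply hf
  exact hcl (some c) _ (by
    intro y hy
    obtain ⟨a, _, rfl⟩ := List.mem_map.1 hy
    exact hfS a)

end closure

/-! ### Generic sequences -/

/-- A directed set meeting countably many dense sets. -/
lemma exists_generic {P : Type} [PartialOrder P] {κ : Type} [Countable κ] (D : κ → Set P)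
    (hD : ∀ k p, ∃ q, q ≤ p ∧ q ∈ D k) (p₀ : P) :
    ∃ G : Set P, p₀ ∈ G ∧ (∀ p ∈ G, ∀ q ∈ G, ∃ r ∈ G, r ≤ p ∧ r ≤ q) ∧
      ∀ k, ∃ p ∈ G, p ∈ D k := by
  classical
  have : Encodable κ := Encodable.ofCountable κ
  choose ext hext hext' using hD
  let s : ℕ → P := fun n => Nat.rec p₀ (fun n p => match (Encodable.decode n : Option κ) with
    | none => p
    | some k => ext k p) n
  have hs : ∀ n, s (n + 1) = match (Encodable.decode n : Option κ) with
    | none => s n
    | some k => ext k (s n) := fun n => rfl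
  have hmono : ∀ n, s (n + 1) ≤ s n := by
    intro n
    rw [hs]
    split
    · exact le_rfl
    · exact hext _ _
  have hanti : Antitone s := antitone_nat_of_succ_le hmono
  refine ⟨Set.range s, ⟨0, rfl⟩, ?_, ?_⟩
  · rintro _ ⟨m, rfl⟩ _ ⟨n, rfl⟩
    exact ⟨s (max m n), ⟨_, rfl⟩, hanti (le_max_left _ _), hanti (le_max_right _ _)⟩
  · intro k
    refine ⟨s (Encodable.encode k + 1), ⟨Encodable.encode k + 1, rfl⟩, ?_⟩
    rw [hs, Encodable.encodek]
    exact hext' _ _

/-! ### Closed enumerations -/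

variable {P : Type} {Γ : Type} [PartialOrder P] [OrderTop P] [Group Γ] [MulAction Γ P]
  [SymSys P Γ]

/-- Assignment given by a list of indices. -/
def asg (f : ℕ → HSN P Γ) (l : List ℕ) : ℕ → HSN P Γ := fun k => f (l.getD k 0)

/-- `f` enumerates a family of names closed under the basic operations. -/
structure ClosedEnum (f : ℕ → HSN P Γ) : Prop where
  sep : ∀ (φ : Fml) (l : List ℕ) (i x : ℕ), ∃ n, f n = HSN.sep (f x) φ (asg f l) i
  pow : ∀ x, ∃ n, f n = powN (f x)
  union : ∀ x, ∃ n, f n = unionN (f x)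
  coll : ∀ (φ : Fml) (l : List ℕ) (i j x : ℕ), ∃ n, f n = collN (f x) φ (asg f l) i j
  pair : ∀ x y, ∃ n, f n = pairN (f x) (f y)
  wit : ∀ (φ : Fml) (l : List ℕ) (i : ℕ) (p : P),
    (∃ w, Forces φ (Function.update (asg f l) i w) p) →
    ∃ n, Forces φ (Function.update (asg f l) i (f n)) p
  els : ∀ (z x : ℕ) (p : P), (∃ q, q ≤ p ∧ ∃ b : (f x).Idx, q ≤ (f x).cd b ∧
      eqv (f z) ((f x).el b) q) →
    ∃ n, ∃ q, q ≤ p ∧ ∃ b : (f x).Idx, f n = (f x).el b ∧ q ≤ (f x).cd b ∧ eqv (f z) (f n) q
  nat : ∀ k, ∃ n, f n = natN k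
  omega : ∃ n, f n = omegaN

/-- The index type of the operations. -/
abbrev OpIdx (P : Type) (K : Type) : Type :=
  (Fml × ℕ) ⊕ Unit ⊕ Unit ⊕ (Fml × ℕ × ℕ) ⊕ Unit ⊕ (Fml × ℕ × P) ⊕ P ⊕ ℕ ⊕ Unit ⊕ K

open Classical in
/-- The operations. -/
noncomputable def opVal {K : Type} (c : K → HSN P Γ) :
    OpIdx P K → List (HSN P Γ) → HSN P Γ
  | .inl (φ, i), l => HSN.sep (l.getD 0 emp) φ (fun k => l.tail.getD k emp) i
  | .inr (.inl _), l => powN (l.getD 0 emp)
  | .inr (.inr (.inl _)), l => unionN (l.getD 0 emp)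
  | .inr (.inr (.inr (.inl (φ, i, j)))), l =>
      collN (l.getD 0 emp) φ (fun k => l.tail.getD k emp) i j
  | .inr (.inr (.inr (.inr (.inl _)))), l => pairN (l.getD 0 emp) (l.getD 1 emp)
  | .inr (.inr (.inr (.inr (.inr (.inl (φ, i, p)))))), l =>
      if h : ∃ w, Forces φ (Function.update (fun k => l.getD k emp) i w) p then
        Classical.choose h else emp
  | .inr (.inr (.inr (.inr (.inr (.inr (.inl p)))))), l =>
      if h : ∃ b : (l.getD 1 emp).Idx, ∃ q, q ≤ p ∧ q ≤ (l.getD 1 emp).cd b ∧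
          eqv (l.getD 0 emp) ((l.getD 1 emp).el b) q then
        (l.getD 1 emp).el (Classical.choose h) else emp
  | .inr (.inr (.inr (.inr (.inr (.inr (.inr (.inl k))))))), _ => natN k
  | .inr (.inr (.inr (.inr (.inr (.inr (.inr (.inr (.inl _)))))))), _ => omegaN
  | .inr (.inr (.inr (.inr (.inr (.inr (.inr (.inr (.inr k)))))))), _ => c k

lemma exists_closedEnum [Countable P] {K : Type} [Countable K] (c : K → HSN P Γ) :
    ∃ f : ℕ → HSN P Γ, ClosedEnum f ∧ ∀ k, ∃ n, f n = c k := by
  classical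
  obtain ⟨f, hf0, hf⟩ := exists_closed (opVal c) emp
  have hget : ∀ (l : List ℕ) (k : ℕ), (l.map f).getD k emp = f (l.getD k 0) := by
    intro l k
    rw [← hf0]
    simp only [List.getD_eq_getElem?_getD, List.getElem?_map]
    cases l[k]? <;> simp
  have hasg : ∀ (l : List ℕ), (fun k => (l.map f).getD k emp) = asg f l := by
    intro l; funext k; exact hget l k
  refine ⟨f, ?_, ?_⟩
  · constructor
    · intro φ l i x
      obtain ⟨n, hn⟩ := hf (.inl (φ, i)) (x :: l)
      refine ⟨n, ?_⟩
      rw [hn]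
      simp only [opVal, List.map_cons, List.tail_cons, List.getD_cons_zero]
      rw [hasg]
    · intro x
      obtain ⟨n, hn⟩ := hf (.inr (.inl ())) [x]
      exact ⟨n, by rw [hn]; simp [opVal]⟩
    · intro x
      obtain ⟨n, hn⟩ := hf (.inr (.inr (.inl ()))) [x]
      exact ⟨n, by rw [hn]; simp [opVal]⟩
    · intro φ l i j x
      obtain ⟨n, hn⟩ := hf (.inr (.inr (.inr (.inl (φ, i, j))))) (x :: l)
      refine ⟨n, ?_⟩
      rw [hn]
      simp only [opVal, List.map_cons, List.tail_cons, List.getD_cons_zero]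
      rw [hasg]
    · intro x y
      obtain ⟨n, hn⟩ := hf (.inr (.inr (.inr (.inr (.inl ()))))) [x, y]
      exact ⟨n, by rw [hn]; simp [opVal]⟩
    · intro φ l i p hw
      obtain ⟨n, hn⟩ := hf (.inr (.inr (.inr (.inr (.inr (.inl (φ, i, p))))))) l
      refine ⟨n, ?_⟩
      rw [hn]
      simp only [opVal]
      rw [hasg, dif_pos hw]
      exact Classical.choose_spec hw
    · intro z x p hw
      obtain ⟨n, hn⟩ := hf (.inr (.inr (.inr (.inr (.inr (.inr (.inl p))))))) [z, x]
      have h0 : (([z, x].map f).getD 0 emp : HSN P Γ) = f z := by simp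
      have h1 : (([z, x].map f).getD 1 emp : HSN P Γ) = f x := by simp
      simp only [opVal] at hn
      rw [h0, h1] at hn
      have hw' : ∃ b : (f x).Idx, ∃ q, q ≤ p ∧ q ≤ (f x).cd b ∧ eqv (f z) ((f x).el b) q := by
        obtain ⟨q, hq, b, h2, h3⟩ := hw
        exact ⟨b, q, hq, h2, h3⟩
      rw [dif_pos hw'] at hn
      obtain ⟨q, hq, h2, h3⟩ := Classical.choose_spec hw'
      exact ⟨n, q, hq, _, hn, h2, by rw [hn]; exact h3⟩
    · intro k
      obtain ⟨n, hn⟩ := hf (.inr (.inr (.inr (.inr (.inr (.inr (.inr (.inl k)))))))) []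
      exact ⟨n, hn⟩
    · obtain ⟨n, hn⟩ := hf (.inr (.inr (.inr (.inr (.inr (.inr (.inr (.inr (.inl ()))))))))) []
      exact ⟨n, hn⟩
  · intro k
    obtain ⟨n, hn⟩ := hf (.inr (.inr (.inr (.inr (.inr (.inr (.inr (.inr (.inr k))))))))) []
    exact ⟨n, hn⟩

end Pool.Agent.Helper93.ZF
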