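import Pool.Agent.Helper93.ZF.Formula

set_option autoImplicit false

/-!
# Names over a poset of conditions, and the forcing relation for equality and membership
-/

namespace Pool.Agent.Helper93.ZF

/-- Names over a poset `P` of conditions. -/
inductive Name (P : Type) : Type 1
  | mk (α : Type) (A : α → Name P) (c : α → P) : Name P

namespace Name

variable {P : Type}

/-- Index type of a name. -/
def Idx : Name P → Type
  | mk α _ _ => α

/-- The elements of a name. -/
def el : (x : Name P) → x.Idx → Name P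
  | mk _ A _ => A

/-- The conditions of a name. -/
def cd : (x : Name P) → x.Idx → P
  | mk _ _ c => c

@[simp] lemma mk_Idx (α : Type) (A : α → Name P) (c : α → P) : (mk α A c).Idx = α := rfl
@[simp] lemma mk_el (α : Type) (A : α → Name P) (c : α → P) : (mk α A c).el = A := rfl
@[simp] lemma mk_cd (α : Type) (A : α → Name P) (c : α → P) : (mk α A c).cd = c := rfl

lemma eta (x : Name P) : mk x.Idx x.el x.cd = x := by cases x; rfl

variable [PartialOrder P]

/-- `eqF x y p`: the condition `p` forces `x = y`. -/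
def eqF : Name P → Name P → P → Prop
  | mk α A c, mk β B d, p =>
    (∀ (a : α) (q : P), q ≤ p → q ≤ c a → ∃ r, r ≤ q ∧ ∃ b : β, r ≤ d b ∧ eqF (A a) (B b) r) ∧
    (∀ (b : β) (q : P), q ≤ p → q ≤ d b → ∃ r, r ≤ q ∧ ∃ a : α, r ≤ c a ∧ eqF (A a) (B b) r)

/-- `memF x y p`: the condition `p` forces `x ∈ y`. -/
def memF (x y : Name P) (p : P) : Prop :=
  ∀ q, q ≤ p → ∃ r, r ≤ q ∧ ∃ b : y.Idx, r ≤ y.cd b ∧ eqF x (y.el b) r

lemma eqF_def (x y : Name P) (p : P) : eqF x y p ↔
    (∀ (a : x.Idx) (q : P), q ≤ p → q ≤ x.cd a →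
      ∃ r, r ≤ q ∧ ∃ b : y.Idx, r ≤ y.cd b ∧ eqF (x.el a) (y.el b) r) ∧
    (∀ (b : y.Idx) (q : P), q ≤ p → q ≤ y.cd b →
      ∃ r, r ≤ q ∧ ∃ a : x.Idx, r ≤ x.cd a ∧ eqF (x.el a) (y.el b) r) := by
  cases x; cases y; rfl

lemma eqF_mono {x y : Name P} {p q : P} (h : eqF x y p) (hq : q ≤ p) : eqF x y q := by
  rw [eqF_def] at h ⊢
  exact ⟨fun a r hr => h.1 a r (hr.trans hq), fun b r hr => h.2 b r (hr.trans hq)⟩

lemma eqF_reg {x y : Name P} {p : P} (h : ∀ q, q ≤ p → ∃ r, r ≤ q ∧ eqF x y r) : eqF x y p := by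
  rw [eqF_def]
  constructor
  · intro a q hq hqa
    obtain ⟨r, hr, h1⟩ := h q hq
    rw [eqF_def] at h1
    obtain ⟨s, hs, b, hb⟩ := h1.1 a r le_rfl (hr.trans hqa)
    exact ⟨s, hs.trans hr, b, hb⟩
  · intro b q hq hqb
    obtain ⟨r, hr, h1⟩ := h q hq
    rw [eqF_def] at h1
    obtain ⟨s, hs, a, ha⟩ := h1.2 b r le_rfl (hr.trans hqb)
    exact ⟨s, hs.trans hr, a, ha⟩

lemma eqF_refl (x : Name P) : ∀ p, eqF x x p := by
  induction x with
  | mk α A c ih =>
    intro p
    exact ⟨fun a q _ hqa => ⟨q, le_rfl, a, hqa, ih a q⟩,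
      fun a q _ hqa => ⟨q, le_rfl, a, hqa, ih a q⟩⟩

lemma eqF_symm {x : Name P} : ∀ {y : Name P} {p : P}, eqF x y p → eqF y x p := by
  induction x with
  | mk α A c ih =>
    intro y p h
    rw [eqF_def] at h ⊢
    constructor
    · intro b q hq hqb
      obtain ⟨r, hr, a, ha, hab⟩ := h.2 b q hq hqb
      exact ⟨r, hr, a, ha, ih a hab⟩
    · intro a q hq hqa
      obtain ⟨r, hr, b, hb, hab⟩ := h.1 a q hq hqa
      exact ⟨r, hr, b, hb, ih a hab⟩

lemma eqF_trans {x : Name P} : ∀ {y z : Name P} {p : P}, eqF x y p → eqF y z p → eqF x z p := by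
  induction x with
  | mk α A c ih =>
    intro y z p h1 h2
    rw [eqF_def] at h1 h2 ⊢
    constructor
    · intro a q hq hqa
      obtain ⟨r, hr, b, hb, hab⟩ := h1.1 a q hq hqa
      obtain ⟨s, hs, k, hk, hbk⟩ := h2.1 b r (hr.trans hq) hb
      exact ⟨s, hs.trans hr, k, hk, ih a (eqF_mono hab hs) hbk⟩
    · intro k q hq hqk
      obtain ⟨r, hr, b, hb, hbk⟩ := h2.2 k q hq hqk
      obtain ⟨s, hs, a, ha, hab⟩ := h1.2 b r (hr.trans hq) hb
      exact ⟨s, hs.trans hr, a, ha, ih a hab (eqF_mono hbk hs)⟩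

lemma memF_mono {x y : Name P} {p q : P} (h : memF x y p) (hq : q ≤ p) : memF x y q :=
  fun r hr => h r (hr.trans hq)

lemma memF_reg {x y : Name P} {p : P} (h : ∀ q, q ≤ p → ∃ r, r ≤ q ∧ memF x y r) :
    memF x y p := by
  intro q hq
  obtain ⟨r, hr, h1⟩ := h q hq
  obtain ⟨s, hs, h2⟩ := h1 r le_rfl
  exact ⟨s, hs.trans hr, h2⟩

lemma memF_congr_left {x x' y : Name P} {p : P} (h : eqF x x' p) (hm : memF x y p) :
    memF x' y p := by
  intro q hq
  obtain ⟨r, hr, b, hb, he⟩ := hm q hq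
  exact ⟨r, hr, b, hb, eqF_trans (eqF_symm (eqF_mono h (hr.trans hq))) he⟩

lemma memF_congr_right {x y y' : Name P} {p : P} (h : eqF y y' p) (hm : memF x y p) :
    memF x y' p := by
  intro q hq
  obtain ⟨r, hr, b, hb, he⟩ := hm q hq
  obtain ⟨s, hs, b', hb', he'⟩ := ((eqF_def _ _ _).1 h).1 b r (hr.trans hq) hb
  exact ⟨s, hs.trans hr, b', hb', eqF_trans (eqF_mono he hs) he'⟩

lemma memF_el {y : Name P} (b : y.Idx) {p : P} (hp : p ≤ y.cd b) : memF (y.el b) y p :=
  fun q hq => ⟨q, le_rfl, b, hq.trans hp, eqF_refl _ _⟩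

/-- Forced equality from forced coextensionality on the members. -/
lemma eqF_of_mem {x y : Name P} {p : P}
    (h1 : ∀ (a : x.Idx) (q : P), q ≤ p → q ≤ x.cd a → memF (x.el a) y q)
    (h2 : ∀ (b : y.Idx) (q : P), q ≤ p → q ≤ y.cd b → memF (y.el b) x q) : eqF x y p := by
  rw [eqF_def]
  constructor
  · intro a q hq hqa
    exact h1 a q hq hqa q le_rfl
  · intro b q hq hqb
    obtain ⟨r, hr, a, ha, he⟩ := h2 b q hq hqb q le_rfl
    exact ⟨r, hr, a, ha, eqF_symm he⟩

/-! ### The action of a group -/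

section action

variable {Γ : Type} [Group Γ] [MulAction Γ P]

/-- The action of automorphisms of the poset on the names. -/
def act (g : Γ) : Name P → Name P
  | mk α A c => mk α (fun a => act g (A a)) (fun a => g • c a)

instance instAct : MulAction Γ (Name P) where
  smul := act
  one_smul := by
    intro x
    induction x with
    | mk α A c ih =>
      change mk α (fun a => act (1 : Γ) (A a)) (fun a => (1 : Γ) • c a) = mk α A c
      congr 1
      · funext a; exact ih a
      · funext a; exact one_smul _ _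
  mul_smul := by
    intro g h x
    induction x with
    | mk α A c ih =>
      change mk α (fun a => act (g * h) (A a)) (fun a => (g * h) • c a) =
        mk α (fun a => act g (act h (A a))) (fun a => g • h • c a)
      congr 1
      · funext a; exact ih a
      · funext a; exact mul_smul _ _ _

lemma smul_mk (g : Γ) (α : Type) (A : α → Name P) (c : α → P) :
    g • (mk α A c) = mk α (fun a => g • A a) (fun a => g • c a) := rfl

/-- Index transport along the action. -/
lemma smul_Idx (g : Γ) (x : Name P) : (g • x).Idx = x.Idx := by cases x; rfl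

variable (hle : ∀ (g : Γ) {p q : P}, p ≤ q → g • p ≤ g • q)
include hle

lemma le_smul_iff (g : Γ) {p q : P} : g • p ≤ g • q ↔ p ≤ q := by
  constructor
  · intro h
    have := hle g⁻¹ h
    simpa using this
  · exact hle g

lemma le_smul_iff' (g : Γ) {p q : P} : p ≤ g • q ↔ g⁻¹ • p ≤ q := by
  rw [← le_smul_iff hle g⁻¹]; simp

lemma smul_le_iff' (g : Γ) {p q : P} : g • p ≤ q ↔ p ≤ g⁻¹ • q := by
  rw [← le_smul_iff hle g⁻¹]; simp

lemma eqF_smul_of {x : Name P} : ∀ {y : Name P} {p : P} (g : Γ), eqF x y p →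
    eqF (g • x) (g • y) (g • p) := by
  induction x with
  | mk α A c ih =>
    intro y p g h
    cases y with
    | mk β B d =>
      constructor
      · intro a q hq hqa
        obtain ⟨r, hr, b, hb, hab⟩ := h.1 a (g⁻¹ • q) ((smul_le_iff' hle g⁻¹).2 (by simpa using hq))
          ((smul_le_iff' hle g⁻¹).2 (by simpa using hqa))
        refine ⟨g • r, (smul_le_iff' hle g).2 hr, b, hle g hb, ih a g hab⟩
      · intro b q hq hqb
        obtain ⟨r, hr, a, ha, hab⟩ := h.2 b (g⁻¹ • q) ((smul_le_iff' hle g⁻¹).2 (by simpa using hq))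
          ((smul_le_iff' hle g⁻¹).2 (by simpa using hqb))
        refine ⟨g • r, (smul_le_iff' hle g).2 hr, a, hle g ha, ih a g hab⟩

lemma eqF_smul (g : Γ) {x y : Name P} {p : P} : eqF (g • x) (g • y) (g • p) ↔ eqF x y p := by
  constructor
  · intro h
    have := eqF_smul_of hle g⁻¹ h
    simpa using this
  · exact eqF_smul_of hle g

lemma memF_smul_of (g : Γ) {x y : Name P} {p : P} (h : memF x y p) :
    memF (g • x) (g • y) (g • p) := by
  cases y with
  | mk β B d =>
    intro q hq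
    obtain ⟨r, hr, b, hb, he⟩ := h (g⁻¹ • q) ((smul_le_iff' hle g⁻¹).2 (by simpa using hq))
    exact ⟨g • r, (smul_le_iff' hle g).2 hr, b, hle g hb, eqF_smul_of hle g he⟩

lemma memF_smul (g : Γ) {x y : Name P} {p : P} : memF (g • x) (g • y) (g • p) ↔ memF x y p := by
  constructor
  · intro h
    have := memF_smul_of hle g⁻¹ h
    simpa using this
  · exact memF_smul_of hle g

end action

end Name

end Pool.Agent.Helper93.ZF
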