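import Pool.Agent.Helper93.ZF.HS

set_option autoImplicit false
set_option linter.unusedSectionVars false

/-!
# Operations on hereditarily symmetric names
-/

namespace Pool.Agent.Helper93.ZF

open Name HSN SymSys

variable {P : Type} {Γ : Type} [PartialOrder P] [OrderTop P] [Group Γ] [MulAction Γ P]
  [SymSys P Γ]

namespace HSN

/-- The name with index set a set of pairs (index of `x`, condition). -/
def subName (x : HSN P Γ) (S : Set (x.Idx × P)) : Name P :=
  Name.mk {t // t ∈ S} (fun t => (x.el t.1.1).1) (fun t => t.1.2)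

/-- The set of pairs defining the separation name. -/
def sepSet (x : HSN P Γ) (φ : Fml) (v : ℕ → HSN P Γ) (i : ℕ) : Set (x.Idx × P) :=
  {t | t.2 ≤ x.cd t.1 ∧ Forces φ (Function.update v i (x.el t.1)) t.2}

lemma memF_sep (x : HSN P Γ) (φ : Fml) (v : ℕ → HSN P Γ) (i : ℕ) (z : HSN P Γ) (p : P) :
    memF z.1 (subName x (sepSet x φ v i)) p ↔
      memv z x p ∧ Forces φ (Function.update v i z) p := by
  constructor
  · intro h
    constructor
    · apply memv_reg
      intro q hq
      obtain ⟨r, hr, t, ht, he⟩ := h q hq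
      refine ⟨r, hr, ?_⟩
      have h1 : r ≤ x.cd t.1.1 := ht.trans t.2.1
      exact memv_congr_left (eqv_symm he) (memv_el _ h1)
    · apply forces_reg
      intro q hq
      obtain ⟨r, hr, t, ht, he⟩ := h q hq
      refine ⟨r, hr, ?_⟩
      have h1 : Forces φ (Function.update v i (x.el t.1.1)) r := forces_mono t.2.2 ht
      refine forces_congr (fun j => ?_) h1
      by_cases hj : j = i
      · subst hj; simp only [Function.update_self]; exact eqv_symm he
      · simp only [Function.update_of_ne hj]; exact eqv_refl _ _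
  · rintro ⟨h1, h2⟩ q hq
    obtain ⟨r, hr, a, ha, he⟩ := memv_def.1 h1 q hq
    refine ⟨r, hr, ⟨(a, r), ha, ?_⟩, le_rfl, he⟩
    refine forces_congr (fun j => ?_) (forces_mono h2 (hr.trans hq))
    by_cases hj : j = i
    · subst hj; simp only [Function.update_self]; exact he
    · simp only [Function.update_of_ne hj]; exact eqv_refl _ _

lemma HS_sep (x : HSN P Γ) (φ : Fml) (v : ℕ → HSN P Γ) (i : ℕ) :
    HS Γ (subName x (sepSet x φ v i)) := by
  apply HS.of
  · obtain ⟨K, hK, hv⟩ := exists_common_fixedBy v φ.bd
    obtain ⟨L, hL, hx⟩ := exists_fixedBy x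
    refine ⟨K ⊓ L, SymSys.big_inf hK hL, ?_⟩
    intro g hg p
    have hsub : ∀ a, HS Γ ((subName x (sepSet x φ v i)).el a) := fun a => (x.el _).2
    have key : ∀ (z : HSN P Γ) (q : P), memF z.1 (g • subName x (sepSet x φ v i)) q ↔
        memF z.1 (subName x (sepSet x φ v i)) q := by
      intro z q
      rw [← memF_smul (Γ := Γ) (fun g {_ _} h => sle g h) g⁻¹, inv_smul_smul]
      rw [← smul_val, memF_sep, memF_sep]
      have h1 : memv (g⁻¹ • z) x (g⁻¹ • q) ↔ memv z x q := by
        rw [← memv_smul g, smul_inv_smul, smul_inv_smul]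
        constructor
        · exact fun h => memv_congr_right (hx g hg.2 q) h
        · exact fun h => memv_congr_right (eqv_symm (hx g hg.2 q)) h
      have h2 : Forces φ (Function.update v i (g⁻¹ • z)) (g⁻¹ • q) ↔
          Forces φ (Function.update v i z) q :=
        forces_smul_fixed (K := K) hv i z g⁻¹ (K.inv_mem hg.1) q
      rw [h1, h2]
    apply eqF_of_mem
    · intro a q _ hqa
      have ha : HS Γ ((g • subName x (sepSet x φ v i)).el a) := (x.el a.1.1).2.smul g
      exact (key ⟨_, ha⟩ q).1 (memF_el a hqa)
    · intro b q _ hqb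
      exact (key ⟨_, hsub b⟩ q).2 (memF_el b hqb)
  · intro a
    exact (x.el _).2

/-- Separation. -/
def sep (x : HSN P Γ) (φ : Fml) (v : ℕ → HSN P Γ) (i : ℕ) : HSN P Γ :=
  ⟨subName x (sepSet x φ v i), HS_sep x φ v i⟩

lemma memv_sep {x : HSN P Γ} {φ : Fml} {v : ℕ → HSN P Γ} {i : ℕ} {z : HSN P Γ} {p : P} :
    memv z (sep x φ v i) p ↔ memv z x p ∧ Forces φ (Function.update v i z) p :=
  memF_sep x φ v i z p

/-- A family of names, closed under automorphisms, with trivial conditions. -/
def orb (α : Type) (A : α → HSN P Γ) : HSN P Γ :=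
  ⟨Name.mk (Γ × α) (fun t => (t.1 • A t.2).1) (fun _ => ⊤), by
    apply HS.of
    · refine ⟨⊤, SymSys.big_top, ?_⟩
      intro g _ p
      apply eqF_of_mem
      · rintro ⟨h, a⟩ q _ _
        have : (g • (Name.mk (Γ × α) (fun t => (t.1 • A t.2).1) (fun _ => (⊤ : P)))).el (h, a) =
            (Name.mk (Γ × α) (fun t => (t.1 • A t.2).1) (fun _ => (⊤ : P))).el (g * h, a) := by
          change g • (h • A a).1 = ((g * h) • A a).1
          rw [mul_smul]; rfl
        rw [this]
        exact memF_el _ le_top
      · rintro ⟨h, a⟩ q _ _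
        have : (Name.mk (Γ × α) (fun t => (t.1 • A t.2).1) (fun _ => (⊤ : P))).el (h, a) =
          (g • (Name.mk (Γ × α) (fun t => (t.1 • A t.2).1) (fun _ => (⊤ : P)))).el (g⁻¹ * h, a) := by
          change (h • A a).1 = g • ((g⁻¹ * h) • A a).1
          rw [← smul_val, ← mul_smul, mul_inv_cancel_left]
        rw [this]
        apply memF_el
        change q ≤ g • (⊤ : P)
        rw [smul_top]
        exact le_top
    · intro a
      exact (a.1 • A a.2).2⟩

lemma memv_orb {α : Type} (A : α → HSN P Γ) (a : α) (p : P) : memv (A a) (orb α A) p := by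
  have h := memv_el (y := orb α A) ((1 : Γ), a) (p := p) le_top
  have h2 : (orb α A).el ((1 : Γ), a) = A a := Subtype.ext (by
    change ((1 : Γ) • A a).1 = (A a).1
    rw [one_smul])
  rwa [h2] at h

/-- A name for a set containing all subsets of `x`. -/
noncomputable def powN (x : HSN P Γ) : HSN P Γ :=
  orb {S : Set (x.Idx × P) // HS Γ (subName x S)} (fun S => ⟨subName x S.1, S.2⟩)

lemma memv_powN {x y : HSN P Γ} {p : P} (h : ∀ (z : HSN P Γ) (q : P), q ≤ p → memv z y q →
    memv z x q) : memv y (powN x) p := by
  let v : ℕ → HSN P Γ := fun _ => y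
  have h1 : memv (sep x (.mem 0 1) v 0) (powN x) p :=
    memv_orb (fun S : {S : Set (x.Idx × P) // HS Γ (subName x S)} =>
      (⟨subName x S.1, S.2⟩ : HSN P Γ)) ⟨sepSet x (.mem 0 1) v 0, HS_sep _ _ _ _⟩ p
  refine memv_congr_left ?_ h1
  apply eqv_ext
  intro z q hq
  rw [memv_sep]
  have : Forces (.mem 0 1) (Function.update v 0 z) q ↔ memv z y q := Iff.rfl
  rw [this]
  exact ⟨fun h' => h'.2, fun h' => ⟨h z q hq h', h'⟩⟩

/-- A name for a set containing the elements of elements of `x`. -/
def unionN (x : HSN P Γ) : HSN P Γ :=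
  orb (Σ a : x.Idx, (x.el a).Idx) (fun t => (x.el t.1).el t.2)

lemma memv_unionN {x y z : HSN P Γ} {p : P} (h1 : memv y x p) (h2 : memv z y p) :
    memv z (unionN x) p := by
  apply memv_reg
  intro q hq
  obtain ⟨r, hr, a, ha, he⟩ := memv_def.1 h1 q hq
  have h3 := memv_congr_right he (memv_mono h2 (hr.trans hq))
  obtain ⟨s, hs, b, hb, he'⟩ := memv_def.1 h3 r le_rfl
  refine ⟨s, hs.trans hr, ?_⟩
  refine memv_congr_left (eqv_symm he') ?_
  exact memv_orb (fun t : (Σ a : x.Idx, (x.el a).Idx) => (x.el t.1).el t.2) ⟨a, b⟩ s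

open Classical in
/-- Collection. -/
noncomputable def collN (x : HSN P Γ) (φ : Fml) (v : ℕ → HSN P Γ) (i j : ℕ) : HSN P Γ :=
  orb (x.Idx × P) (fun t =>
    if h : ∃ w, Forces φ (Function.update (Function.update v i (x.el t.1)) j w) t.2 then
      Classical.choose h else emp)

lemma memv_collN {x : HSN P Γ} {φ : Fml} {v : ℕ → HSN P Γ} {i j : ℕ} {z w : HSN P Γ} {p : P}
    (h1 : memv z x p) (h2 : Forces φ (Function.update (Function.update v i z) j w) p) :
    ∃ q, q ≤ p ∧ ∃ w', memv w' (collN x φ v i j) q ∧
      Forces φ (Function.update (Function.update v i z) j w') q := by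
  classical
  obtain ⟨r, hr, a, ha, he⟩ := memv_def.1 h1 p le_rfl
  have hc : ∀ {z z' w : HSN P Γ} {r : P}, eqv z z' r →
      Forces φ (Function.update (Function.update v i z) j w) r →
      Forces φ (Function.update (Function.update v i z') j w) r := by
    intro z z' w r he h
    refine forces_congr (fun k => ?_) h
    by_cases hk : k = j
    · subst hk; simp only [Function.update_self]; exact eqv_refl _ _
    · simp only [Function.update_of_ne hk]
      by_cases hk' : k = i
      · subst hk'; simp only [Function.update_self]; exact he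
      · simp only [Function.update_of_ne hk']; exact eqv_refl _ _
  have h3 : ∃ w, Forces φ (Function.update (Function.update v i (x.el a)) j w) r :=
    ⟨w, hc he (forces_mono h2 hr)⟩
  refine ⟨r, hr, Classical.choose h3, ?_, ?_⟩
  · have h4 := memv_orb (P := P) (Γ := Γ) (fun t : x.Idx × P =>
      if h : ∃ w, Forces φ (Function.update (Function.update v i (x.el t.1)) j w) t.2 then
        Classical.choose h else emp) (a, r) r
    simp only [h3, dif_pos] at h4
    exact h4
  · exact hc (eqv_symm he) (Classical.choose_spec h3)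

/-- Unordered pair. -/
def pairN (x y : HSN P Γ) : HSN P Γ :=
  ⟨Name.mk Bool (fun b => (bif b then x else y).1) (fun _ => ⊤), by
    apply HS.of
    · obtain ⟨K, hK, hx⟩ := exists_fixedBy x
      obtain ⟨L, hL, hy⟩ := exists_fixedBy y
      refine ⟨K ⊓ L, SymSys.big_inf hK hL, ?_⟩
      intro g hg p
      have key : ∀ (b : Bool) (q : P), eqF (g • (bif b then x else y).1)
          ((bif b then x else y).1) q := by
        intro b q
        cases b
        · exact hy g hg.2 q
        · exact hx g hg.1 q
      constructor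
      · intro b q _ _
        exact ⟨q, le_rfl, b, le_top, key b q⟩
      · intro b q _ _
        refine ⟨q, le_rfl, b, ?_, key b q⟩
        change q ≤ g • (⊤ : P)
        rw [smul_top]; exact le_top
    · intro b; exact (bif b then x else y).2⟩

lemma memv_pairN {x y z : HSN P Γ} {p : P} : memv z (pairN x y) p ↔
    ∀ q, q ≤ p → ∃ r, r ≤ q ∧ (eqv z x r ∨ eqv z y r) := by
  rw [memv_def]
  constructor
  · intro h q hq
    obtain ⟨r, hr, b, _, he⟩ := h q hq
    refine ⟨r, hr, ?_⟩
    cases b with
    | false => exact Or.inr he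
    | true => exact Or.inl he
  · intro h q hq
    obtain ⟨r, hr, he⟩ := h q hq
    rcases he with he | he
    · exact ⟨r, hr, true, le_top, he⟩
    · exact ⟨r, hr, false, le_top, he⟩

lemma pairN_congr {x x' y y' : HSN P Γ} {p : P} (hx : eqv x x' p) (hy : eqv y y' p) :
    eqv (pairN x y) (pairN x' y') p := by
  apply eqv_ext
  intro z q hq
  rw [memv_pairN, memv_pairN]
  apply forall_congr'; intro r
  apply forall_congr'; intro hr
  constructor
  · rintro ⟨s, hs, h⟩
    refine ⟨s, hs, ?_⟩
    rcases h with h | h
    · exact Or.inl (eqv_trans h (eqv_mono hx ((hs.trans hr).trans hq)))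
    · exact Or.inr (eqv_trans h (eqv_mono hy ((hs.trans hr).trans hq)))
  · rintro ⟨s, hs, h⟩
    refine ⟨s, hs, ?_⟩
    rcases h with h | h
    · exact Or.inl (eqv_trans h (eqv_symm (eqv_mono hx ((hs.trans hr).trans hq))))
    · exact Or.inr (eqv_trans h (eqv_symm (eqv_mono hy ((hs.trans hr).trans hq))))

/-- The action commutes with pairing (up to forced equality). -/
lemma smul_pairN (g : Γ) (x y : HSN P Γ) (p : P) :
    eqv (g • pairN x y) (pairN (g • x) (g • y)) p := by
  have key : ∀ (b : Bool), g • (bif b then x else y).1 = ((bif b then g • x else g • y) : HSN P Γ).1 := by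
    intro b; cases b <;> rfl
  have key2 : ∀ (b : Bool) (q : P), eqF (g • (bif b then x else y).1)
      ((bif b then g • x else g • y) : HSN P Γ).1 q := by
    intro b q; rw [key]; exact eqF_refl _ _
  constructor
  · intro b q _ _
    exact ⟨q, le_rfl, b, le_top, key2 b q⟩
  · intro b q _ _
    refine ⟨q, le_rfl, b, ?_, key2 b q⟩
    change q ≤ g • (⊤ : P)
    rw [smul_top]; exact le_top

/-- Kuratowski pair. -/
def opairN (x y : HSN P Γ) : HSN P Γ := pairN (pairN x x) (pairN x y)

lemma smul_opairN (g : Γ) (x y : HSN P Γ) (p : P) :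
    eqv (g • opairN x y) (opairN (g • x) (g • y)) p :=
  eqv_trans (smul_pairN g _ _ p) (pairN_congr (smul_pairN g _ _ p) (smul_pairN g _ _ p))

lemma opairN_congr {x x' y y' : HSN P Γ} {p : P} (hx : eqv x x' p) (hy : eqv y y' p) :
    eqv (opairN x y) (opairN x' y') p :=
  pairN_congr (pairN_congr hx hx) (pairN_congr hx hy)

/-- `x ∪ {x}`. -/
def succN (x : HSN P Γ) : HSN P Γ :=
  ⟨Name.mk (Option x.Idx) (fun o => match o with
      | none => x.1
      | some a => (x.el a).1) (fun o => match o with
      | none => ⊤
      | some a => x.cd a), by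
    apply HS.of
    · obtain ⟨K, hK, hx⟩ := exists_fixedBy x
      refine ⟨K, hK, ?_⟩
      intro g hg p
      have hxg := hx g hg
      constructor
      · intro o q _ hqo
        cases o with
        | none => exact ⟨q, le_rfl, none, le_top, hxg q⟩
        | some a =>
          have h1 : memF (g • (x.el a).1) x.1 q := by
            have h2 : memF (x.el a).1 x.1 (g⁻¹ • q) := by
              apply memF_el
              have hqo' : q ≤ g • x.1.cd a := hqo
              exact (le_smul_iff' (Γ := Γ) (fun g {_ _} h => sle g h) g).1 hqo'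
            have h3 := memF_smul_of (fun g {_ _} h => sle g h) g h2
            rw [smul_inv_smul] at h3
            exact memF_congr_right (hxg q) h3
          obtain ⟨r, hr, b, hb, he⟩ := h1 q le_rfl
          exact ⟨r, hr, some b, hb, he⟩
      · intro o q _ hqo
        cases o with
        | none =>
          refine ⟨q, le_rfl, none, ?_, hxg q⟩
          change q ≤ g • (⊤ : P)
          rw [smul_top]; exact le_top
        | some a =>
          have h1 : memF (x.el a).1 (g • x.1) q :=
            memF_congr_right (eqF_symm (hxg q)) (memF_el (y := x.1) a hqo)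
          obtain ⟨r, hr, b, hb, he⟩ := h1 q le_rfl
          have hs : ∀ (x : Name P) (b : (g • x).Idx), ∃ b' : x.Idx, (g • x).el b = g • x.el b' ∧
              (g • x).cd b = g • x.cd b' := by
            intro x; cases x; intro b; exact ⟨b, rfl, rfl⟩
          obtain ⟨b', hb1, hb2⟩ := hs x.1 b
          rw [hb1] at he
          rw [hb2] at hb
          exact ⟨r, hr, some b', hb, eqF_symm he⟩
    · intro o
      cases o with
      | none => exact x.2
      | some a => exact (x.el a).2⟩

lemma memv_succN {x z : HSN P Γ} {p : P} : memv z (succN x) p ↔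
    ∀ q, q ≤ p → ∃ r, r ≤ q ∧ (memv z x r ∨ eqv z x r) := by
  rw [memv_def]
  constructor
  · intro h q hq
    obtain ⟨r, hr, b, hb, he⟩ := h q hq
    refine ⟨r, hr, ?_⟩
    cases b with
    | none => exact Or.inr he
    | some a => exact Or.inl (memv_congr_left (eqv_symm he) (memv_el (y := x) a hb))
  · intro h q hq
    obtain ⟨r, hr, he⟩ := h q hq
    rcases he with he | he
    · obtain ⟨s, hs, b, hb, he'⟩ := memv_def.1 he r le_rfl
      exact ⟨s, hs.trans hr, some b, hb, he'⟩
    · exact ⟨r, hr, none, le_top, he⟩

/-- Names for the natural numbers. -/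
def natN : ℕ → HSN P Γ
  | 0 => emp
  | n + 1 => succN (natN n)

lemma smul_succN (g : Γ) (x : HSN P Γ) (h : g • x = x) : g • succN x = succN x := by
  obtain ⟨x, hx⟩ := x
  cases x with
  | mk α A c =>
    have h0 : (Name.mk α (fun a => g • A a) (fun a => g • c a)) = Name.mk α A c :=
      congrArg Subtype.val h
    injection h0 with _ h1 h2
    apply Subtype.ext
    change Name.mk (Option α) _ _ = Name.mk (Option α) _ _
    congr 1
    · funext o
      cases o with
      | none => exact congrArg Subtype.val h
      | some a => exact congrFun h1 a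
    · funext o
      cases o with
      | none => exact smul_top g
      | some a => exact congrFun h2 a

lemma smul_natN (g : Γ) (n : ℕ) : g • (natN n : HSN P Γ) = natN n := by
  induction n with
  | zero =>
    apply Subtype.ext
    change Name.mk Empty _ _ = Name.mk Empty _ _
    congr 1
    · funext a; exact a.elim
    · funext a; exact a.elim
  | succ n ih => exact smul_succN g _ ih

/-- A name for `ω`. -/
def omegaN : HSN P Γ :=
  ⟨Name.mk ℕ (fun n => (natN n : HSN P Γ).1) (fun _ => ⊤), by
    apply HS.of
    · refine ⟨⊤, SymSys.big_top, ?_⟩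
      intro g _ p
      have : g • Name.mk ℕ (fun n => (natN n : HSN P Γ).1) (fun _ => (⊤ : P)) =
          Name.mk ℕ (fun n => (natN n : HSN P Γ).1) (fun _ => (⊤ : P)) := by
        rw [smul_mk]
        congr 1
        · funext n; exact congrArg Subtype.val (smul_natN g n)
        · funext n; exact smul_top g
      rw [this]
      exact eqF_refl _ _
    · intro n; exact (natN n).2⟩

lemma memv_omegaN (n : ℕ) (p : P) : memv (natN n : HSN P Γ) omegaN p :=
  memv_el (y := omegaN) n (p := p) le_top

end HSN

end Pool.Agent.Helper93.ZF
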