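import Mathlib

set_option autoImplicit false

/-!
# Combinatorics: a permutation group on `ℕ × Fin 3` for which the finitary permutations
correspond equivariantly to the three-element sets
-/

namespace Pool.Agent.Helper93.Triples

/-- The set of atoms. -/
abbrev A : Type := ℕ × Fin 3

open Equiv

/-- The reflection of the block of `x` fixing `x`. -/
def σ (x : A) : Perm A where
  toFun t := if t.1 = x.1 then (t.1, x.2 + x.2 - t.2) else t
  invFun t := if t.1 = x.1 then (t.1, x.2 + x.2 - t.2) else t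
  left_inv := by
    intro t
    by_cases h : t.1 = x.1
    · simp [h, Prod.ext_iff]
    · simp [h]
  right_inv := by
    intro t
    by_cases h : t.1 = x.1
    · simp [h, Prod.ext_iff]
    · simp [h]

lemma σ_apply_of_eq {x t : A} (h : t.1 = x.1) : σ x t = (t.1, x.2 + x.2 - t.2) := by
  simp [σ, h]

lemma σ_apply_of_ne {x t : A} (h : t.1 ≠ x.1) : σ x t = t := by
  simp [σ, h]

lemma σ_fst (x t : A) : (σ x t).1 = t.1 := by
  by_cases h : t.1 = x.1
  · rw [σ_apply_of_eq h]
  · rw [σ_apply_of_ne h]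

lemma fin3_two (a b c : Fin 3) : a + a - c = b + b - c → a = b := by
  revert a b c; decide

lemma fin3_move (a : Fin 3) : a + a - (a + 1) ≠ a + 1 := by
  revert a; decide

lemma fin3_ne (a : Fin 3) : a + 1 ≠ a := by revert a; decide

lemma fin3_ne2 (a : Fin 3) : a + 2 ≠ a := by revert a; decide

lemma fin3_12 (a : Fin 3) : a + 1 ≠ a + 2 := by revert a; decide

lemma fin3_cases (a b : Fin 3) : b ≠ a → b = a + 1 ∨ b = a + 2 := by revert a b; decide

lemma fin3_third1 (a b : Fin 3) : a ≠ b → a ≠ -a - b := by revert a b; decide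

lemma fin3_third2 (a b : Fin 3) : a ≠ b → b ≠ -a - b := by revert a b; decide

lemma fin3_third3 (a b c : Fin 3) : a ≠ b → c ≠ -a - b → c = a ∨ c = b := by
  revert a b c; decide

lemma fin3_self (a : Fin 3) : a + a - a = a := by revert a; decide

lemma fin3_perm (ρ : Perm (Fin 3)) (a c : Fin 3) : ρ (a + a - c) = ρ a + ρ a - ρ c := by
  revert ρ a c; decide

/-- Coding of the mixed triples. -/
inductive Mix (T : Finset A) (h : Perm A) : Prop
  | three (x y z : A) (hxy : x.1 ≠ y.1) (hxz : x.1 ≠ z.1) (hyz : y.1 ≠ z.1)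
      (hT : ∀ u, u ∈ T ↔ u = x ∨ u = y ∨ u = z) (hh : h = σ x * σ y * σ z) : Mix T h
  | two (w z : A) (hwz : w.1 ≠ z.1) (hT : ∀ u, u ∈ T ↔ (u.1 = w.1 ∧ u ≠ w) ∨ u = z)
      (hh : h = σ w * swap w z) : Mix T h

lemma three_apply {x y z : A} (hxy : x.1 ≠ y.1) (hxz : x.1 ≠ z.1) (hyz : y.1 ≠ z.1) (t : A) :
    (σ x * σ y * σ z) t = if t.1 = x.1 then (t.1, x.2 + x.2 - t.2) else
      if t.1 = y.1 then (t.1, y.2 + y.2 - t.2) else
      if t.1 = z.1 then (t.1, z.2 + z.2 - t.2) else t := by
  rw [Perm.mul_apply, Perm.mul_apply]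
  by_cases h1 : t.1 = x.1
  · have h2 : t.1 ≠ z.1 := h1 ▸ hxz
    have h3 : t.1 ≠ y.1 := h1 ▸ hxy
    rw [σ_apply_of_ne h2, σ_apply_of_ne h3, σ_apply_of_eq h1, if_pos h1]
  · rw [if_neg h1]
    by_cases h2 : t.1 = y.1
    · have h3 : t.1 ≠ z.1 := h2 ▸ hyz
      rw [σ_apply_of_ne h3, σ_apply_of_eq h2, if_pos h2,
        σ_apply_of_ne (x := x) (t := (t.1, y.2 + y.2 - t.2)) h1]
    · rw [if_neg h2]
      by_cases h3 : t.1 = z.1
      · rw [if_pos h3, σ_apply_of_eq h3,
          σ_apply_of_ne (x := y) (t := (t.1, z.2 + z.2 - t.2)) h2,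
          σ_apply_of_ne (x := x) (t := (t.1, z.2 + z.2 - t.2)) h1]
      · rw [if_neg h3, σ_apply_of_ne h3, σ_apply_of_ne h2, σ_apply_of_ne h1]

/-- In the case of three blocks the permutation reflects the block of every element. -/
lemma three_refl {x y z : A} (hxy : x.1 ≠ y.1) (hxz : x.1 ≠ z.1) (hyz : y.1 ≠ z.1) {u : A}
    (hu : u = x ∨ u = y ∨ u = z) (c : Fin 3) :
    (σ x * σ y * σ z) (u.1, c) = (u.1, u.2 + u.2 - c) := by
  rw [three_apply hxy hxz hyz]
  rcases hu with rfl | rfl | rfl
  · simp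
  · simp [hxy.symm]
  · simp [hxz.symm, hyz.symm]

lemma three_fix {x y z : A} (hxy : x.1 ≠ y.1) (hxz : x.1 ≠ z.1) (hyz : y.1 ≠ z.1) {t : A}
    (h1 : t.1 ≠ x.1) (h2 : t.1 ≠ y.1) (h3 : t.1 ≠ z.1) : (σ x * σ y * σ z) t = t := by
  rw [three_apply hxy hxz hyz]
  simp [h1, h2, h3]

lemma three_pres {x y z : A} (t : A) : ((σ x * σ y * σ z) t).1 = t.1 := by
  rw [Perm.mul_apply, Perm.mul_apply, σ_fst, σ_fst, σ_fst]

lemma three_iff {x y z : A} (hxy : x.1 ≠ y.1) (hxz : x.1 ≠ z.1) (hyz : y.1 ≠ z.1) (t : A) :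
    (∀ c, (σ x * σ y * σ z) (t.1, c) = (t.1, t.2 + t.2 - c)) ↔ (t = x ∨ t = y ∨ t = z) := by
  constructor
  · intro h
    have key : ∀ u : A, u = x ∨ u = y ∨ u = z → t.1 = u.1 → t = u := by
      intro u hu htu
      have h1 := h 0
      have h2 := three_refl hxy hxz hyz hu 0
      rw [htu] at h1
      rw [h1] at h2
      have h3 := fin3_two _ _ _ (congrArg Prod.snd h2)
      exact Prod.ext htu h3
    by_cases h1 : t.1 = x.1
    · exact Or.inl (key x (Or.inl rfl) h1)
    by_cases h2 : t.1 = y.1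
    · exact Or.inr (Or.inl (key y (Or.inr (Or.inl rfl)) h2))
    by_cases h3 : t.1 = z.1
    · exact Or.inr (Or.inr (key z (Or.inr (Or.inr rfl)) h3))
    exfalso
    have h4 := h (t.2 + 1)
    rw [three_fix (t := (t.1, t.2 + 1)) hxy hxz hyz h1 h2 h3] at h4
    exact fin3_move t.2 (congrArg Prod.snd h4).symm
  · exact fun h c => three_refl hxy hxz hyz h c

lemma two_w {w z : A} (h : w.1 ≠ z.1) : (σ w * swap w z) w = z := by
  rw [Perm.mul_apply, swap_apply_left, σ_apply_of_ne h.symm]

lemma two_z {w z : A} : (σ w * swap w z) z = w := by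
  rw [Perm.mul_apply, swap_apply_right, σ_apply_of_eq rfl, fin3_self]

lemma two_other {w z t : A} (h1 : t ≠ w) (h2 : t ≠ z) : (σ w * swap w z) t = σ w t := by
  rw [Perm.mul_apply, swap_apply_of_ne_of_ne h1 h2]

lemma two_fix {w z t : A} (h1 : t.1 ≠ w.1) (h2 : t ≠ z) : (σ w * swap w z) t = t := by
  rw [two_other (fun h => h1 (by rw [h])) h2, σ_apply_of_ne h1]

lemma two_iff {w z : A} (h : w.1 ≠ z.1) (t : A) :
    (((σ w * swap w z) t).1 ≠ t.1 ∧ ∀ c, c ≠ t.2 → (σ w * swap w z) (t.1, c) =
      (t.1, t.2 + t.2 - c)) ↔ t = w := by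
  constructor
  · rintro ⟨h1, h2⟩
    by_contra htw
    by_cases htz : t = z
    · subst htz
      have h3 := h2 (t.2 + 1) (fin3_ne _)
      rw [two_fix (by exact h.symm) (by
        intro h'; exact fin3_ne t.2 (congrArg Prod.snd h'))] at h3
      exact fin3_move t.2 (congrArg Prod.snd h3).symm
    · rw [two_other htw htz, σ_fst] at h1
      exact h1 rfl
  · rintro rfl
    refine ⟨?_, ?_⟩
    · rw [two_w h]; exact h.symm
    · intro c hc
      rw [two_other (by intro h'; exact hc (congrArg Prod.snd h')) (by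
        intro h'; exact h (by rw [← h'])), σ_apply_of_eq (x := t) (t := (t.1, c)) rfl]

/-- The triple is determined by the permutation. -/
lemma Mix.inj {T T' : Finset A} {h : Perm A} (h1 : Mix T h) (h2 : Mix T' h) : T = T' := by
  cases h1 with
  | three x y z hxy hxz hyz hT hh =>
    cases h2 with
    | three x' y' z' hxy' hxz' hyz' hT' hh' =>
      ext u
      rw [hT, hT', ← three_iff hxy hxz hyz, ← three_iff hxy' hxz' hyz', ← hh, ← hh']
    | two w' z' hwz' hT' hh' =>
      exfalso
      have e1 := ((two_iff hwz' w').2 rfl).1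
      rw [← hh', hh, three_pres] at e1
      exact e1 rfl
  | two w z hwz hT hh =>
    cases h2 with
    | three x' y' z' hxy' hxz' hyz' hT' hh' =>
      exfalso
      have e1 := ((two_iff hwz w).2 rfl).1
      rw [← hh, hh', three_pres] at e1
      exact e1 rfl
    | two w' z' hwz' hT' hh' =>
      have e1 := (two_iff hwz w).2 rfl
      rw [← hh, hh', two_iff hwz'] at e1
      subst e1
      have e2 := two_w hwz
      rw [← hh, hh', two_w hwz'] at e2
      subst e2
      ext u
      rw [hT, hT']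

/-- The permutation is determined by the triple. -/
lemma Mix.fn {T : Finset A} {h h' : Perm A} (h1 : Mix T h) (h2 : Mix T h') : h = h' := by
  cases h1 with
  | three x y z hxy hxz hyz hT hh =>
    cases h2 with
    | three x' y' z' hxy' hxz' hyz' hT' hh' =>
      have hTT : ∀ u, (u = x ∨ u = y ∨ u = z) ↔ (u = x' ∨ u = y' ∨ u = z') := by
        intro u; rw [← hT, ← hT']
      rw [hh, hh']
      ext1 t
      by_cases hex : ∃ u, (u = x ∨ u = y ∨ u = z) ∧ t.1 = u.1
      · obtain ⟨u, hu, htu⟩ := hex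
        have e1 := three_refl hxy hxz hyz hu t.2
        have e2 := three_refl hxy' hxz' hyz' ((hTT u).1 hu) t.2
        rw [← htu] at e1 e2
        exact e1.trans e2.symm
      · push Not at hex
        rw [three_fix hxy hxz hyz (hex x (by simp)) (hex y (by simp)) (hex z (by simp)),
          three_fix hxy' hxz' hyz' (hex x' ((hTT _).2 (by simp)))
            (hex y' ((hTT _).2 (by simp))) (hex z' ((hTT _).2 (by simp)))]
    | two w' z' hwz' hT' hh' =>
      exfalso
      have m1 : (w'.1, w'.2 + 1) ∈ T := (hT' _).2 (Or.inl ⟨rfl, fun h' =>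
        fin3_ne w'.2 (congrArg Prod.snd h')⟩)
      have m2 : (w'.1, w'.2 + 2) ∈ T := (hT' _).2 (Or.inl ⟨rfl, fun h' =>
        fin3_ne2 w'.2 (congrArg Prod.snd h')⟩)
      have hne : w'.2 + 1 ≠ w'.2 + 2 := fin3_12 _
      rw [hT] at m1 m2
      rcases m1 with m1 | m1 | m1 <;> rcases m2 with m2 | m2 | m2
      all_goals
        have f1 := congrArg Prod.fst m1
        have f2 := congrArg Prod.fst m2
        simp only at f1 f2
        first
        | exact hne (congrArg Prod.snd (m1.trans m2.symm))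
        | exact hxy (f1.symm.trans f2)
        | exact hxy (f2.symm.trans f1)
        | exact hxz (f1.symm.trans f2)
        | exact hxz (f2.symm.trans f1)
        | exact hyz (f1.symm.trans f2)
        | exact hyz (f2.symm.trans f1)
  | two w z hwz hT hh =>
    cases h2 with
    | three x' y' z' hxy' hxz' hyz' hT' hh' =>
      exfalso
      have m1 : (w.1, w.2 + 1) ∈ T := (hT _).2 (Or.inl ⟨rfl, fun h' =>
        fin3_ne w.2 (congrArg Prod.snd h')⟩)
      have m2 : (w.1, w.2 + 2) ∈ T := (hT _).2 (Or.inl ⟨rfl, fun h' =>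
        fin3_ne2 w.2 (congrArg Prod.snd h')⟩)
      have hne : w.2 + 1 ≠ w.2 + 2 := fin3_12 _
      rw [hT'] at m1 m2
      rcases m1 with m1 | m1 | m1 <;> rcases m2 with m2 | m2 | m2
      all_goals
        have f1 := congrArg Prod.fst m1
        have f2 := congrArg Prod.fst m2
        simp only at f1 f2
        first
        | exact hne (congrArg Prod.snd (m1.trans m2.symm))
        | exact hxy' (f1.symm.trans f2)
        | exact hxy' (f2.symm.trans f1)
        | exact hxz' (f1.symm.trans f2)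
        | exact hxz' (f2.symm.trans f1)
        | exact hyz' (f1.symm.trans f2)
        | exact hyz' (f2.symm.trans f1)
    | two w' z' hwz' hT' hh' =>
      have hTT : ∀ u, ((u.1 = w.1 ∧ u ≠ w) ∨ u = z) ↔ ((u.1 = w'.1 ∧ u ≠ w') ∨ u = z') := by
        intro u; rw [← hT, ← hT']
      have hb : w.1 = w'.1 := by
        by_contra hne
        have m1 := (hTT (w.1, w.2 + 1)).1 (Or.inl ⟨rfl, fun h' =>
          fin3_ne w.2 (congrArg Prod.snd h')⟩)
        have m2 := (hTT (w.1, w.2 + 2)).1 (Or.inl ⟨rfl, fun h' =>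
          fin3_ne2 w.2 (congrArg Prod.snd h')⟩)
        rcases m1 with m1 | m1
        · exact hne m1.1
        rcases m2 with m2 | m2
        · exact hne m2.1
        exact fin3_12 w.2 (congrArg Prod.snd (m1.trans m2.symm))
      have hw : w = w' := by
        by_contra hne
        have m1 := (hTT w).2 (Or.inl ⟨hb, hne⟩)
        rcases m1 with m1 | m1
        · exact m1.2 rfl
        · exact hwz (by rw [← m1])
      subst hw
      have hz : z = z' := by
        have m1 := (hTT z).1 (Or.inr rfl)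
        rcases m1 with m1 | m1
        · exact absurd m1.1.symm hwz
        · exact m1
      subst hz
      rw [hh, hh']

/-- The block with index `j`. -/
def blk (j : ℕ) : Finset A := Finset.univ.map ⟨fun c : Fin 3 => (j, c), fun a b h => by
  simpa using h⟩

lemma mem_blk {j : ℕ} {t : A} : t ∈ blk j ↔ t.1 = j := by
  constructor
  · intro h
    obtain ⟨c, _, hc⟩ := Finset.mem_map.1 h
    rw [← hc]; rfl
  · intro h
    exact Finset.mem_map.2 ⟨t.2, Finset.mem_univ _, by rw [← h]; rfl⟩

lemma card_blk (j : ℕ) : (blk j).card = 3 := by simp [blk]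

lemma Mix.not_blk {j : ℕ} {h : Perm A} (h1 : Mix (blk j) h) : False := by
  cases h1 with
  | three x y z hxy hxz hyz hT hh =>
    have m1 := (hT x).2 (by simp)
    have m2 := (hT y).2 (by simp)
    rw [mem_blk] at m1 m2
    exact hxy (m1.trans m2.symm)
  | two w z hwz hT hh =>
    have m1 : (w.1, w.2 + 1) ∈ blk j := (hT _).2 (Or.inl ⟨rfl, fun h' =>
        fin3_ne w.2 (congrArg Prod.snd h')⟩)
    have m2 := (hT z).2 (by simp)
    rw [mem_blk] at m1 m2
    exact hwz (m1.trans m2.symm)

lemma Mix.card {T : Finset A} {h : Perm A} (h1 : Mix T h) : T.card = 3 := by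
  cases h1 with
  | three x y z hxy hxz hyz hT hh =>
    rw [Finset.card_eq_three]
    refine ⟨x, y, z, fun h => hxy (by rw [h]), fun h => hxz (by rw [h]), fun h => hyz (by rw [h]), ?_⟩
    ext u; rw [hT]; simp
  | two w z hwz hT hh =>
    rw [Finset.card_eq_three]
    refine ⟨(w.1, w.2 + 1), (w.1, w.2 + 2), z, ?_, ?_, ?_, ?_⟩
    · intro h'
      exact fin3_12 w.2 (congrArg Prod.snd h')
    · intro h'; exact hwz (by rw [← h'])
    · intro h'; exact hwz (by rw [← h'])
    · ext u
      rw [hT]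
      simp only [Finset.mem_insert, Finset.mem_singleton]
      obtain ⟨w1, w2⟩ := w
      obtain ⟨u1, u2⟩ := u
      simp only [Prod.mk.injEq, ne_eq, not_and]
      constructor
      · rintro (⟨rfl, h2⟩ | h)
        · have h2' := h2 rfl
          rcases fin3_cases _ _ h2' with h | h
          · left; exact ⟨rfl, h⟩
          · right; left; exact ⟨rfl, h⟩
        · right; right; exact h
      · rintro (⟨rfl, h⟩ | ⟨rfl, h⟩ | h)
        · left
          refine ⟨rfl, fun _ h' => ?_⟩
          subst h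
          exact fin3_ne _ h'
        · left
          refine ⟨rfl, fun _ h' => ?_⟩
          subst h
          exact fin3_ne2 _ h'
        · right; exact h

/-- Every three-element set is a block or mixed. -/
lemma exists_mix {T : Finset A} (hT : T.card = 3) : (∃ j, T = blk j) ∨ ∃ h, Mix T h := by
  rw [Finset.card_eq_three] at hT
  obtain ⟨x, y, z, hxy, hxz, hyz, rfl⟩ := hT
  -- the case of exactly two in a block
  have key : ∀ x y z : A, x ≠ y → x.1 = y.1 → x.1 ≠ z.1 → ∀ T : Finset A,
      (∀ u, u ∈ T ↔ u = x ∨ u = y ∨ u = z) → ∃ h, Mix T h := by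
    intro x y z hxy h1 h2 T hT
    obtain ⟨x1, x2⟩ := x
    obtain ⟨y1, y2⟩ := y
    simp only at h1
    subst h1
    have hne : x2 ≠ y2 := fun h => hxy (by rw [h])
    refine ⟨_, Mix.two (x1, -x2 - y2) z h2 ?_ rfl⟩
    intro u
    rw [hT]
    obtain ⟨u1, u2⟩ := u
    simp only [Prod.mk.injEq, ne_eq, not_and]
    constructor
    · rintro (⟨rfl, rfl⟩ | ⟨rfl, rfl⟩ | h)
      · left
        exact ⟨rfl, fun _ => fin3_third1 _ _ hne⟩
      · left
        exact ⟨rfl, fun _ => fin3_third2 _ _ hne⟩
      · right; exact h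
    · rintro (⟨rfl, h⟩ | h)
      · have h' := h rfl
        rcases fin3_third3 _ _ _ hne h' with h | h
        · left; exact ⟨rfl, h⟩
        · right; left; exact ⟨rfl, h⟩
      · right; right; exact h
  by_cases h1 : x.1 = y.1
  · by_cases h2 : x.1 = z.1
    · left
      refine ⟨x.1, ?_⟩
      apply Finset.eq_of_subset_of_card_le
      · intro u hu
        rw [mem_blk]
        simp only [Finset.mem_insert, Finset.mem_singleton] at hu
        rcases hu with rfl | rfl | rfl
        · rfl
        · exact h1.symm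
        · exact h2.symm
      · rw [card_blk, Finset.card_eq_three.2 ⟨x, y, z, hxy, hxz, hyz, rfl⟩]
    · right
      exact key x y z hxy h1 h2 _ (by intro u; simp)
  · right
    by_cases h2 : x.1 = z.1
    · exact key x z y hxz h2 h1 _ (by intro u; simp; tauto)
    · by_cases h3 : y.1 = z.1
      · exact key y z x hyz h3 (fun h => h1 h.symm) _ (by intro u; simp; tauto)
      · exact ⟨_, Mix.three x y z h1 h2 h3 (by intro u; simp) rfl⟩

/-! ### Block-preserving permutations -/

/-- `g` permutes the blocks by `β`. -/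
def Over (g : Perm A) (β : Perm ℕ) : Prop := ∀ t, (g t).1 = β t.1

lemma Over.mul {g h : Perm A} {β δ : Perm ℕ} (hg : Over g β) (hh : Over h δ) :
    Over (g * h) (β * δ) := fun t => by
  rw [Perm.mul_apply, hg, hh, Perm.mul_apply]

lemma Over.inv {g : Perm A} {β : Perm ℕ} (hg : Over g β) : Over g⁻¹ β⁻¹ := fun t => by
  rw [Perm.eq_inv_iff_eq, ← hg]; simp

lemma Over.one : Over 1 1 := fun _ => rfl

lemma conj_σ {g : Perm A} {β : Perm ℕ} (hg : Over g β) (x : A) : g * σ x * g⁻¹ = σ (g x) := by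
  rw [mul_inv_eq_iff_eq_mul]
  -- the permutation of labels on the block of x
  have hinj : Function.Injective (fun c : Fin 3 => (g (x.1, c)).2) := by
    intro c c' h
    have h1 : g (x.1, c) = g (x.1, c') := Prod.ext (by rw [hg, hg]) h
    simpa using g.injective h1
  let ρ : Perm (Fin 3) := Equiv.ofBijective _ (Finite.injective_iff_bijective.1 hinj)
  have hρ : ∀ c, g (x.1, c) = (β x.1, ρ c) := fun c => Prod.ext (hg _) rfl
  ext1 t
  rw [Perm.mul_apply, Perm.mul_apply]
  by_cases h : t.1 = x.1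
  · have ht : t = (x.1, t.2) := Prod.ext h rfl
    rw [σ_apply_of_eq h]
    have hx : g x = (β x.1, ρ x.2) := hρ x.2
    have e1 : g t = (β x.1, ρ t.2) := by rw [ht]; exact hρ t.2
    rw [σ_apply_of_eq (by rw [hg, hg, h]), e1, hx, h, hρ]
    simp only [Prod.mk.injEq, true_and]
    exact fin3_perm ρ _ _
  · rw [σ_apply_of_ne h, σ_apply_of_ne (by rw [hg, hg]; exact fun h' => h (β.injective h'))]

lemma Mix.conj {T : Finset A} {h g : Perm A} {β : Perm ℕ} (hg : Over g β) (h1 : Mix T h) :
    Mix (T.map g.toEmbedding) (g * h * g⁻¹) := by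
  have hmem : ∀ u, u ∈ T.map g.toEmbedding ↔ g⁻¹ u ∈ T := by
    intro u
    rw [Finset.mem_map_equiv]; rfl
  have heq : ∀ u x : A, g⁻¹ u = x ↔ u = g x := by
    intro u x
    rw [Perm.inv_eq_iff_eq]
  cases h1 with
  | three x y z hxy hxz hyz hT hh =>
    refine Mix.three (g x) (g y) (g z) ?_ ?_ ?_ ?_ ?_
    · rw [hg, hg]; exact fun h' => hxy (β.injective h')
    · rw [hg, hg]; exact fun h' => hxz (β.injective h')
    · rw [hg, hg]; exact fun h' => hyz (β.injective h')
    · intro u
      rw [hmem, hT, heq, heq, heq]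
    · rw [hh, ← conj_σ hg, ← conj_σ hg, ← conj_σ hg]
      group
  | two w z hwz hT hh =>
    refine Mix.two (g w) (g z) ?_ ?_ ?_
    · rw [hg, hg]; exact fun h' => hwz (β.injective h')
    · intro u
      rw [hmem, hT, heq]
      apply or_congr_left
      rw [hg.inv u, hg, Perm.inv_eq_iff_eq, Ne, heq]
    · have : g * swap w z = swap (g w) (g z) * g := by
        rw [Equiv.mul_swap_eq_swap_mul]
      have h2 : swap (g w) (g z) = g * swap w z * g⁻¹ := by rw [this]; group
      rw [hh, ← conj_σ hg, h2]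
      group

/-- Finitary permutations. -/
def Fty (h : Perm A) : Prop := ∃ n, ∀ t : A, n ≤ t.1 → h t = t

lemma Fty.conj {h g : Perm A} {β : Perm ℕ} (hg : Over g β) (hh : Fty h) : Fty (g * h * g⁻¹) := by
  obtain ⟨n, hn⟩ := hh
  refine ⟨(Finset.range n).sup β + 1, ?_⟩
  intro t ht
  rw [Perm.mul_apply, Perm.mul_apply, hn]
  · simp
  · rw [hg.inv]
    by_contra hc
    push Not at hc
    have : β (β⁻¹ t.1) ≤ (Finset.range n).sup β :=
      Finset.le_sup (f := β) (Finset.mem_range.2 hc)
    have e : β (β⁻¹ t.1) = t.1 := β.apply_symm_apply t.1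
    omega

lemma Mix.fty {T : Finset A} {h : Perm A} (h1 : Mix T h) : Fty h := by
  cases h1 with
  | three x y z hxy hxz hyz hT hh =>
    refine ⟨x.1 + y.1 + z.1 + 1, fun t ht => ?_⟩
    rw [hh, three_fix hxy hxz hyz] <;> omega
  | two w z hwz hT hh =>
    refine ⟨w.1 + z.1 + 1, fun t ht => ?_⟩
    rw [hh, two_fix]
    · omega
    · intro h'; rw [h'] at ht; omega

end Pool.Agent.Helper93.Triples
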