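import Pool.Agent.Helper93.ZF.Model

set_option autoImplicit false
set_option linter.unusedSectionVars false

/-!
# The generic quotient is a well-founded model of ZF
-/

namespace Pool.Agent.Helper93.ZF

open Name HSN SymSys

variable {P : Type} {Γ : Type} [PartialOrder P] [OrderTop P] [Group Γ] [MulAction Γ P]
  [SymSys P Γ]

/-- The set `G` is directed and meets the dense sets needed for the truth lemma. -/
structure GenSet (f : ℕ → HSN P Γ) (G : Set P) : Prop where
  ne : G.Nonempty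
  dir : ∀ p ∈ G, ∀ q ∈ G, ∃ r ∈ G, r ≤ p ∧ r ≤ q
  dec : ∀ (φ : Fml) (l : List ℕ), ∃ p ∈ G, Forces φ (asg f l) p ∨ Forces φ.neg (asg f l) p
  wit : ∀ (φ : Fml) (l : List ℕ) (i : ℕ), ∃ p ∈ G, Forces (.all i φ) (asg f l) p ∨
    ∃ n, Forces φ.neg (Function.update (asg f l) i (f n)) p
  std : ∀ z x : ℕ, ∃ p ∈ G, (∀ q, q ≤ p → ¬ memv (f z) (f x) q) ∨
    ∃ n, ∃ b : (f x).Idx, f n = (f x).el b ∧ p ≤ (f x).cd b ∧ eqv (f z) (f n) p

lemma dense_dec (φ : Fml) (v : ℕ → HSN P Γ) (p : P) :
    ∃ q, q ≤ p ∧ (Forces φ v q ∨ Forces φ.neg v q) := by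
  by_cases h : ∃ q, q ≤ p ∧ Forces φ v q
  · obtain ⟨q, hq, h⟩ := h
    exact ⟨q, hq, Or.inl h⟩
  · exact ⟨p, le_rfl, Or.inr (fun q hq hf => h ⟨q, hq, hf⟩)⟩

lemma exists_genSet [Countable P] {f : ℕ → HSN P Γ} (hf : ClosedEnum f) {κ : Type} [Countable κ]
    (D : κ → Set P) (hD : ∀ k p, ∃ q, q ≤ p ∧ q ∈ D k) (p₀ : P) :
    ∃ G : Set P, p₀ ∈ G ∧ GenSet f G ∧ ∀ k, ∃ p ∈ G, p ∈ D k := by
  let DD : (Fml × List ℕ) ⊕ (Fml × List ℕ × ℕ) ⊕ (ℕ × ℕ) ⊕ κ → Set P := fun c =>
    match c with
    | .inl (φ, l) => {p | Forces φ (asg f l) p ∨ Forces φ.neg (asg f l) p}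
    | .inr (.inl (φ, l, i)) => {p | Forces (.all i φ) (asg f l) p ∨
        ∃ n, Forces φ.neg (Function.update (asg f l) i (f n)) p}
    | .inr (.inr (.inl (z, x))) => {p | (∀ q, q ≤ p → ¬ memv (f z) (f x) q) ∨
        ∃ n, ∃ b : (f x).Idx, f n = (f x).el b ∧ p ≤ (f x).cd b ∧ eqv (f z) (f n) p}
    | .inr (.inr (.inr k)) => D k
  have hDD : ∀ c p, ∃ q, q ≤ p ∧ q ∈ DD c := by
    intro c p
    match c with
    | .inl (φ, l) => exact dense_dec φ _ p
    | .inr (.inl (φ, l, i)) =>
      by_cases h : Forces (.all i φ) (asg f l) p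
      · exact ⟨p, le_rfl, Or.inl h⟩
      · obtain ⟨x, hx⟩ : ∃ x, ¬ Forces φ (Function.update (asg f l) i x) p := by
          by_contra hc
          push Not at hc
          exact h hc
        obtain ⟨q, hq, hq2⟩ : ∃ q, q ≤ p ∧ ∀ r, r ≤ q →
            ¬ Forces φ (Function.update (asg f l) i x) r := by
          by_contra hc
          push Not at hc
          exact hx (forces_reg (fun q hq => by
            obtain ⟨r, hr, h2⟩ := hc q hq
            exact ⟨r, hr, h2⟩))
        obtain ⟨n, hn⟩ := hf.wit φ.neg l i q ⟨x, fun r hr h2 => hq2 r hr h2⟩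
        exact ⟨q, hq, Or.inr ⟨n, hn⟩⟩
    | .inr (.inr (.inl (z, x))) =>
      by_cases h : ∀ q, q ≤ p → ¬ memv (f z) (f x) q
      · exact ⟨p, le_rfl, Or.inl h⟩
      · push Not at h
        obtain ⟨q, hq, hm⟩ := h
        obtain ⟨r, hr, b, hb, he⟩ := memv_def.1 hm q le_rfl
        obtain ⟨n, s, hs, b', h1, h2, h3⟩ := hf.els z x p ⟨r, hr.trans hq, b, hb, he⟩
        exact ⟨s, hs, Or.inr ⟨n, b', h1, h2, h3⟩⟩
    | .inr (.inr (.inr k)) => exact hD k p
  obtain ⟨G, hp, hdir, hG⟩ := exists_generic DD hDD p₀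
  refine ⟨G, hp, ⟨⟨p₀, hp⟩, hdir, ?_, ?_, ?_⟩, ?_⟩
  · intro φ l; exact hG (.inl (φ, l))
  · intro φ l i; exact hG (.inr (.inl (φ, l, i)))
  · intro z x; exact hG (.inr (.inr (.inl (z, x))))
  · intro k; exact hG (.inr (.inr (.inr k)))

variable {f : ℕ → HSN P Γ} {G : Set P}

/-- The equivalence relation of being forced equal by an element of `G`. -/
def setoidG (f : ℕ → HSN P Γ) (G : Set P) (hG : GenSet f G) : Setoid ℕ where
  r i j := ∃ p ∈ G, eqv (f i) (f j) p
  iseqv := by
    constructor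
    · intro i
      obtain ⟨p, hp⟩ := hG.ne
      exact ⟨p, hp, eqv_refl _ _⟩
    · rintro i j ⟨p, hp, h⟩
      exact ⟨p, hp, eqv_symm h⟩
    · rintro i j k ⟨p, hp, h⟩ ⟨q, hq, h'⟩
      obtain ⟨r, hr, h1, h2⟩ := hG.dir p hp q hq
      exact ⟨r, hr, eqv_trans (eqv_mono h h1) (eqv_mono h' h2)⟩

/-- The carrier of the model. -/
def Mod (hG : GenSet f G) : Type := Quotient (setoidG f G hG)

/-- The element of the model named by the name with index `i`. -/
def Mod.mk (hG : GenSet f G) (i : ℕ) : Mod hG := Quotient.mk (setoidG f G hG) i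

lemma Mod.exists_rep {hG : GenSet f G} (x : Mod hG) : ∃ i, Mod.mk hG i = x := Quotient.exists_rep x

lemma Mod.mk_eq_iff {hG : GenSet f G} {i j : ℕ} :
    Mod.mk hG i = Mod.mk hG j ↔ ∃ p ∈ G, eqv (f i) (f j) p := by
  exact Quotient.eq (r := setoidG f G hG)

/-- Membership in the model. -/
def Mod.E (hG : GenSet f G) : Mod hG → Mod hG → Prop :=
  Quotient.lift₂ (fun i j => ∃ p ∈ G, memv (f i) (f j) p) (by
    have key : ∀ {i j i' j' : ℕ}, (∃ p ∈ G, eqv (f i) (f i') p) → (∃ p ∈ G, eqv (f j) (f j') p) →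
        (∃ p ∈ G, memv (f i) (f j) p) → ∃ p ∈ G, memv (f i') (f j') p := by
      rintro i j i' j' ⟨p, hp, h1⟩ ⟨q, hq, h2⟩ ⟨r, hr, h3⟩
      obtain ⟨s, hs, h4, h5⟩ := hG.dir p hp q hq
      obtain ⟨t, ht, h6, h7⟩ := hG.dir s hs r hr
      exact ⟨t, ht, memv_congr_left (eqv_mono h1 (h6.trans h4))
        (memv_congr_right (eqv_mono h2 (h6.trans h5)) (memv_mono h3 h7))⟩
    intro i j i' j' h1 h2
    apply propext
    have h1' : ∃ p ∈ G, eqv (f i) (f i') p := h1
    have h2' : ∃ p ∈ G, eqv (f j) (f j') p := h2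
    have s1 : ∃ p ∈ G, eqv (f i') (f i) p := by
      obtain ⟨p, hp, h⟩ := h1'; exact ⟨p, hp, eqv_symm h⟩
    have s2 : ∃ p ∈ G, eqv (f j') (f j) p := by
      obtain ⟨p, hp, h⟩ := h2'; exact ⟨p, hp, eqv_symm h⟩
    exact ⟨key h1' h2', key s1 s2⟩)

lemma Mod.E_mk {hG : GenSet f G} {i j : ℕ} :
    Mod.E hG (Mod.mk hG i) (Mod.mk hG j) ↔ ∃ p ∈ G, memv (f i) (f j) p := Iff.rfl

lemma asg_agree (f : ℕ → HSN P Γ) (v : ℕ → ℕ) (n k : ℕ) (hk : k < n) :
    asg f ((List.range n).map v) k = f (v k) := by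
  simp only [asg, List.getD_eq_getElem?_getD, List.getElem?_map]
  rw [List.getElem?_range hk]
  simp

/-- The truth lemma. -/
lemma truth (hG : GenSet f G) {φ : Fml} : ∀ (v : ℕ → ℕ),
    (Sat (Mod.E hG) φ (fun n => Mod.mk hG (v n)) ↔ ∃ p ∈ G, Forces φ (fun n => f (v n)) p) := by
  induction φ with
  | mem i j => intro v; exact Iff.rfl
  | eq i j =>
    intro v
    rw [sat_eq, Mod.mk_eq_iff]
    exact Iff.rfl
  | bot =>
    intro v
    rw [sat_bot]
    constructor
    · intro h; exact h.elim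
    · rintro ⟨p, _, h⟩; exact h
  | imp φ ψ ih1 ih2 =>
    intro v
    rw [sat_imp, ih1, ih2]
    constructor
    · intro h
      obtain ⟨p, hp, hd⟩ := hG.dec φ ((List.range φ.bd).map v)
      have e1 : ∀ q, Forces φ (asg f ((List.range φ.bd).map v)) q ↔
          Forces φ (fun n => f (v n)) q := fun q =>
        forces_congr_bd (fun k hk => asg_agree f v _ k hk)
      rcases hd with hd | hd
      · obtain ⟨q, hq, h2⟩ := h ⟨p, hp, (e1 p).1 hd⟩
        exact ⟨q, hq, fun r hr _ => forces_mono h2 hr⟩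
      · refine ⟨p, hp, fun q hq h2 => ?_⟩
        exact absurd (hd q hq ((e1 q).2 h2)) (fun h => h)
    · rintro ⟨p, hp, h⟩ ⟨q, hq, h2⟩
      obtain ⟨r, hr, h3, h4⟩ := hG.dir p hp q hq
      exact ⟨r, hr, h r h3 (forces_mono h2 h4)⟩
  | all i φ ih =>
    intro v
    rw [sat_all]
    have key : ∀ k : ℕ, (Function.update (fun n => Mod.mk hG (v n)) i (Mod.mk hG k)) =
        fun n => Mod.mk hG (Function.update v i k n) := by
      intro k; funext n
      by_cases hn : n = i
      · subst hn; simp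
      · simp [Function.update_of_ne hn]
    have key2 : ∀ k : ℕ, (Function.update (fun n => f (v n)) i (f k)) =
        fun n => f (Function.update v i k n) := by
      intro k; funext n
      by_cases hn : n = i
      · subst hn; simp
      · simp [Function.update_of_ne hn]
    constructor
    · intro h
      obtain ⟨p, hp, hw⟩ := hG.wit φ ((List.range (Fml.all i φ).bd).map v) i
      have e1 : ∀ q, Forces (.all i φ) (asg f ((List.range (Fml.all i φ).bd).map v)) q ↔
          Forces (.all i φ) (fun n => f (v n)) q := fun q =>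
        forces_congr_bd (fun k hk => asg_agree f v _ k hk)
      rcases hw with hw | ⟨n, hn⟩
      · exact ⟨p, hp, (e1 p).1 hw⟩
      · exfalso
        have h2 := h (Mod.mk hG n)
        rw [key, ih] at h2
        obtain ⟨q, hq, h3⟩ := h2
        rw [← key2] at h3
        obtain ⟨r, hr, h4, h5⟩ := hG.dir p hp q hq
        refine hn r h4 ?_
        refine (forces_congr_bd ?_).1 (forces_mono h3 h5)
        intro k hk
        by_cases hki : k = i
        · subst hki; simp
        · rw [Function.update_of_ne hki, Function.update_of_ne hki]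
          rw [asg_agree f v _ k (by simp only [Fml.bd]; omega)]
    · rintro ⟨p, hp, h⟩ x
      obtain ⟨k, rfl⟩ := Mod.exists_rep x
      rw [key, ih, ← key2]
      exact ⟨p, hp, h (f k)⟩

lemma Mod.std (hG : GenSet f G) {z x : ℕ} (h : Mod.E hG (Mod.mk hG z) (Mod.mk hG x)) :
    ∃ n, ∃ b : (f x).Idx, f n = (f x).el b ∧ Mod.mk hG z = Mod.mk hG n ∧
      ∃ p ∈ G, p ≤ (f x).cd b := by
  obtain ⟨p, hp, hm⟩ := Mod.E_mk.1 h
  obtain ⟨q, hq, h2⟩ := hG.std z x
  rcases h2 with h2 | ⟨n, b, h3, h4, h5⟩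
  · obtain ⟨r, hr, h6, h7⟩ := hG.dir p hp q hq
    exact absurd (memv_mono hm h6) (h2 r h7)
  · exact ⟨n, b, h3, Mod.mk_eq_iff.2 ⟨q, hq, h5⟩, q, hq, h4⟩

/-- The model is well-founded. -/
lemma Mod.wf (hG : GenSet f G) : WellFounded (Mod.E hG) := by
  have key : ∀ (w : Name P) (x : ℕ), (f x).1 = w → Acc (Mod.E hG) (Mod.mk hG x) := by
    intro w
    induction w with
    | mk α A c ih =>
      intro x hx
      constructor
      intro y hy
      obtain ⟨z, rfl⟩ := Mod.exists_rep y
      obtain ⟨n, b, h1, h2, _⟩ := Mod.std hG hy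
      rw [h2]
      have h3 : (f n).1 = (f x).1.el b := congrArg Subtype.val h1
      have hs : ∀ (y : Name P) (b : y.Idx), y = Name.mk α A c → ∃ a, y.el b = A a := by
        intro y b hy; subst hy; exact ⟨b, rfl⟩
      obtain ⟨a, ha⟩ := hs _ b hx
      exact ih a n (h3.trans ha)
  constructor
  intro x
  obtain ⟨i, rfl⟩ := Mod.exists_rep x
  exact key _ i rfl

lemma Mod.exists_asg {hG : GenSet f G} (v : ℕ → Mod hG) : ∃ v' : ℕ → ℕ,
    v = fun n => Mod.mk hG (v' n) := by
  choose v' hv' using fun n => Mod.exists_rep (v n)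
  exact ⟨v', by funext n; exact (hv' n).symm⟩

lemma Mod.update_mk {hG : GenSet f G} (v : ℕ → ℕ) (i k : ℕ) :
    (Function.update (fun n => Mod.mk hG (v n)) i (Mod.mk hG k)) =
        fun n => Mod.mk hG (Function.update v i k n) := by
  funext n
  by_cases hn : n = i
  · subst hn; simp
  · simp [Function.update_of_ne hn]

lemma update_f (f : ℕ → HSN P Γ) (v : ℕ → ℕ) (i k : ℕ) :
    (Function.update (fun n => f (v n)) i (f k)) = fun n => f (Function.update v i k n) := by
  funext n
  by_cases hn : n = i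
  · subst hn; simp
  · simp [Function.update_of_ne hn]

/-- Separation in the model. -/
lemma Mod.separation (hf : ClosedEnum f) (hG : GenSet f G) (φ : Fml) (v : ℕ → Mod hG) (i : ℕ)
    (x : Mod hG) :
    ∃ y, ∀ z, Mod.E hG z y ↔ Mod.E hG z x ∧ Sat (Mod.E hG) φ (Function.update v i z) := by
  obtain ⟨v', rfl⟩ := Mod.exists_asg v
  obtain ⟨a, rfl⟩ := Mod.exists_rep x
  obtain ⟨n, hn⟩ := hf.sep φ ((List.range φ.bd).map v') i a
  refine ⟨Mod.mk hG n, ?_⟩
  intro z
  obtain ⟨k, rfl⟩ := Mod.exists_rep z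
  rw [Mod.update_mk, truth, Mod.E_mk, Mod.E_mk]
  have e1 : ∀ q, Forces φ (Function.update (asg f ((List.range φ.bd).map v')) i (f k)) q ↔
      Forces φ (fun n => f (Function.update v' i k n)) q := by
    intro q
    rw [← update_f]
    apply forces_congr_bd
    intro j hj
    by_cases hji : j = i
    · subst hji; simp
    · rw [Function.update_of_ne hji, Function.update_of_ne hji, asg_agree f v' _ j hj]
  constructor
  · rintro ⟨p, hp, h⟩
    rw [hn, memv_sep, e1] at h
    exact ⟨⟨p, hp, h.1⟩, ⟨p, hp, h.2⟩⟩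
  · rintro ⟨⟨p, hp, h1⟩, ⟨q, hq, h2⟩⟩
    obtain ⟨r, hr, h3, h4⟩ := hG.dir p hp q hq
    refine ⟨r, hr, ?_⟩
    rw [hn, memv_sep, e1]
    exact ⟨memv_mono h1 h3, forces_mono h2 h4⟩

lemma Mod.mk_pair_iff (hG : GenSet f G) {a b n : ℕ} (hn : f n = pairN (f a) (f b)) (z : Mod hG) :
    Mod.E hG z (Mod.mk hG n) ↔ z = Mod.mk hG a ∨ z = Mod.mk hG b := by
  obtain ⟨k, rfl⟩ := Mod.exists_rep z
  rw [Mod.E_mk, hn]
  constructor
  · rintro ⟨p, hp, h⟩
    by_contra hc
    push Not at hc
    obtain ⟨h1, h2⟩ := hc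
    have d1 := (truth hG (φ := (Fml.eq 0 1).neg) (fun n => if n = 0 then k else a)).1 (by
      rw [sat_neg, sat_eq]; simpa using h1)
    have d2 := (truth hG (φ := (Fml.eq 0 1).neg) (fun n => if n = 0 then k else b)).1 (by
      rw [sat_neg, sat_eq]; simpa using h2)
    obtain ⟨q1, hq1, e1⟩ := d1
    obtain ⟨q2, hq2, e2⟩ := d2
    obtain ⟨r, hr, h3, h4⟩ := hG.dir _ hq1 _ hq2
    obtain ⟨s, _, h5, h6⟩ := hG.dir _ hr _ hp
    obtain ⟨t, ht, h7⟩ := memv_pairN.1 h s h6
    rcases h7 with h7 | h7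
    · exact e1 t ((ht.trans h5).trans h3) h7
    · exact e2 t ((ht.trans h5).trans h4) h7
  · rintro (h | h)
    · obtain ⟨p, hp, h⟩ := Mod.mk_eq_iff.1 h
      exact ⟨p, hp, memv_pairN.2 (fun q hq => ⟨q, le_rfl, Or.inl (eqv_mono h hq)⟩)⟩
    · obtain ⟨p, hp, h⟩ := Mod.mk_eq_iff.1 h
      exact ⟨p, hp, memv_pairN.2 (fun q hq => ⟨q, le_rfl, Or.inr (eqv_mono h hq)⟩)⟩

lemma Mod.mk_succ_iff (hG : GenSet f G) {a n : ℕ} (hn : f n = succN (f a)) (z : Mod hG) :
    Mod.E hG z (Mod.mk hG n) ↔ Mod.E hG z (Mod.mk hG a) ∨ z = Mod.mk hG a := by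
  obtain ⟨k, rfl⟩ := Mod.exists_rep z
  rw [Mod.E_mk, hn]
  constructor
  · rintro ⟨p, hp, h⟩
    by_contra hc
    push Not at hc
    obtain ⟨h1, h2⟩ := hc
    have d1 := (truth hG (φ := (Fml.mem 0 1).neg) (fun n => if n = 0 then k else a)).1 (by
      rw [sat_neg, sat_mem]; simpa using h1)
    have d2 := (truth hG (φ := (Fml.eq 0 1).neg) (fun n => if n = 0 then k else a)).1 (by
      rw [sat_neg, sat_eq]; simpa using h2)
    obtain ⟨q1, hq1, e1⟩ := d1
    obtain ⟨q2, hq2, e2⟩ := d2
    obtain ⟨r, hr, h3, h4⟩ := hG.dir _ hq1 _ hq2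
    obtain ⟨s, _, h5, h6⟩ := hG.dir _ hr _ hp
    obtain ⟨t, ht, h7⟩ := memv_succN.1 h s h6
    rcases h7 with h7 | h7
    · exact e1 t ((ht.trans h5).trans h3) h7
    · exact e2 t ((ht.trans h5).trans h4) h7
  · rintro (h | h)
    · obtain ⟨p, hp, h⟩ := Mod.E_mk.1 h
      exact ⟨p, hp, memv_succN.2 (fun q hq => ⟨q, le_rfl, Or.inl (memv_mono h hq)⟩)⟩
    · obtain ⟨p, hp, h⟩ := Mod.mk_eq_iff.1 h
      exact ⟨p, hp, memv_succN.2 (fun q hq => ⟨q, le_rfl, Or.inr (eqv_mono h hq)⟩)⟩

lemma Mod.mk_emp (hG : GenSet f G) {n : ℕ} (hn : f n = emp) (z : Mod hG) :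
    ¬ Mod.E hG z (Mod.mk hG n) := by
  obtain ⟨k, rfl⟩ := Mod.exists_rep z
  rw [Mod.E_mk, hn]
  rintro ⟨p, _, h⟩
  exact not_memv_emp _ _ h

/-- The generic quotient is a model of ZF. -/
theorem Mod.zf (hf : ClosedEnum f) (hG : GenSet f G) : ZFModel (Mod.E hG) where
  extensionality := by
    intro x y h
    obtain ⟨a, rfl⟩ := Mod.exists_rep x
    obtain ⟨b, rfl⟩ := Mod.exists_rep y
    have h1 := (truth hG (φ := .all 2 (.imp (.mem 2 0) (.mem 2 1)))
      (fun n => if n = 0 then a else b)).1 (by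
        rw [sat_all]; intro z
        simpa using (h z).1)
    have h2 := (truth hG (φ := .all 2 (.imp (.mem 2 0) (.mem 2 1)))
      (fun n => if n = 0 then b else a)).1 (by
        rw [sat_all]; intro z
        simpa using (h z).2)
    obtain ⟨p, hp, h1⟩ := h1
    obtain ⟨q, hq, h2⟩ := h2
    obtain ⟨r, hr, h3, h4⟩ := hG.dir _ hp _ hq
    refine Mod.mk_eq_iff.2 ⟨r, hr, ?_⟩
    apply eqv_ext
    intro z s hs
    constructor
    · intro hz
      have := h1 z s (hs.trans h3)
      simpa [Forces] using this hz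
    · intro hz
      have := h2 z s (hs.trans h4)
      simpa [Forces] using this hz
  foundation := by
    rintro x ⟨y, hy⟩
    obtain ⟨m, hm, h2⟩ := (Mod.wf hG).has_min {y | Mod.E hG y x} ⟨y, hy⟩
    exact ⟨m, hm, fun z hz hzx => h2 z hzx hz⟩
  pairing := by
    intro x y
    obtain ⟨a, rfl⟩ := Mod.exists_rep x
    obtain ⟨b, rfl⟩ := Mod.exists_rep y
    obtain ⟨n, hn⟩ := hf.pair a b
    exact ⟨Mod.mk hG n, fun z => Mod.mk_pair_iff hG hn z⟩
  union := by
    intro x
    obtain ⟨a, rfl⟩ := Mod.exists_rep x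
    obtain ⟨n, hn⟩ := hf.union a
    obtain ⟨u, hu⟩ := Mod.separation hf hG (Fml.ex 2 ((Fml.mem 2 1).and (Fml.mem 0 2)))
      (fun _ => Mod.mk hG a) 0 (Mod.mk hG n)
    refine ⟨u, fun z => ?_⟩
    rw [hu, sat_ex]
    have e : ∀ y, Sat (Mod.E hG) ((Fml.mem 2 1).and (Fml.mem 0 2))
        (Function.update (Function.update (fun _ => Mod.mk hG a) 0 z) 2 y) ↔
        Mod.E hG y (Mod.mk hG a) ∧ Mod.E hG z y := by
      intro y
      rw [sat_and, sat_mem, sat_mem]
      simp
    simp only [e]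
    constructor
    · exact fun h => h.2
    · intro h
      refine ⟨?_, h⟩
      obtain ⟨y, h1, h2⟩ := h
      obtain ⟨b, rfl⟩ := Mod.exists_rep y
      obtain ⟨k, rfl⟩ := Mod.exists_rep z
      obtain ⟨p, hp, h1⟩ := Mod.E_mk.1 h1
      obtain ⟨q, hq, h2⟩ := Mod.E_mk.1 h2
      obtain ⟨r, hr, h3, h4⟩ := hG.dir _ hp _ hq
      refine Mod.E_mk.2 ⟨r, hr, ?_⟩
      rw [hn]
      exact memv_unionN (memv_mono h1 h3) (memv_mono h2 h4)
  powerset := by
    intro x
    obtain ⟨a, rfl⟩ := Mod.exists_rep x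
    obtain ⟨n, hn⟩ := hf.pow a
    obtain ⟨u, hu⟩ := Mod.separation hf hG (Fml.all 2 (.imp (Fml.mem 2 0) (Fml.mem 2 1)))
      (fun _ => Mod.mk hG a) 0 (Mod.mk hG n)
    refine ⟨u, fun z => ?_⟩
    rw [hu, sat_all]
    have e : ∀ y, Sat (Mod.E hG) (.imp (Fml.mem 2 0) (Fml.mem 2 1))
        (Function.update (Function.update (fun _ => Mod.mk hG a) 0 z) 2 y) ↔
        (Mod.E hG y z → Mod.E hG y (Mod.mk hG a)) := by
      intro y
      rw [sat_imp, sat_mem, sat_mem]
      simp
    simp only [e]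
    constructor
    · exact fun h => h.2
    · intro h
      refine ⟨?_, h⟩
      obtain ⟨k, rfl⟩ := Mod.exists_rep z
      have h1 := (truth hG (φ := .all 2 (.imp (.mem 2 0) (.mem 2 1)))
        (fun n => if n = 0 then k else a)).1 (by
          rw [sat_all]; intro z
          simpa using h z)
      obtain ⟨p, hp, h1⟩ := h1
      refine Mod.E_mk.2 ⟨p, hp, ?_⟩
      rw [hn]
      apply memv_powN
      intro z q hq hz
      have := h1 z q hq
      simpa [Forces] using this hz
  infinity := by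
    obtain ⟨n, hn⟩ := hf.omega
    refine ⟨Mod.mk hG n, ?_, ?_⟩
    · obtain ⟨m, hm⟩ := hf.nat 0
      obtain ⟨p, hp⟩ := hG.ne
      refine ⟨Mod.mk hG m, Mod.E_mk.2 ⟨p, hp, ?_⟩, Mod.mk_emp hG hm⟩
      rw [hn, hm]
      exact memv_omegaN 0 p
    · intro y hy
      obtain ⟨k, rfl⟩ := Mod.exists_rep y
      obtain ⟨m, b, h1, h2, _⟩ := Mod.std hG hy
      have h3 : ∃ j : ℕ, f m = natN j := by
        have hs : ∀ (y : HSN P Γ) (b : y.Idx), y = omegaN → ∃ j : ℕ, y.el b = natN j := by
          intro y b hy; subst hy; exact ⟨b, rfl⟩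
        obtain ⟨j, hj⟩ := hs (f n) b hn
        exact ⟨j, h1.trans hj⟩
      obtain ⟨j, hj⟩ := h3
      obtain ⟨s, hs⟩ := hf.nat (j + 1)
      obtain ⟨p, hp⟩ := hG.ne
      refine ⟨Mod.mk hG s, Mod.E_mk.2 ⟨p, hp, ?_⟩, ?_⟩
      · rw [hn, hs]
        exact memv_omegaN (j + 1) p
      · intro z
        rw [h2]
        apply Mod.mk_succ_iff
        rw [hs, hj]
        rfl
  separation := fun φ v i x => Mod.separation hf hG φ v i x
  replacement := by
    intro φ v i j hij x hx
    obtain ⟨v', rfl⟩ := Mod.exists_asg v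
    obtain ⟨a, rfl⟩ := Mod.exists_rep x
    obtain ⟨n, hn⟩ := hf.coll φ ((List.range φ.bd).map v') i j a
    -- fresh variable
    let K : ℕ := max φ.bd (max (i + 1) (j + 1))
    have hKφ : φ.bd ≤ K := le_max_left _ _
    have hKi : K ≠ i := by
      have : i + 1 ≤ K := (le_max_left _ _).trans (le_max_right _ _)
      omega
    have hKj : K ≠ j := by
      have : j + 1 ≤ K := (le_max_right _ _).trans (le_max_right _ _)
      omega
    -- values land in the collecting set
    have hcoll : ∀ y b, Mod.E hG y (Mod.mk hG a) →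
        Sat (Mod.E hG) φ (Function.update (Function.update (fun n => Mod.mk hG (v' n)) i y) j b) →
        Mod.E hG b (Mod.mk hG n) := by
      intro y b hy hb
      obtain ⟨k, rfl⟩ := Mod.exists_rep y
      obtain ⟨m, rfl⟩ := Mod.exists_rep b
      have hb' := hb
      rw [Mod.update_mk, Mod.update_mk, truth] at hb'
      obtain ⟨p, hp, h1⟩ := hb'
      obtain ⟨q, hq, h2⟩ := Mod.E_mk.1 hy
      obtain ⟨r, hr, h3, h4⟩ := hG.dir _ hp _ hq
      -- the assignment with the fresh variable
      let w : ℕ → ℕ := Function.update (Function.update v' i k) K n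
      have hF : Forces (Fml.ex j ((Fml.mem j K).and φ)) (fun n => f (w n)) r := by
        intro s hs hall
        have h5 : Forces φ (Function.update (Function.update (asg f ((List.range φ.bd).map v')) i
            (f k)) j (f m)) s := by
          rw [← update_f, ← update_f] at h1
          refine (forces_congr_bd ?_).1 (forces_mono h1 (hs.trans h3))
          intro l hl
          by_cases hlj : l = j
          · subst hlj; simp
          · rw [Function.update_of_ne hlj, Function.update_of_ne hlj]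
            by_cases hli : l = i
            · subst hli; simp
            · rw [Function.update_of_ne hli, Function.update_of_ne hli, asg_agree f v' _ l hl]
        obtain ⟨t, ht, w', hw1, hw2⟩ := memv_collN (memv_mono h2 (hs.trans h4)) h5
        refine hall w' t ht ?_
        intro u hu himp
        have g1 : Forces (Fml.mem j K) (Function.update (fun n => f (w n)) j w') u := by
          change memv (Function.update (fun n => f (w n)) j w' j)
            (Function.update (fun n => f (w n)) j w' K) u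
          rw [Function.update_self, Function.update_of_ne hKj]
          have : f (w K) = f n := by simp [w]
          rw [this, hn]
          exact memv_mono hw1 hu
        have g2 : Forces φ (Function.update (fun n => f (w n)) j w') u := by
          refine (forces_congr_bd ?_).1 (forces_mono hw2 hu)
          intro l hl
          by_cases hlj : l = j
          · subst hlj; simp
          · rw [Function.update_of_ne hlj, Function.update_of_ne hlj]
            have hlK : l ≠ K := by omega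
            by_cases hli : l = i
            · subst hli; simp [w, Function.update_of_ne hlK]
            · rw [Function.update_of_ne hli, asg_agree f v' _ l hl]
              simp [w, Function.update_of_ne hlK, Function.update_of_ne hli]
        exact himp u le_rfl g1 u le_rfl g2
      have hS := (truth hG w).2 ⟨r, hr, hF⟩
      rw [sat_ex] at hS
      obtain ⟨c, hc⟩ := hS
      rw [sat_and] at hc
      obtain ⟨hc1, hc2⟩ := hc
      rw [sat_mem, Function.update_self, Function.update_of_ne hKj] at hc1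
      have hwK : w K = n := by simp [w]
      rw [hwK] at hc1
      have hc3 : Sat (Mod.E hG) φ (Function.update (Function.update (fun n => Mod.mk hG (v' n)) i
          (Mod.mk hG k)) j c) := by
        refine (sat_congr_bd _ ?_).1 hc2
        intro l hl
        by_cases hlj : l = j
        · subst hlj; simp
        · rw [Function.update_of_ne hlj, Function.update_of_ne hlj]
          have hlK : l ≠ K := by omega
          by_cases hli : l = i
          · subst hli; simp [w, Function.update_of_ne hlK]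
          · simp [w, Function.update_of_ne hlK, Function.update_of_ne hli]
      obtain ⟨b₀, _, huniq⟩ := hx (Mod.mk hG k) hy
      have e1 := huniq _ hb
      have e2 := huniq _ hc3
      rw [e1, ← e2]
      exact hc1
    obtain ⟨u, hu⟩ := Mod.separation hf hG (Fml.ex i ((Fml.mem i K).and φ))
      (Function.update (fun n => Mod.mk hG (v' n)) K (Mod.mk hG a)) j (Mod.mk hG n)
    have e : ∀ b y, Sat (Mod.E hG) ((Fml.mem i K).and φ)
        (Function.update (Function.update (Function.update (fun n => Mod.mk hG (v' n)) K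
          (Mod.mk hG a)) j b) i y) ↔
        Mod.E hG y (Mod.mk hG a) ∧ Sat (Mod.E hG) φ
          (Function.update (Function.update (fun n => Mod.mk hG (v' n)) i y) j b) := by
      intro b y
      rw [sat_and, sat_mem, Function.update_self, Function.update_of_ne hKi,
        Function.update_of_ne hKj, Function.update_self]
      apply and_congr Iff.rfl
      apply sat_congr_bd
      intro l hl
      have hlK : l ≠ K := by omega
      by_cases hli : l = i
      · subst hli
        rw [Function.update_self, Function.update_of_ne hij, Function.update_self]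
      · rw [Function.update_of_ne hli]
        by_cases hlj : l = j
        · subst hlj; simp
        · rw [Function.update_of_ne hlj, Function.update_of_ne hlj, Function.update_of_ne hlK,
            Function.update_of_ne hli]
    refine ⟨u, fun b => ?_⟩
    rw [hu, sat_ex]
    simp only [e]
    constructor
    · exact fun h => h.2
    · rintro ⟨y, hy, hb⟩
      exact ⟨hcoll y b hy hb, y, hy, hb⟩

end Pool.Agent.Helper93.ZF
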